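import Pool.Agent.Helper41_Pauli.Deriv

/-!
# Module HEAT
-/

open MeasureTheory Set

namespace Pool.Agent.Helper49_Pauli.TF

/-- The Gaussian `exp (-|z|^2 / (4 σ))`. -/
noncomputable def gs (σ : ℝ) (z : X3) : ℝ := Real.exp (-(sq z / (4 * σ)))

lemma gs_pos (σ : ℝ) (z : X3) : 0 < gs σ z := Real.exp_pos _

lemma continuous_gs (σ : ℝ) : Continuous (gs σ) := by
  unfold gs
  have := continuous_sq
  fun_prop

/-- The mass of the Gaussian. -/
noncomputable def mass (σ : ℝ) : ℝ := (4 * Real.pi * σ) ^ (3 / 2 : ℝ)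

lemma mass_pos {σ : ℝ} (hσ : 0 < σ) : 0 < mass σ := by
  unfold mass
  positivity

lemma cexp_eq {σ : ℝ} (k z : X3) :
    Complex.exp (-(((1 / (4 * σ) : ℝ)) : ℂ) * ∑ i, (z i : ℂ) ^ 2 + ∑ i, (Complex.I * (k i : ℂ)) * z i) =
      (gs σ z : ℂ) * Complex.exp (Complex.I * (dot z k : ℂ)) := by
  unfold gs dot sq
  rw [Complex.exp_add]
  congr 1
  · push_cast
    congr 1
    ring
  · congr 1
    push_cast
    rw [Finset.mul_sum]
    apply Finset.sum_congr rfl
    intro i _
    ring

lemma integrable_gs_exp {σ : ℝ} (hσ : 0 < σ) (k : X3) :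
    Integrable fun z : X3 => (gs σ z : ℂ) * Complex.exp (Complex.I * (dot z k : ℂ)) := by
  have := GaussianFourier.integrable_cexp_neg_mul_sum_add (ι := Fin 3) (b := ((1 / (4 * σ) : ℝ) : ℂ))
    (by rw [Complex.ofReal_re]; positivity) (fun i => Complex.I * (k i : ℂ))
  simpa only [cexp_eq] using this

lemma integral_gs_exp {σ : ℝ} (hσ : 0 < σ) (k : X3) :
    ∫ z : X3, (gs σ z : ℂ) * Complex.exp (Complex.I * (dot z k : ℂ)) =
      ((mass σ * Real.exp (-(σ * sq k)) : ℝ) : ℂ) := by
  have := GaussianFourier.integral_cexp_neg_mul_sum_add (ι := Fin 3) (b := ((1 / (4 * σ) : ℝ) : ℂ))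
    (by rw [Complex.ofReal_re]; positivity) (fun i => Complex.I * (k i : ℂ))
  simp only [cexp_eq] at this
  rw [this]
  push_cast
  congr 1
  · unfold mass
    rw [Complex.ofReal_cpow (by positivity)]
    congr 1
    · push_cast
      field_simp
    · simp
  · congr 1
    unfold sq
    simp only [mul_pow, Complex.I_sq]
    push_cast
    rw [← Finset.mul_sum]
    have : (σ : ℂ) ≠ 0 := by exact_mod_cast hσ.ne'
    field_simp

lemma gs_cos_re (σ : ℝ) (k z : X3) :
    ((gs σ z : ℂ) * Complex.exp (Complex.I * (dot z k : ℂ))).re = gs σ z * Real.cos (dot z k) := by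
  rw [Complex.re_ofReal_mul, mul_comm Complex.I, Complex.exp_ofReal_mul_I_re]

lemma gs_sin_im (σ : ℝ) (k z : X3) :
    ((gs σ z : ℂ) * Complex.exp (Complex.I * (dot z k : ℂ))).im = gs σ z * Real.sin (dot z k) := by
  rw [Complex.im_ofReal_mul, mul_comm Complex.I, Complex.exp_ofReal_mul_I_im]

lemma gs_cos {σ : ℝ} (hσ : 0 < σ) (k : X3) :
    ∫ z : X3, gs σ z * Real.cos (dot z k) = mass σ * Real.exp (-(σ * sq k)) := by
  have h1 := congrArg Complex.re (integral_gs_exp hσ k)
  have h2 : (∫ z : X3, (gs σ z : ℂ) * Complex.exp (Complex.I * (dot z k : ℂ))).re =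
      ∫ z : X3, ((gs σ z : ℂ) * Complex.exp (Complex.I * (dot z k : ℂ))).re :=
    (integral_re (𝕜 := ℂ) (integrable_gs_exp hσ k)).symm
  rw [h2, Complex.ofReal_re] at h1
  simpa only [gs_cos_re] using h1

lemma gs_sin {σ : ℝ} (hσ : 0 < σ) (k : X3) :
    ∫ z : X3, gs σ z * Real.sin (dot z k) = 0 := by
  have h1 := congrArg Complex.im (integral_gs_exp hσ k)
  have h2 : (∫ z : X3, (gs σ z : ℂ) * Complex.exp (Complex.I * (dot z k : ℂ))).im =
      ∫ z : X3, ((gs σ z : ℂ) * Complex.exp (Complex.I * (dot z k : ℂ))).im :=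
    (integral_im (𝕜 := ℂ) (integrable_gs_exp hσ k)).symm
  rw [h2, Complex.ofReal_im] at h1
  simpa only [gs_sin_im] using h1

lemma integrable_gs {σ : ℝ} (hσ : 0 < σ) : Integrable (gs σ) := by
  have h := (integrable_gs_exp hσ 0).re
  refine h.congr (Filter.Eventually.of_forall fun z => ?_)
  simp only [RCLike.re_to_complex]
  rw [gs_cos_re]
  simp [dot]

lemma integral_gs {σ : ℝ} (hσ : 0 < σ) : ∫ z : X3, gs σ z = mass σ := by
  have := gs_cos hσ 0
  simpa [dot, sq] using this

/-- A crude bound used for integrability and estimates. -/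
lemma gs_bound {σ : ℝ} (hσ : 0 < σ) (z : X3) :
    (1 + sq z / σ) * (1 + 3 * (sq z / σ)) * gs σ z ≤ 384 * Real.exp (-(sq z / (8 * σ))) := by
  have h0 := sq_nonneg' z
  set u := sq z / (8 * σ) with hu
  have hu0 : 0 ≤ u := by positivity
  have h1 : sq z / σ = 8 * u := by
    rw [hu]
    field_simp
  have h2 : gs σ z = Real.exp (-u) * Real.exp (-u) := by
    unfold gs
    rw [← Real.exp_add]
    congr 1
    rw [hu]
    field_simp
    ring
  rw [h1, h2]
  have h3 : 1 + u + u ^ 2 / 2 ≤ Real.exp u := Real.quadratic_le_exp_of_nonneg hu0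
  have h4 : Real.exp u * Real.exp (-u) = 1 := by
    rw [← Real.exp_add]
    simp
  have h5 := (Real.exp_pos (-u)).le
  have h6 : (1 + 8 * u) * (1 + 3 * (8 * u)) ≤ 384 * Real.exp u := by nlinarith
  calc (1 + 8 * u) * (1 + 3 * (8 * u)) * (Real.exp (-u) * Real.exp (-u))
      ≤ 384 * Real.exp u * (Real.exp (-u) * Real.exp (-u)) :=
        mul_le_mul_of_nonneg_right h6 (mul_nonneg h5 h5)
    _ = 384 * (Real.exp u * Real.exp (-u)) * Real.exp (-u) := by ring
    _ = 384 * Real.exp (-u) := by rw [h4, mul_one]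

/-- The three kinds of kernels. -/
noncomputable def ker1 (σ : ℝ) (p : Fin 3) (z : X3) : ℝ := z p * gs σ z

noncomputable def ker2 (σ : ℝ) (p q : Fin 3) (z : X3) : ℝ := z q * ker1 σ p z

lemma abs_mul_le_sq (z : X3) (p q : Fin 3) : |z p * z q| ≤ sq z := by
  rw [abs_mul]
  calc |z p| * |z q| ≤ nrm z * nrm z :=
        mul_le_mul (abs_le_nrm z p) (abs_le_nrm z q) (abs_nonneg _) (nrm_nonneg z)
    _ = sq z := by rw [← nrm_sq]; ring

lemma exp_eq_gs (σ : ℝ) (z : X3) : Real.exp (-(sq z / (8 * σ))) = gs (2 * σ) z := by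
  unfold gs
  congr 2
  ring

lemma integrable_ker2 {σ : ℝ} (hσ : 0 < σ) (p q : Fin 3) : Integrable (ker2 σ p q) := by
  have h1 := (integrable_gs (show 0 < 2 * σ by linarith)).const_mul (384 * σ)
  refine h1.mono' ?_ (Filter.Eventually.of_forall fun z => ?_)
  · unfold ker2 ker1
    have := continuous_gs σ
    exact Continuous.aestronglyMeasurable (by fun_prop)
  · have h2 := gs_bound hσ z
    rw [exp_eq_gs] at h2
    have h0 := sq_nonneg' z
    have h3 := (gs_pos σ z).le
    have h4 : sq z * gs σ z ≤ 384 * σ * gs (2 * σ) z := by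
      have h5 : sq z / σ * gs σ z ≤ (1 + sq z / σ) * (1 + 3 * (sq z / σ)) * gs σ z := by
        apply mul_le_mul_of_nonneg_right _ h3
        have : 0 ≤ sq z / σ := by positivity
        nlinarith
      have h6 : sq z * gs σ z = σ * (sq z / σ * gs σ z) := by
        field_simp
      rw [h6]
      calc σ * (sq z / σ * gs σ z) ≤ σ * (384 * gs (2 * σ) z) :=
            mul_le_mul_of_nonneg_left (h5.trans h2) hσ.le
        _ = _ := by ring
    have h5 : ‖ker2 σ p q z‖ ≤ sq z * gs σ z := by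
      unfold ker2 ker1
      rw [Real.norm_eq_abs, ← mul_assoc, abs_mul, abs_of_nonneg h3]
      exact mul_le_mul_of_nonneg_right (abs_mul_le_sq z q p) h3
    exact h5.trans h4

lemma integrable_ker1 {σ : ℝ} (hσ : 0 < σ) (p : Fin 3) : Integrable (ker1 σ p) := by
  have h1 := (integrable_gs hσ).add (integrable_ker2 hσ p p)
  refine h1.mono' ?_ (Filter.Eventually.of_forall fun z => ?_)
  · unfold ker1
    have := continuous_gs σ
    exact Continuous.aestronglyMeasurable (by fun_prop)
  · have h3 := (gs_pos σ z).le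
    simp only [Pi.add_apply]
    unfold ker2 ker1
    rw [Real.norm_eq_abs, abs_mul, abs_of_nonneg h3]
    have h4 : |z p| ≤ 1 + z p * z p := by
      have := abs_nonneg (z p)
      nlinarith [sq_abs (z p), _root_.sq_nonneg (|z p| - 1)]
    nlinarith

/-- Symbols of the kernels. -/
lemma ker1_sin {σ : ℝ} (hσ : 0 < σ) (p : Fin 3) (k : X3) :
    ∫ z : X3, ker1 σ p z * Real.sin (dot z k) = 2 * σ * k p * (mass σ * Real.exp (-(σ * sq k))) := by
  have h1 := hasDerivAt_cos (gs σ) p (integrable_gs hσ) (integrable_ker1 hσ p) k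
  simp only [gs_cos hσ] at h1
  have h2 := (((hasDerivAt_sq_line k p).const_mul σ).neg.exp).const_mul (mass σ)
  have h3 := h1.unique h2
  rw [integral_neg] at h3
  have h4 : ∫ z : X3, ker1 σ p z * Real.sin (dot z k) =
      -(-∫ z : X3, z p * gs σ z * Real.sin (dot z k)) := by
    rw [neg_neg]
    rfl
  rw [h4, h3]
  simp
  ring

lemma ker1_cos {σ : ℝ} (hσ : 0 < σ) (p : Fin 3) (k : X3) :
    ∫ z : X3, ker1 σ p z * Real.cos (dot z k) = 0 := by
  have h1 := hasDerivAt_sin (gs σ) p (integrable_gs hσ) (integrable_ker1 hσ p) k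
  simp only [gs_sin hσ] at h1
  exact h1.unique (hasDerivAt_const (0 : ℝ) (0 : ℝ))

lemma ker2_cos {σ : ℝ} (hσ : 0 < σ) (p q : Fin 3) (k : X3) :
    ∫ z : X3, ker2 σ p q z * Real.cos (dot z k) =
      2 * σ * ((Pi.single q 1 : X3) p - 2 * σ * (k p * k q)) * (mass σ * Real.exp (-(σ * sq k))) := by
  have h1 := hasDerivAt_sin (ker1 σ p) q (integrable_ker1 hσ p) (integrable_ker2 hσ p q) k
  simp only [ker1_sin hσ] at h1
  have h2 := (((hasDerivAt_sq_line k q).const_mul σ).neg.exp).const_mul (mass σ)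
  have h3 : HasDerivAt (fun s : ℝ => (k + s • (Pi.single q 1 : X3)) p)
      ((Pi.single q 1 : X3) p) 0 := by
    simp only [Pi.add_apply, Pi.smul_apply, smul_eq_mul]
    simpa using ((hasDerivAt_id (0 : ℝ)).mul_const ((Pi.single q 1 : X3) p)).const_add (k p)
  have h4 := (h3.const_mul (2 * σ)).mul h2
  have h5 := h1.unique h4
  have h6 : ∫ z : X3, ker2 σ p q z * Real.cos (dot z k) =
      ∫ z : X3, z q * ker1 σ p z * Real.cos (dot z k) := rfl
  rw [h6, h5]
  simp
  ring

lemma ker2_sin {σ : ℝ} (hσ : 0 < σ) (p q : Fin 3) (k : X3) :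
    ∫ z : X3, ker2 σ p q z * Real.sin (dot z k) = 0 := by
  have h1 := hasDerivAt_cos (ker1 σ p) q (integrable_ker1 hσ p) (integrable_ker2 hσ p q) k
  simp only [ker1_cos hσ] at h1
  have h2 := h1.unique (hasDerivAt_const (0 : ℝ) (0 : ℝ))
  rw [integral_neg, neg_eq_zero] at h2
  exact h2

/-! ### Convolution with the trigonometric sum -/

section conv

variable {ι : Type} [Fintype ι] (b θ : ι → ℝ) (k : ι → X3)

/-- The trigonometric sum. -/
noncomputable def trig (y : X3) : ℝ := ∑ i, b i * Real.cos (dot (k i) y - θ i)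

lemma continuous_dot (k : X3) : Continuous fun x : X3 => dot k x := by
  unfold dot
  fun_prop

lemma continuous_trig : Continuous (trig b θ k) := by
  unfold trig
  refine continuous_finsetSum _ fun i _ => ?_
  have := continuous_dot (k i)
  fun_prop

lemma dot_sub (k x z : X3) : dot k (x - z) = dot k x - dot z k := by
  unfold dot
  rw [← Finset.sum_sub_distrib]
  apply Finset.sum_congr rfl
  intro i _
  rw [Pi.sub_apply]
  ring

lemma conv_eq (K : X3 → ℝ) (hK : Integrable K) (x : X3) :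
    ∫ z, K z * trig b θ k (x - z) =
      ∑ i, b i * (Real.cos (dot (k i) x - θ i) * (∫ z, K z * Real.cos (dot z (k i))) +
        Real.sin (dot (k i) x - θ i) * ∫ z, K z * Real.sin (dot z (k i))) := by
  have hc : ∀ i, Integrable fun z => K z * Real.cos (dot z (k i)) := fun i => by
    have := measurable_dot (k i)
    refine hK.mul_bdd (c := 1) (Continuous.aestronglyMeasurable (by fun_prop))
      (Filter.Eventually.of_forall fun k => ?_)
    rw [Real.norm_eq_abs]
    exact Real.abs_cos_le_one _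
  have hs : ∀ i, Integrable fun z => K z * Real.sin (dot z (k i)) := fun i => by
    have := measurable_dot (k i)
    refine hK.mul_bdd (c := 1) (Continuous.aestronglyMeasurable (by fun_prop))
      (Filter.Eventually.of_forall fun k => ?_)
    rw [Real.norm_eq_abs]
    exact Real.abs_sin_le_one _
  have h1 : ∀ z, K z * trig b θ k (x - z) = ∑ i, (b i * Real.cos (dot (k i) x - θ i) *
      (K z * Real.cos (dot z (k i))) + b i * Real.sin (dot (k i) x - θ i) *
      (K z * Real.sin (dot z (k i)))) := by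
    intro z
    unfold trig
    rw [Finset.mul_sum]
    apply Finset.sum_congr rfl
    intro i _
    have : dot (k i) (x - z) - θ i = (dot (k i) x - θ i) - dot z (k i) := by
      rw [dot_sub]
      ring
    rw [this, Real.cos_sub]
    ring
  simp only [h1]
  rw [integral_finsetSum]
  · apply Finset.sum_congr rfl
    intro i _
    rw [integral_add ((hc i).const_mul _) ((hs i).const_mul _), integral_const_mul,
      integral_const_mul]
    ring
  · intro i _
    exact ((hc i).const_mul _).add ((hs i).const_mul _)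

/-- The weight. -/
noncomputable def wgt (R : ℝ) (y : X3) : ℝ := (1 + sq y / R ^ 2)⁻¹

lemma wgt_pos (R : ℝ) (y : X3) : 0 < wgt R y := by
  unfold wgt
  have := sq_nonneg' y
  positivity

lemma continuous_wgt (R : ℝ) : Continuous (wgt R) := by
  unfold wgt
  have := continuous_sq
  refine Continuous.inv₀ (by fun_prop) fun y => ?_
  have := sq_nonneg' y
  positivity

lemma integrable_wgt_sq {R : ℝ} (hR : 0 < R) : Integrable fun y : X3 => wgt R y ^ 2 := by
  have h1 : Integrable fun y : X3 => ((1 : ℝ) + ‖y‖ ^ 2) ^ (-(4 : ℝ) / 2) :=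
    integrable_rpow_neg_one_add_norm_sq (by norm_num)
  refine (h1.const_mul ((1 + R ^ 2) ^ 2)).mono' ?_ (Filter.Eventually.of_forall fun y => ?_)
  · exact ((continuous_wgt R).pow 2).aestronglyMeasurable
  · rw [Real.norm_eq_abs, abs_of_nonneg (by positivity)]
    have h2 : ((1 : ℝ) + ‖y‖ ^ 2) ^ (-(4 : ℝ) / 2) = ((1 + ‖y‖ ^ 2)⁻¹) ^ 2 := by
      rw [show (-(4 : ℝ) / 2) = -((2 : ℕ) : ℝ) by norm_num, Real.rpow_neg (by positivity),
        Real.rpow_natCast, inv_pow]
    rw [h2, ← mul_pow]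
    apply pow_le_pow_left₀ (wgt_pos R y).le
    unfold wgt
    have h3 : ‖y‖ ^ 2 ≤ sq y := by
      rw [← nrm_sq]
      exact pow_le_pow_left₀ (norm_nonneg _) (norm_le_nrm y) 2
    have h4 : 0 ≤ sq y := sq_nonneg' y
    rw [← div_eq_mul_inv, inv_le_comm₀ (by positivity) (by positivity), inv_div,
      div_le_iff₀ (by positivity)]
    have h5 : 0 ≤ sq y / R ^ 2 := by positivity
    have h6 : sq y / R ^ 2 * R ^ 2 = sq y := by field_simp
    nlinarith [sq_nonneg R]

/-- The weighted `L²` norm. -/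
noncomputable def wnorm (R : ℝ) (b θ : ι → ℝ) (k : ι → X3) : ℝ :=
  Real.sqrt (∫ y : X3, (wgt R y * trig b θ k y) ^ 2)

lemma abs_trig_le (y : X3) : |trig b θ k y| ≤ ∑ i, |b i| := by
  unfold trig
  refine (Finset.abs_sum_le_sum_abs _ _).trans (Finset.sum_le_sum fun i _ => ?_)
  rw [abs_mul]
  exact mul_le_of_le_one_right (abs_nonneg _) (Real.abs_cos_le_one _)

lemma integrable_wt_sq {R : ℝ} (hR : 0 < R) :
    Integrable fun y : X3 => (wgt R y * |trig b θ k y|) ^ 2 := by
  refine ((integrable_wgt_sq hR).mul_const ((∑ i, |b i|) ^ 2)).mono' ?_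
    (Filter.Eventually.of_forall fun y => ?_)
  · exact (((continuous_wgt R).mul (continuous_trig b θ k).abs).pow 2).aestronglyMeasurable
  · rw [Real.norm_eq_abs, abs_of_nonneg (by positivity), mul_pow]
    apply mul_le_mul_of_nonneg_left _ (by positivity)
    exact pow_le_pow_left₀ (abs_nonneg _) (abs_trig_le b θ k y) 2

lemma gs_sq (σ : ℝ) (z : X3) : gs (2 * σ) z ^ 2 = gs σ z := by
  unfold gs
  rw [← Real.exp_nat_mul]
  congr 1
  push_cast
  ring

/-- The main estimate. -/
lemma conv_bound {R σ : ℝ} (hR : 0 < R) (hσ : 0 < σ) (hσR : σ ≤ 3 * R ^ 2) (x : X3)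
    (K : X3 → ℝ) {D : ℝ} (hD : 0 ≤ D) (hK : ∀ z, |K z| * (1 + 3 * (sq z / σ)) ≤ D * gs (2 * σ) z) :
    |∫ z, K z * trig b θ k (x - z)| ≤
      2 * (1 + sq x / R ^ 2) * D * Real.sqrt (mass σ) * wnorm R b θ k := by
  have hx0 := sq_nonneg' x
  set A : ℝ := 2 * (1 + sq x / R ^ 2) * D with hA
  have hA0 : 0 ≤ A := by positivity
  set G : X3 → ℝ := fun z => wgt R (x - z) * |trig b θ k (x - z)| with hG
  have hGc : Continuous G := by
    have h1 := continuous_wgt R
    have h2 := continuous_trig b θ k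
    exact (h1.comp (continuous_const.sub continuous_id)).mul
      (h2.comp (continuous_const.sub continuous_id)).abs
  have hG0 : ∀ z, 0 ≤ G z := fun z => mul_nonneg (wgt_pos R _).le (abs_nonneg _)
  have hG2 : Integrable fun z => G z ^ 2 := by
    have := (integrable_wt_sq b θ k hR).comp_sub_left x
    exact this
  have hGL : MemLp G (ENNReal.ofReal 2) := by
    rw [ENNReal.ofReal_ofNat, memLp_two_iff_integrable_sq hGc.aestronglyMeasurable]
    exact hG2
  have hgL : MemLp (gs (2 * σ)) (ENNReal.ofReal 2) := by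
    rw [ENNReal.ofReal_ofNat, memLp_two_iff_integrable_sq (continuous_gs _).aestronglyMeasurable]
    simp only [gs_sq]
    exact integrable_gs hσ
  have hpt : ∀ z, ‖K z * trig b θ k (x - z)‖ ≤ A * (gs (2 * σ) z * G z) := by
    intro z
    have hz0 := sq_nonneg' z
    have h1 : sq (x - z) ≤ 2 * sq x + 2 * sq z := by
      unfold sq
      rw [Finset.mul_sum, Finset.mul_sum, ← Finset.sum_add_distrib]
      apply Finset.sum_le_sum
      intro j _
      rw [Pi.sub_apply]
      nlinarith [_root_.sq_nonneg (x j + z j)]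
    have h2 : sq z / R ^ 2 ≤ 3 * (sq z / σ) := by
      rw [div_le_iff₀ (by positivity)]
      have : 3 * (sq z / σ) * R ^ 2 = sq z * (3 * R ^ 2 / σ) := by ring
      rw [this]
      have h3 : 1 ≤ 3 * R ^ 2 / σ := by
        rw [le_div_iff₀ hσ]
        linarith
      nlinarith
    have h3 : 1 + sq (x - z) / R ^ 2 ≤ 2 * (1 + sq x / R ^ 2) * (1 + 3 * (sq z / σ)) := by
      have h4 : sq (x - z) / R ^ 2 ≤ 2 * (sq x / R ^ 2) + 2 * (sq z / R ^ 2) := by
        rw [← mul_div_assoc, ← mul_div_assoc, ← add_div]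
        exact div_le_div_of_nonneg_right h1 (by positivity)
      have h5 : 0 ≤ sq x / R ^ 2 := by positivity
      have h6 : 0 ≤ sq z / σ := by positivity
      nlinarith [mul_nonneg h5 h6]
    have h4 : |trig b θ k (x - z)| = (1 + sq (x - z) / R ^ 2) * G z := by
      simp only [hG]
      unfold wgt
      have := sq_nonneg' (x - z)
      field_simp
    rw [norm_mul, Real.norm_eq_abs, Real.norm_eq_abs, h4]
    calc |K z| * ((1 + sq (x - z) / R ^ 2) * G z)
        ≤ |K z| * ((2 * (1 + sq x / R ^ 2) * (1 + 3 * (sq z / σ))) * G z) :=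
          mul_le_mul_of_nonneg_left (mul_le_mul_of_nonneg_right h3 (hG0 z)) (abs_nonneg _)
      _ = 2 * (1 + sq x / R ^ 2) * (|K z| * (1 + 3 * (sq z / σ))) * G z := by ring
      _ ≤ 2 * (1 + sq x / R ^ 2) * (D * gs (2 * σ) z) * G z := by
          apply mul_le_mul_of_nonneg_right _ (hG0 z)
          exact mul_le_mul_of_nonneg_left (hK z) (by positivity)
      _ = A * (gs (2 * σ) z * G z) := by
          rw [hA]
          ring
  have hint : Integrable fun z => gs (2 * σ) z * G z := by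
    rw [ENNReal.ofReal_ofNat] at hGL hgL
    exact hgL.integrable_mul hGL
  have hCS := integral_mul_le_Lp_mul_Lq_of_nonneg (μ := (volume : Measure X3))
    Real.HolderConjugate.two_two (Filter.Eventually.of_forall fun z => (gs_pos (2 * σ) z).le)
    (Filter.Eventually.of_forall hG0) hgL hGL
  have e1 : ∫ z, gs (2 * σ) z ^ (2 : ℝ) = mass σ := by
    rw [← integral_gs hσ]
    congr 1
    funext z
    rw [Real.rpow_two, gs_sq]
  have e2 : ∫ z, G z ^ (2 : ℝ) = ∫ y : X3, (wgt R y * trig b θ k y) ^ 2 := by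
    have h1 := integral_sub_left_eq_self (fun y : X3 => (wgt R y * trig b θ k y) ^ 2) volume x
    rw [← h1]
    congr 1
    funext z
    rw [Real.rpow_two]
    simp only [hG]
    rw [mul_pow, mul_pow, sq_abs]
  rw [e1, e2, ← Real.sqrt_eq_rpow, ← Real.sqrt_eq_rpow] at hCS
  calc |∫ z, K z * trig b θ k (x - z)| ≤ ∫ z, A * (gs (2 * σ) z * G z) := by
        rw [← Real.norm_eq_abs]
        exact norm_integral_le_of_norm_le (hint.const_mul A) (Filter.Eventually.of_forall hpt)
    _ = A * ∫ z, gs (2 * σ) z * G z := integral_const_mul _ _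
    _ ≤ A * (Real.sqrt (mass σ) * wnorm R b θ k) := mul_le_mul_of_nonneg_left hCS hA0
    _ = _ := by ring

end conv

lemma mass_sqrt {σ : ℝ} (hσ : 0 < σ) : 1 / mass σ * Real.sqrt (mass σ) ≤ σ ^ (-(3 / 4) : ℝ) := by
  have hm := mass_pos hσ
  have h1 : 1 / mass σ * Real.sqrt (mass σ) = 1 / Real.sqrt (mass σ) := by
    have hs : 0 < Real.sqrt (mass σ) := Real.sqrt_pos.mpr hm
    have h2 : mass σ = Real.sqrt (mass σ) * Real.sqrt (mass σ) := (Real.mul_self_sqrt hm.le).symm
    field_simp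
    nlinarith [Real.sq_sqrt hm.le]
  rw [h1, Real.rpow_neg hσ.le, ← one_div]
  apply one_div_le_one_div_of_le (by positivity)
  apply Real.le_sqrt_of_sq_le
  rw [← Real.rpow_natCast, ← Real.rpow_mul hσ.le]
  unfold mass
  norm_num
  apply Real.rpow_le_rpow hσ.le _ (by norm_num)
  nlinarith [Real.pi_gt_three]

lemma D_aux {σ m : ℝ} (hσ : 0 < σ) {D0 : ℝ} (hD0 : 0 ≤ D0) (hm : m = D0 * (1 / mass σ)) :
    m * Real.sqrt (mass σ) ≤ D0 * σ ^ (-(3 / 4) : ℝ) := by
  rw [hm, mul_assoc]
  exact mul_le_mul_of_nonneg_left (mass_sqrt hσ) hD0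

section final

variable {ι : Type} [Fintype ι] (b θ : ι → ℝ) (k : ι → X3)

lemma wnorm_nonneg (R : ℝ) : 0 ≤ wnorm R b θ k := Real.sqrt_nonneg _

lemma heat0 {R σ : ℝ} (hR : 0 < R) (hσ : 0 < σ) (hσR : σ ≤ 3 * R ^ 2) (x : X3) :
    |∑ i, b i * Real.exp (-(σ * sq (k i))) * Real.cos (dot (k i) x - θ i)| ≤
      768 * σ ^ (-(3 / 4) : ℝ) * (1 + sq x / R ^ 2) * wnorm R b θ k := by
  have hm := mass_pos hσ
  set K : X3 → ℝ := fun z => 1 / mass σ * gs σ z with hK
  have hKi : Integrable K := (integrable_gs hσ).const_mul _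
  have h1 := conv_eq b θ k K hKi x
  have h2 : ∀ i, (∫ z, K z * Real.cos (dot z (k i))) = Real.exp (-(σ * sq (k i))) := by
    intro i
    simp only [hK, mul_assoc]
    rw [integral_const_mul, gs_cos hσ]
    field_simp
  have h3 : ∀ i, (∫ z, K z * Real.sin (dot z (k i))) = 0 := by
    intro i
    simp only [hK, mul_assoc]
    rw [integral_const_mul, gs_sin hσ, mul_zero]
  simp only [h2, h3, mul_zero, add_zero] at h1
  have h4 : ∑ i, b i * Real.exp (-(σ * sq (k i))) * Real.cos (dot (k i) x - θ i) =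
      ∫ z, K z * trig b θ k (x - z) := by
    rw [h1]
    apply Finset.sum_congr rfl
    intro i _
    ring
  rw [h4]
  have h5 := conv_bound b θ k hR hσ hσR x K (D := 384 * (1 / mass σ)) (by positivity) (by
    intro z
    have h6 := gs_bound hσ z
    rw [exp_eq_gs] at h6
    have h0 := sq_nonneg' z
    have h7 : 0 ≤ sq z / σ := by positivity
    have h8 := (gs_pos σ z).le
    simp only [hK]
    rw [abs_mul, abs_of_nonneg h8, abs_of_pos (by positivity)]
    have h9 : (1 + 3 * (sq z / σ)) * gs σ z ≤ 384 * gs (2 * σ) z := by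
      refine le_trans ?_ h6
      apply mul_le_mul_of_nonneg_right _ h8
      nlinarith
    calc 1 / mass σ * gs σ z * (1 + 3 * (sq z / σ))
        = 1 / mass σ * ((1 + 3 * (sq z / σ)) * gs σ z) := by ring
      _ ≤ 1 / mass σ * (384 * gs (2 * σ) z) := mul_le_mul_of_nonneg_left h9 (by positivity)
      _ = _ := by ring)
  refine h5.trans ?_
  have h6 := D_aux hσ (D0 := 384) (by norm_num) rfl
  have hx := sq_nonneg' x
  have hw := wnorm_nonneg b θ k R
  calc 2 * (1 + sq x / R ^ 2) * (384 * (1 / mass σ)) * Real.sqrt (mass σ) * wnorm R b θ k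
      = 2 * (1 + sq x / R ^ 2) * wnorm R b θ k * ((384 * (1 / mass σ)) * Real.sqrt (mass σ)) := by
        ring
    _ ≤ 2 * (1 + sq x / R ^ 2) * wnorm R b θ k * (384 * σ ^ (-(3 / 4) : ℝ)) :=
        mul_le_mul_of_nonneg_left h6 (by positivity)
    _ = _ := by ring

lemma abs_le_sqrt_mul {σ : ℝ} (hσ : 0 < σ) (z : X3) (p : Fin 3) :
    |z p| ≤ Real.sqrt σ * (1 + sq z / σ) := by
  have hs : 0 < Real.sqrt σ := Real.sqrt_pos.mpr hσ
  have h1 : Real.sqrt σ ^ 2 = σ := Real.sq_sqrt hσ.le
  have h2 := abs_le_nrm z p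
  have h3 := nrm_nonneg z
  have h4 : Real.sqrt σ * (1 + sq z / σ) = Real.sqrt σ + nrm z ^ 2 / Real.sqrt σ := by
    rw [nrm_sq, mul_add, mul_one]
    congr 1
    nth_rewrite 2 [← h1]
    field_simp
  rw [h4]
  refine h2.trans ?_
  have h5 : nrm z ≤ Real.sqrt σ + nrm z ^ 2 / Real.sqrt σ := by
    rw [← sub_le_iff_le_add', le_div_iff₀ hs]
    nlinarith [_root_.sq_nonneg (nrm z - Real.sqrt σ)]
  exact h5

lemma heat1 {R σ : ℝ} (hR : 0 < R) (hσ : 0 < σ) (hσR : σ ≤ 3 * R ^ 2) (x : X3) (p : Fin 3) :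
    |∑ i, b i * Real.exp (-(σ * sq (k i))) * k i p * Real.sin (dot (k i) x - θ i)| ≤
      768 * σ ^ (-(5 / 4) : ℝ) * (1 + sq x / R ^ 2) * wnorm R b θ k := by
  have hm := mass_pos hσ
  have hs : 0 < Real.sqrt σ := Real.sqrt_pos.mpr hσ
  set K : X3 → ℝ := fun z => 1 / (2 * σ * mass σ) * ker1 σ p z with hK
  have hKi : Integrable K := (integrable_ker1 hσ p).const_mul _
  have h1 := conv_eq b θ k K hKi x
  have h2 : ∀ i, (∫ z, K z * Real.cos (dot z (k i))) = 0 := by
    intro i
    simp only [hK, mul_assoc]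
    rw [integral_const_mul, ker1_cos hσ, mul_zero]
  have h3 : ∀ i, (∫ z, K z * Real.sin (dot z (k i))) = k i p * Real.exp (-(σ * sq (k i))) := by
    intro i
    simp only [hK, mul_assoc]
    rw [integral_const_mul, ker1_sin hσ]
    field_simp
  simp only [h2, h3, mul_zero, zero_add] at h1
  have h4 : ∑ i, b i * Real.exp (-(σ * sq (k i))) * k i p * Real.sin (dot (k i) x - θ i) =
      ∫ z, K z * trig b θ k (x - z) := by
    rw [h1]
    apply Finset.sum_congr rfl
    intro i _
    ring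
  rw [h4]
  have h5 := conv_bound b θ k hR hσ hσR x K (D := 384 * (1 / Real.sqrt σ) * (1 / mass σ))
    (by positivity) (by
    intro z
    have h6 := gs_bound hσ z
    rw [exp_eq_gs] at h6
    have h0 := sq_nonneg' z
    have h7 : 0 ≤ sq z / σ := by positivity
    have h8 := (gs_pos σ z).le
    have h9 := abs_le_sqrt_mul hσ z p
    simp only [hK]
    unfold ker1
    rw [abs_mul, abs_mul, abs_of_nonneg h8, abs_of_pos (by positivity)]
    have h10 : 1 / (2 * σ * mass σ) ≤ 1 / Real.sqrt σ / Real.sqrt σ * (1 / mass σ) := by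
      have e : 1 / Real.sqrt σ / Real.sqrt σ = 1 / σ := by
        rw [div_div, Real.mul_self_sqrt hσ.le]
      rw [e, ← one_div_mul_one_div]
      apply mul_le_mul_of_nonneg_right _ (by positivity)
      apply one_div_le_one_div_of_le hσ
      linarith
    calc 1 / (2 * σ * mass σ) * (|z p| * gs σ z) * (1 + 3 * (sq z / σ))
        ≤ (1 / Real.sqrt σ / Real.sqrt σ * (1 / mass σ)) *
          (Real.sqrt σ * (1 + sq z / σ) * gs σ z) * (1 + 3 * (sq z / σ)) := by
          gcongr
      _ = 1 / Real.sqrt σ * (1 / mass σ) *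
          ((1 + sq z / σ) * (1 + 3 * (sq z / σ)) * gs σ z) := by
          field_simp
      _ ≤ 1 / Real.sqrt σ * (1 / mass σ) * (384 * gs (2 * σ) z) :=
          mul_le_mul_of_nonneg_left h6 (by positivity)
      _ = _ := by ring)
  refine h5.trans ?_
  have h6 := D_aux hσ (D0 := 384 * (1 / Real.sqrt σ)) (by positivity) rfl
  have hx := sq_nonneg' x
  have hw := wnorm_nonneg b θ k R
  have h7 : 1 / Real.sqrt σ * σ ^ (-(3 / 4) : ℝ) = σ ^ (-(5 / 4) : ℝ) := by
    rw [one_div, Real.sqrt_eq_rpow, ← Real.rpow_neg hσ.le, ← Real.rpow_add hσ]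
    norm_num
  calc 2 * (1 + sq x / R ^ 2) * (384 * (1 / Real.sqrt σ) * (1 / mass σ)) * Real.sqrt (mass σ) *
        wnorm R b θ k
      = 2 * (1 + sq x / R ^ 2) * wnorm R b θ k *
        ((384 * (1 / Real.sqrt σ) * (1 / mass σ)) * Real.sqrt (mass σ)) := by
        ring
    _ ≤ 2 * (1 + sq x / R ^ 2) * wnorm R b θ k * (384 * (1 / Real.sqrt σ) * σ ^ (-(3 / 4) : ℝ)) :=
        mul_le_mul_of_nonneg_left h6 (by positivity)
    _ = 2 * (1 + sq x / R ^ 2) * wnorm R b θ k * 384 * (1 / Real.sqrt σ * σ ^ (-(3 / 4) : ℝ)) := by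
        ring
    _ = _ := by
        rw [h7]
        ring

lemma heat2 {R σ : ℝ} (hR : 0 < R) (hσ : 0 < σ) (hσR : σ ≤ 3 * R ^ 2) (x : X3) (p q : Fin 3) :
    |∑ i, b i * Real.exp (-(σ * sq (k i))) * (k i p * k i q) * Real.cos (dot (k i) x - θ i)| ≤
      768 * σ ^ (-(7 / 4) : ℝ) * (1 + sq x / R ^ 2) * wnorm R b θ k := by
  have hm := mass_pos hσ
  set δ : ℝ := (Pi.single q 1 : X3) p with hδ
  have hδ1 : |δ| ≤ 1 := by
    rw [hδ]
    rcases eq_or_ne p q with h | h
    · rw [h]
      simp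
    · rw [Pi.single_eq_of_ne h]
      simp
  set K : X3 → ℝ := fun z => δ / (2 * σ * mass σ) * gs σ z -
    1 / (4 * σ ^ 2 * mass σ) * ker2 σ p q z with hK
  have hKi : Integrable K := ((integrable_gs hσ).const_mul _).sub ((integrable_ker2 hσ p q).const_mul _)
  have h1 := conv_eq b θ k K hKi x
  have bd : ∀ (f : X3 → ℝ), Integrable f → ∀ i, Integrable fun z => f z * Real.cos (dot z (k i)) := by
    intro f hf i
    have := measurable_dot (k i)
    refine hf.mul_bdd (c := 1) (Continuous.aestronglyMeasurable (by fun_prop))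
      (Filter.Eventually.of_forall fun k => ?_)
    rw [Real.norm_eq_abs]
    exact Real.abs_cos_le_one _
  have bd' : ∀ (f : X3 → ℝ), Integrable f → ∀ i, Integrable fun z => f z * Real.sin (dot z (k i)) := by
    intro f hf i
    have := measurable_dot (k i)
    refine hf.mul_bdd (c := 1) (Continuous.aestronglyMeasurable (by fun_prop))
      (Filter.Eventually.of_forall fun k => ?_)
    rw [Real.norm_eq_abs]
    exact Real.abs_sin_le_one _
  have h2 : ∀ i, (∫ z, K z * Real.cos (dot z (k i))) =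
      k i p * k i q * Real.exp (-(σ * sq (k i))) := by
    intro i
    simp only [hK, sub_mul, mul_assoc]
    rw [integral_sub ((bd _ (integrable_gs hσ) i).const_mul _)
      ((bd _ (integrable_ker2 hσ p q) i).const_mul _), integral_const_mul, integral_const_mul,
      ker2_cos hσ, gs_cos hσ, ← hδ]
    field_simp
    ring
  have h3 : ∀ i, (∫ z, K z * Real.sin (dot z (k i))) = 0 := by
    intro i
    simp only [hK, sub_mul, mul_assoc]
    rw [integral_sub ((bd' _ (integrable_gs hσ) i).const_mul _)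
      ((bd' _ (integrable_ker2 hσ p q) i).const_mul _), integral_const_mul, integral_const_mul,
      ker2_sin hσ, gs_sin hσ]
    ring
  simp only [h2, h3, mul_zero, add_zero] at h1
  have h4 : ∑ i, b i * Real.exp (-(σ * sq (k i))) * (k i p * k i q) *
      Real.cos (dot (k i) x - θ i) = ∫ z, K z * trig b θ k (x - z) := by
    rw [h1]
    apply Finset.sum_congr rfl
    intro i _
    ring
  rw [h4]
  have h5 := conv_bound b θ k hR hσ hσR x K (D := 384 * (1 / σ) * (1 / mass σ))
    (by positivity) (by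
    intro z
    have h6 := gs_bound hσ z
    rw [exp_eq_gs] at h6
    have h0 := sq_nonneg' z
    have h7 : 0 ≤ sq z / σ := by positivity
    have h8 := (gs_pos σ z).le
    have h9 : |K z| ≤ 1 / σ * (1 / mass σ) * ((1 + sq z / σ) * gs σ z) := by
      simp only [hK]
      unfold ker2 ker1
      refine (abs_sub _ _).trans ?_
      have e1 : |δ / (2 * σ * mass σ) * gs σ z| ≤ 1 / σ * (1 / mass σ) * gs σ z := by
        rw [abs_mul, abs_of_nonneg h8, abs_div, abs_of_pos (show 0 < 2 * σ * mass σ by positivity)]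
        apply mul_le_mul_of_nonneg_right _ h8
        rw [one_div_mul_one_div, div_le_div_iff₀ (by positivity) (by positivity)]
        have : 0 < σ * mass σ := by positivity
        nlinarith
      have e2 : |1 / (4 * σ ^ 2 * mass σ) * (z q * (z p * gs σ z))| ≤
          1 / σ * (1 / mass σ) * (sq z / σ * gs σ z) := by
        have e3 : |z q * (z p * gs σ z)| ≤ sq z * gs σ z := by
          rw [← mul_assoc, abs_mul, abs_of_nonneg h8]
          exact mul_le_mul_of_nonneg_right (abs_mul_le_sq z q p) h8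
        rw [abs_mul, abs_of_pos (show 0 < 1 / (4 * σ ^ 2 * mass σ) by positivity)]
        calc 1 / (4 * σ ^ 2 * mass σ) * |z q * (z p * gs σ z)|
            ≤ 1 / (1 * σ ^ 2 * mass σ) * (sq z * gs σ z) := by
              gcongr
              norm_num
          _ = _ := by
              field_simp
      calc _ ≤ 1 / σ * (1 / mass σ) * gs σ z + 1 / σ * (1 / mass σ) * (sq z / σ * gs σ z) :=
            add_le_add e1 e2
        _ = _ := by ring
    calc |K z| * (1 + 3 * (sq z / σ))
        ≤ 1 / σ * (1 / mass σ) * ((1 + sq z / σ) * gs σ z) * (1 + 3 * (sq z / σ)) :=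
          mul_le_mul_of_nonneg_right h9 (by positivity)
      _ = 1 / σ * (1 / mass σ) * ((1 + sq z / σ) * (1 + 3 * (sq z / σ)) * gs σ z) := by ring
      _ ≤ 1 / σ * (1 / mass σ) * (384 * gs (2 * σ) z) :=
          mul_le_mul_of_nonneg_left h6 (by positivity)
      _ = _ := by ring)
  refine h5.trans ?_
  have h6 := D_aux hσ (D0 := 384 * (1 / σ)) (by positivity) rfl
  have hx := sq_nonneg' x
  have hw := wnorm_nonneg b θ k R
  have h7 : 1 / σ * σ ^ (-(3 / 4) : ℝ) = σ ^ (-(7 / 4) : ℝ) := by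
    rw [one_div, ← Real.rpow_neg_one, ← Real.rpow_add hσ]
    norm_num
  calc 2 * (1 + sq x / R ^ 2) * (384 * (1 / σ) * (1 / mass σ)) * Real.sqrt (mass σ) *
        wnorm R b θ k
      = 2 * (1 + sq x / R ^ 2) * wnorm R b θ k *
        ((384 * (1 / σ) * (1 / mass σ)) * Real.sqrt (mass σ)) := by
        ring
    _ ≤ 2 * (1 + sq x / R ^ 2) * wnorm R b θ k * (384 * (1 / σ) * σ ^ (-(3 / 4) : ℝ)) :=
        mul_le_mul_of_nonneg_left h6 (by positivity)
    _ = 2 * (1 + sq x / R ^ 2) * wnorm R b θ k * 384 * (1 / σ * σ ^ (-(3 / 4) : ℝ)) := by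
        ring
    _ = _ := by
        rw [h7]
        ring

end final

end Pool.Agent.Helper49_Pauli.TF

namespace Pool.Agent.Helper49_Pauli

open TF in
/-- Module HEAT. -/
theorem heat : HeatStatement := by
  refine ⟨768, by norm_num, ?_⟩
  intro ι _ b θ k R σ x hR hσ hσR W hW
  have hW' : W = wnorm R b θ k := by
    rw [hW]
    unfold wnorm wgt trig
    simp only [mul_pow]
  rw [hW']
  exact ⟨heat0 b θ k hR hσ hσR x, fun p => heat1 b θ k hR hσ hσR x p,
    fun p q => heat2 b θ k hR hσ hσR x p q⟩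

end Pool.Agent.Helper49_Pauli
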