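import Pool.Agent.Helper49_Pauli.Interface2
import Pool.Agent.Helper41_Pauli.Heat

/-!
# Module KERN
-/

open MeasureTheory Set

namespace Pool.Agent.Helper49_Pauli.TF

lemma vt_eq {t w : ℝ} (hw : 0 < w) : vt t w = ∫ s in (0 : ℝ)..t, Real.exp (-(s * w)) := by
  have h : ∀ s ∈ uIcc 0 t, HasDerivAt (fun s => -(Real.exp (-(s * w)) / w)) (Real.exp (-(s * w))) s := by
    intro s _
    have h1 : HasDerivAt (fun s : ℝ => -(s * w)) (-(1 * w)) s := ((hasDerivAt_id s).mul_const w).neg
    have h2 : HasDerivAt (fun s => -(Real.exp (-(s * w)) / w)) (-(Real.exp (-(s * w)) * -(1 * w) / w)) s :=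
      (h1.exp.div_const w).neg
    refine h2.congr_deriv ?_
    field_simp
  rw [intervalIntegral.integral_eq_sub_of_hasDerivAt h
    (Continuous.intervalIntegrable (by fun_prop) _ _)]
  unfold vt
  simp
  ring

section time

variable {ι : Type} [Fintype ι] (a w : ι → ℝ)

lemma time_eq (hw : ∀ i, 0 < w i) (t τ : ℝ) :
    ∑ i, a i * Real.exp (-(τ * w i)) * vt t (w i) =
      ∫ s in (0 : ℝ)..t, ∑ i, a i * Real.exp (-((τ + s) * w i)) := by
  rw [intervalIntegral.integral_finsetSum]
  · apply Finset.sum_congr rfl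
    intro i _
    rw [vt_eq (hw i), ← intervalIntegral.integral_const_mul]
    apply intervalIntegral.integral_congr
    intro s _
    simp only
    rw [mul_assoc, ← Real.exp_add]
    congr 2
    ring
  · intro i _
    exact Continuous.intervalIntegrable (by fun_prop) _ _

lemma rpow_int {r : ℝ} (hr : r ≠ -1) {t τ : ℝ} (hτ : 0 < τ) (ht : 0 ≤ t) :
    IntervalIntegrable (fun s => (τ + s) ^ r) volume 0 t ∧
    ∫ s in (0 : ℝ)..t, (τ + s) ^ r = ((τ + t) ^ (r + 1) - τ ^ (r + 1)) / (r + 1) := by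
  constructor
  · apply ContinuousOn.intervalIntegrable
    intro s hs
    rw [uIcc_of_le ht] at hs
    apply ContinuousAt.continuousWithinAt
    have : τ + s ≠ 0 := by linarith [hs.1]
    exact ContinuousAt.rpow_const (by fun_prop) (Or.inl this)
  · rw [intervalIntegral.integral_comp_add_left (fun x => x ^ r) τ, add_zero,
      integral_rpow (Or.inr ⟨hr, ?_⟩)]
    rw [uIcc_of_le (by linarith)]
    intro h
    linarith [h.1]

lemma time_bound (hw : ∀ i, 0 < w i) {t τ r K : ℝ} (hr : r ≠ -1) (hτ : 0 < τ) (ht : 0 ≤ t)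
    (hK : ∀ s, 0 ≤ s → s ≤ t → |∑ i, a i * Real.exp (-((τ + s) * w i))| ≤ K * (τ + s) ^ r) :
    |∑ i, a i * Real.exp (-(τ * w i)) * vt t (w i)| ≤
      K * (((τ + t) ^ (r + 1) - τ ^ (r + 1)) / (r + 1)) := by
  rw [time_eq a w hw]
  have h1 := rpow_int hr hτ ht
  rw [← h1.2, ← intervalIntegral.integral_const_mul, ← Real.norm_eq_abs]
  apply intervalIntegral.norm_integral_le_of_norm_le ht
  · refine Filter.Eventually.of_forall fun s hs => ?_
    exact hK s hs.1.le hs.2
  · exact h1.1.const_mul K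

end time

section kern

variable {ι : Type} [Fintype ι] (k c : ι → X3) (θ Q : ι → ℝ)

lemma W_eq {R : ℝ} (hR : 0 < R) :
    ∫ y : X3, ((1 + sq y / R ^ 2)⁻¹) ^ 2 * sq (fA k c θ Q y) =
      ∑ n, wnorm R (fun i => Q i * c i n) θ k ^ 2 := by
  have h1 : ∀ n, wnorm R (fun i => Q i * c i n) θ k ^ 2 =
      ∫ y : X3, (wgt R y * |trig (fun i => Q i * c i n) θ k y|) ^ 2 := by
    intro n
    unfold wnorm
    rw [Real.sq_sqrt (integral_nonneg fun y => sq_nonneg _)]
    congr 1
    funext y
    rw [mul_pow, mul_pow, sq_abs]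
  rw [Finset.sum_congr rfl (fun n _ => h1 n), ← integral_finsetSum]
  · congr 1
    funext y
    unfold sq
    rw [Finset.mul_sum]
    apply Finset.sum_congr rfl
    intro n _
    rw [mul_pow, sq_abs]
    unfold wgt trig fA ph sq
    congr 2
    apply Finset.sum_congr rfl
    intro i _
    ring
  · intro n _
    exact integrable_wt_sq _ θ k hR

lemma sq_le_of_abs {x A B : ℝ} (h : |x| ≤ A * B) : x ^ 2 ≤ A ^ 2 * B ^ 2 := by
  rw [← mul_pow, ← sq_abs]
  exact pow_le_pow_left₀ (abs_nonneg _) h 2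

lemma rpow_half_sq {x r : ℝ} (hx : 0 < x) : (x ^ r) ^ 2 = x ^ (2 * r) := by
  rw [← Real.rpow_natCast, ← Real.rpow_mul hx.le]
  congr 1
  push_cast
  ring

/-- Bound for a component of `fB`. -/
lemma fB_aux {R σ t : ℝ} (hR : 0 < R) (hσ : 0 < σ) (ht : 0 ≤ t) (hs : σ + t ≤ 3 * R ^ 2)
    (hk : ∀ i, 0 < sq (k i)) (b : ι → ℝ) (x : X3) (p : Fin 3) :
    |∑ i, b i * Real.exp (-(σ * sq (k i))) * vt t (sq (k i)) * k i p * Real.sin (ph k θ x i)| ≤
      768 * (1 + sq x / R ^ 2) * wnorm R b θ k * (4 * σ ^ (-(1 / 4) : ℝ)) := by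
  have hx := sq_nonneg' x
  have hw := wnorm_nonneg b θ k R
  have h1 := time_bound (fun i => b i * k i p * Real.sin (ph k θ x i)) (fun i => sq (k i)) hk
    (t := t) (τ := σ) (r := -(5 / 4)) (K := 768 * (1 + sq x / R ^ 2) * wnorm R b θ k)
    (by norm_num) hσ ht (by
      intro s hs0 hst
      have h2 := heat1 b θ k hR (show 0 < σ + s by linarith) (by linarith) x p
      have e1 : ∑ i, b i * k i p * Real.sin (ph k θ x i) * Real.exp (-((σ + s) * sq (k i))) =
          ∑ i, b i * Real.exp (-((σ + s) * sq (k i))) * k i p * Real.sin (dot (k i) x - θ i) := by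
        apply Finset.sum_congr rfl
        intro i _
        unfold ph
        ring
      rw [e1]
      refine h2.trans (le_of_eq ?_)
      ring)
  have e1 : ∑ i, b i * Real.exp (-(σ * sq (k i))) * vt t (sq (k i)) * k i p *
      Real.sin (ph k θ x i) = ∑ i, b i * k i p * Real.sin (ph k θ x i) *
        Real.exp (-(σ * sq (k i))) * vt t (sq (k i)) := by
    apply Finset.sum_congr rfl
    intro i _
    ring
  rw [e1]
  refine h1.trans ?_
  apply mul_le_mul_of_nonneg_left _ (by positivity)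
  have h3 : 0 ≤ (σ + t) ^ (-(5 / 4) + 1 : ℝ) := by positivity
  have h4 : (-(5 / 4) + 1 : ℝ) = -(1 / 4) := by norm_num
  rw [h4] at h3 ⊢
  rw [div_le_iff_of_neg (by norm_num)]
  linarith

/-- Bound for a component of `fD`. -/
lemma fD_aux {R σ t : ℝ} (hR : 0 < R) (hσ : 0 < σ) (ht : 0 ≤ t) (hs : σ + 2 * t ≤ 3 * R ^ 2)
    (hk : ∀ i, 0 < sq (k i)) (b : ι → ℝ) (x : X3) (p q : Fin 3) :
    |∑ i, b i * Real.exp (-(σ * sq (k i))) * vt t (sq (k i)) ^ 2 * (k i p * k i q) *
        Real.cos (ph k θ x i)| ≤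
      768 * (1 + sq x / R ^ 2) * wnorm R b θ k * (16 / 3 * (σ + t) ^ (1 / 4 : ℝ)) := by
  have hx := sq_nonneg' x
  have hw := wnorm_nonneg b θ k R
  have h0 : ∀ u, 0 ≤ u → u ≤ t → |∑ i, (b i * (k i p * k i q) * Real.cos (ph k θ x i)) *
      Real.exp (-((σ + u) * sq (k i))) * vt t (sq (k i))| ≤
      (768 * (1 + sq x / R ^ 2) * wnorm R b θ k * (4 / 3)) * (σ + u) ^ (-(3 / 4) : ℝ) := by
    intro u hu0 hut
    have h1 := time_bound (fun i => b i * (k i p * k i q) * Real.cos (ph k θ x i))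
      (fun i => sq (k i)) hk
      (t := t) (τ := σ + u) (r := -(7 / 4)) (K := 768 * (1 + sq x / R ^ 2) * wnorm R b θ k)
      (by norm_num) (by linarith) ht (by
        intro s hs0 hst
        have h2 := heat2 b θ k hR (show 0 < σ + u + s by linarith) (by linarith) x p q
        have e1 : ∑ i, b i * (k i p * k i q) * Real.cos (ph k θ x i) *
            Real.exp (-((σ + u + s) * sq (k i))) =
            ∑ i, b i * Real.exp (-((σ + u + s) * sq (k i))) * (k i p * k i q) *
              Real.cos (dot (k i) x - θ i) := by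
          apply Finset.sum_congr rfl
          intro i _
          unfold ph
          ring
        rw [e1]
        refine h2.trans (le_of_eq ?_)
        ring)
    refine h1.trans ?_
    rw [mul_assoc (768 * (1 + sq x / R ^ 2) * wnorm R b θ k) (4 / 3)]
    apply mul_le_mul_of_nonneg_left _ (by positivity)
    have h3 : 0 ≤ (σ + u + t) ^ (-(7 / 4) + 1 : ℝ) := by
      have : 0 < σ + u + t := by linarith
      positivity
    have h4 : (-(7 / 4) + 1 : ℝ) = -(3 / 4) := by norm_num
    rw [h4] at h3 ⊢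
    rw [div_le_iff_of_neg (by norm_num)]
    linarith
  have h1 := time_bound (fun i => b i * (k i p * k i q) * Real.cos (ph k θ x i) *
    vt t (sq (k i))) (fun i => sq (k i)) hk
    (t := t) (τ := σ) (r := -(3 / 4)) (K := 768 * (1 + sq x / R ^ 2) * wnorm R b θ k * (4 / 3))
    (by norm_num) hσ ht (by
      intro u hu0 hut
      have e1 : ∑ i, b i * (k i p * k i q) * Real.cos (ph k θ x i) * vt t (sq (k i)) *
          Real.exp (-((σ + u) * sq (k i))) = ∑ i, (b i * (k i p * k i q) *
          Real.cos (ph k θ x i)) * Real.exp (-((σ + u) * sq (k i))) * vt t (sq (k i)) := by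
        apply Finset.sum_congr rfl
        intro i _
        ring
      rw [e1]
      exact h0 u hu0 hut)
  have e1 : ∑ i, b i * Real.exp (-(σ * sq (k i))) * vt t (sq (k i)) ^ 2 * (k i p * k i q) *
        Real.cos (ph k θ x i) = ∑ i, b i * (k i p * k i q) * Real.cos (ph k θ x i) *
        vt t (sq (k i)) * Real.exp (-(σ * sq (k i))) * vt t (sq (k i)) := by
    apply Finset.sum_congr rfl
    intro i _
    ring
  rw [e1]
  refine h1.trans ?_
  rw [mul_assoc (768 * (1 + sq x / R ^ 2) * wnorm R b θ k) (4 / 3)]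
  apply mul_le_mul_of_nonneg_left _ (by positivity)
  have h3 : 0 ≤ σ ^ (-(3 / 4) + 1 : ℝ) := by positivity
  have h4 : (-(3 / 4) + 1 : ℝ) = 1 / 4 := by norm_num
  rw [h4] at h3 ⊢
  rw [mul_div_assoc', div_le_iff₀ (by norm_num)]
  linarith

end kern

end Pool.Agent.Helper49_Pauli.TF

namespace Pool.Agent.Helper49_Pauli

open TF in
/-- Module KERN. -/
theorem kern : KernStatement := by
  refine ⟨(768 * 100) ^ 2, by norm_num, ?_⟩
  intro ι _ k c θ Q R τ t W Wl x hR hτ hτt htR hk hW hWl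
  have ht : 0 < t := by linarith
  have hx := sq_nonneg' x
  set A : ℝ := 1 + sq x / R ^ 2 with hA
  have hA0 : 0 < A := by positivity
  -- weighted norms
  set b : Fin 3 → ι → ℝ := fun n i => Q i * Real.exp (τ * sq (k i)) * c i n with hb
  set bl : Fin 3 → ι → ℝ := fun n i => Q i * Real.exp (-(t / 2 * sq (k i))) * c i n with hbl
  rw [W_eq k c θ _ hR] at hW hWl
  have hw : ∀ n, 0 ≤ wnorm R (b n) θ k := fun n => wnorm_nonneg _ _ _ _
  have hwl : ∀ n, 0 ≤ wnorm R (bl n) θ k := fun n => wnorm_nonneg _ _ _ _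
  have hW0 : 0 ≤ W := by
    rw [hW]
    exact Finset.sum_nonneg fun n _ => sq_nonneg _
  have hWl0 : 0 ≤ Wl := by
    rw [hWl]
    exact Finset.sum_nonneg fun n _ => sq_nonneg _
  -- general summation
  have hsum : ∀ (f : Fin 3 → ℝ) (K : ℝ) (u : Fin 3 → ℝ), (∀ n, |f n| ≤ K * u n) →
      ∑ n, f n ^ 2 ≤ K ^ 2 * ∑ n, u n ^ 2 := by
    intro f K u h
    rw [Finset.mul_sum]
    exact Finset.sum_le_sum fun n _ => sq_le_of_abs (h n)
  refine ⟨?_, ?_, ?_, ?_, ?_⟩
  · -- sA
    have h1 : ∀ n, |fA k c θ Q x n| ≤ 768 * A * τ ^ (-(3 / 4) : ℝ) * wnorm R (b n) θ k := by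
      intro n
      have h2 := heat0 (b n) θ k hR hτ (by nlinarith) x
      have e1 : fA k c θ Q x n = ∑ i, b n i * Real.exp (-(τ * sq (k i))) *
          Real.cos (dot (k i) x - θ i) := by
        unfold fA ph
        apply Finset.sum_congr rfl
        intro i _
        simp only [hb]
        have : Real.exp (τ * sq (k i)) * Real.exp (-(τ * sq (k i))) = 1 := by
          rw [← Real.exp_add]
          simp
        linear_combination (-(Q i * Real.cos (dot (k i) x - θ i) * c i n)) * this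
      rw [e1]
      refine h2.trans (le_of_eq ?_)
      ring
    have h3 := hsum _ _ _ h1
    rw [← hW] at h3
    unfold sA
    refine h3.trans ?_
    rw [mul_pow, mul_pow, rpow_half_sq hτ]
    have e : (2 * -(3 / 4) : ℝ) = -(3 / 2) := by norm_num
    rw [e]
    have h4 : 0 ≤ τ ^ (-(3 / 2) : ℝ) * A ^ 2 * W := by positivity
    nlinarith
  · -- sB
    have h1 : ∀ p n, |fB k c θ t Q x p n| ≤
        768 * A * (4 * τ ^ (-(1 / 4) : ℝ)) * wnorm R (b n) θ k := by
      intro p n
      have h2 := fB_aux k θ hR hτ ht.le (by nlinarith) hk (b n) x p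
      have e1 : fB k c θ t Q x p n = ∑ i, b n i * Real.exp (-(τ * sq (k i))) * vt t (sq (k i)) *
          k i p * Real.sin (ph k θ x i) := by
        unfold fB
        apply Finset.sum_congr rfl
        intro i _
        simp only [hb]
        have : Real.exp (τ * sq (k i)) * Real.exp (-(τ * sq (k i))) = 1 := by
          rw [← Real.exp_add]
          simp
        linear_combination (-(Q i * vt t (sq (k i)) * k i p * Real.sin (ph k θ x i) * c i n)) * this
      rw [e1]
      refine h2.trans (le_of_eq ?_)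
      ring
    unfold sB
    have h3 : ∀ p, ∑ n, fB k c θ t Q x p n ^ 2 ≤ (768 * A * (4 * τ ^ (-(1 / 4) : ℝ))) ^ 2 * W := by
      intro p
      have h4 := hsum _ _ _ (h1 p)
      rw [← hW] at h4
      exact h4
    rw [Fin.sum_univ_three]
    have h4 : (768 * A * (4 * τ ^ (-(1 / 4) : ℝ))) ^ 2 * W =
        (768 * 4) ^ 2 * (τ ^ (-(1 / 2) : ℝ) * A ^ 2 * W) := by
      rw [mul_pow, mul_pow, mul_pow 4, rpow_half_sq hτ]
      have e : (2 * -(1 / 4) : ℝ) = -(1 / 2) := by norm_num
      rw [e]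
      ring
    have h5 : 0 ≤ τ ^ (-(1 / 2) : ℝ) * A ^ 2 * W := by positivity
    have h6 := h3 0
    have h7 := h3 1
    have h8 := h3 2
    rw [h4] at h6 h7 h8
    nlinarith
  · -- sD
    have h1 : ∀ p q n, |fD k c θ t Q x p q n| ≤
        768 * A * (16 / 3 * (2 * t ^ (1 / 4 : ℝ))) * wnorm R (b n) θ k := by
      intro p q n
      have h2 := fD_aux k θ hR hτ ht.le (by nlinarith) hk (b n) x p q
      have e1 : fD k c θ t Q x p q n = ∑ i, b n i * Real.exp (-(τ * sq (k i))) *
          vt t (sq (k i)) ^ 2 * (k i p * k i q) * Real.cos (ph k θ x i) := by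
        unfold fD
        apply Finset.sum_congr rfl
        intro i _
        simp only [hb]
        have : Real.exp (τ * sq (k i)) * Real.exp (-(τ * sq (k i))) = 1 := by
          rw [← Real.exp_add]
          simp
        linear_combination (-(Q i * vt t (sq (k i)) ^ 2 * (k i p * k i q) *
          Real.cos (ph k θ x i) * c i n)) * this
      rw [e1]
      refine h2.trans ?_
      have h3 : (τ + t) ^ (1 / 4 : ℝ) ≤ 2 * t ^ (1 / 4 : ℝ) := by
        calc (τ + t) ^ (1 / 4 : ℝ) ≤ (2 * t) ^ (1 / 4 : ℝ) :=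
              Real.rpow_le_rpow (by linarith) (by linarith) (by norm_num)
          _ = 2 ^ (1 / 4 : ℝ) * t ^ (1 / 4 : ℝ) := Real.mul_rpow (by norm_num) ht.le
          _ ≤ 2 ^ (1 : ℝ) * t ^ (1 / 4 : ℝ) := by
              apply mul_le_mul_of_nonneg_right _ (by positivity)
              exact Real.rpow_le_rpow_of_exponent_le (by norm_num) (by norm_num)
          _ = _ := by rw [Real.rpow_one]
      have h4 := hw n
      calc 768 * A * wnorm R (b n) θ k * (16 / 3 * (τ + t) ^ (1 / 4 : ℝ))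
          ≤ 768 * A * wnorm R (b n) θ k * (16 / 3 * (2 * t ^ (1 / 4 : ℝ))) := by
            gcongr
        _ = _ := by ring
    unfold sD
    have h3 : ∀ p q, ∑ n, fD k c θ t Q x p q n ^ 2 ≤
        (768 * (32 / 3)) ^ 2 * (t ^ (1 / 2 : ℝ) * A ^ 2 * W) := by
      intro p q
      have h4 := hsum _ _ _ (h1 p q)
      rw [← hW] at h4
      refine h4.trans (le_of_eq ?_)
      rw [mul_pow, mul_pow, mul_pow (16 / 3 : ℝ), mul_pow (2 : ℝ), rpow_half_sq ht]
      have e : (2 * (1 / 4) : ℝ) = 1 / 2 := by norm_num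
      rw [e]
      ring
    have h5 : 0 ≤ t ^ (1 / 2 : ℝ) * A ^ 2 * W := by positivity
    calc ∑ p, ∑ q, ∑ n, fD k c θ t Q x p q n ^ 2
        ≤ ∑ p : Fin 3, ∑ q : Fin 3, (768 * (32 / 3)) ^ 2 * (t ^ (1 / 2 : ℝ) * A ^ 2 * W) :=
          Finset.sum_le_sum fun p _ => Finset.sum_le_sum fun q _ => h3 p q
      _ = 9 * ((768 * (32 / 3)) ^ 2 * (t ^ (1 / 2 : ℝ) * A ^ 2 * W)) := by
          simp
          ring
      _ ≤ _ := by nlinarith
  · -- sAl
    have h1 : ∀ n, |fAl k c θ t Q x n| ≤
        768 * A * (2 * t ^ (-(3 / 4) : ℝ)) * wnorm R (bl n) θ k := by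
      intro n
      have h2 := heat0 (bl n) θ k hR (show 0 < t / 2 by linarith) (by nlinarith) x
      have e1 : fAl k c θ t Q x n = ∑ i, bl n i * Real.exp (-(t / 2 * sq (k i))) *
          Real.cos (dot (k i) x - θ i) := by
        unfold fAl ph
        apply Finset.sum_congr rfl
        intro i _
        simp only [hbl]
        have : Real.exp (-(t / 2 * sq (k i))) * Real.exp (-(t / 2 * sq (k i))) =
            Real.exp (-(t * sq (k i))) := by
          rw [← Real.exp_add]
          congr 1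
          ring
        linear_combination (-(Q i * Real.cos (dot (k i) x - θ i) * c i n)) * this
      rw [e1]
      refine h2.trans ?_
      have h3 : (t / 2) ^ (-(3 / 4) : ℝ) ≤ 2 * t ^ (-(3 / 4) : ℝ) := by
        rw [Real.div_rpow ht.le (by norm_num), div_eq_mul_inv, ← Real.rpow_neg (by norm_num),
          neg_neg, mul_comm]
        apply mul_le_mul_of_nonneg_right _ (by positivity)
        calc (2 : ℝ) ^ (3 / 4 : ℝ) ≤ 2 ^ (1 : ℝ) :=
              Real.rpow_le_rpow_of_exponent_le (by norm_num) (by norm_num)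
          _ = 2 := Real.rpow_one 2
      have h4 := hwl n
      calc 768 * (t / 2) ^ (-(3 / 4) : ℝ) * (1 + sq x / R ^ 2) * wnorm R (bl n) θ k
          ≤ 768 * (2 * t ^ (-(3 / 4) : ℝ)) * (1 + sq x / R ^ 2) * wnorm R (bl n) θ k := by
            gcongr
        _ = _ := by ring
    have h3 := hsum _ _ _ h1
    rw [← hWl] at h3
    unfold sAl
    refine h3.trans ?_
    rw [mul_pow, mul_pow, mul_pow (2 : ℝ), rpow_half_sq ht]
    have e : (2 * -(3 / 4) : ℝ) = -(3 / 2) := by norm_num
    rw [e]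
    have h4 : 0 ≤ t ^ (-(3 / 2) : ℝ) * A ^ 2 * Wl := by positivity
    nlinarith
  · -- sBl
    have h1 : ∀ p n, |fBl k c θ t Q x p n| ≤
        768 * A * (4 * (2 * t ^ (-(1 / 4) : ℝ))) * wnorm R (bl n) θ k := by
      intro p n
      have h2 := fB_aux k θ hR (show 0 < t / 2 by linarith) ht.le (by nlinarith) hk (bl n) x p
      have e1 : fBl k c θ t Q x p n = ∑ i, bl n i * Real.exp (-(t / 2 * sq (k i))) *
          vt t (sq (k i)) * k i p * Real.sin (ph k θ x i) := by
        unfold fBl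
        apply Finset.sum_congr rfl
        intro i _
        simp only [hbl]
        have : Real.exp (-(t / 2 * sq (k i))) * Real.exp (-(t / 2 * sq (k i))) =
            Real.exp (-(t * sq (k i))) := by
          rw [← Real.exp_add]
          congr 1
          ring
        linear_combination (-(Q i * vt t (sq (k i)) * k i p * Real.sin (ph k θ x i) * c i n)) * this
      rw [e1]
      refine h2.trans ?_
      have h3 : (t / 2) ^ (-(1 / 4) : ℝ) ≤ 2 * t ^ (-(1 / 4) : ℝ) := by
        rw [Real.div_rpow ht.le (by norm_num), div_eq_mul_inv, ← Real.rpow_neg (by norm_num),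
          neg_neg, mul_comm]
        apply mul_le_mul_of_nonneg_right _ (by positivity)
        calc (2 : ℝ) ^ (1 / 4 : ℝ) ≤ 2 ^ (1 : ℝ) :=
              Real.rpow_le_rpow_of_exponent_le (by norm_num) (by norm_num)
          _ = 2 := Real.rpow_one 2
      have h4 := hwl n
      calc 768 * (1 + sq x / R ^ 2) * wnorm R (bl n) θ k * (4 * (t / 2) ^ (-(1 / 4) : ℝ))
          ≤ 768 * (1 + sq x / R ^ 2) * wnorm R (bl n) θ k * (4 * (2 * t ^ (-(1 / 4) : ℝ))) := by
            gcongr
        _ = _ := by ring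
    unfold sBl
    have h3 : ∀ p, ∑ n, fBl k c θ t Q x p n ^ 2 ≤
        (768 * 8) ^ 2 * (t ^ (-(1 / 2) : ℝ) * A ^ 2 * Wl) := by
      intro p
      have h4 := hsum _ _ _ (h1 p)
      rw [← hWl] at h4
      refine h4.trans (le_of_eq ?_)
      rw [mul_pow, mul_pow, mul_pow (4 : ℝ), mul_pow (2 : ℝ), rpow_half_sq ht]
      have e : (2 * -(1 / 4) : ℝ) = -(1 / 2) := by norm_num
      rw [e]
      ring
    have h5 : 0 ≤ t ^ (-(1 / 2) : ℝ) * A ^ 2 * Wl := by positivity
    rw [Fin.sum_univ_three]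
    have h6 := h3 0
    have h7 := h3 1
    have h8 := h3 2
    nlinarith

end Pool.Agent.Helper49_Pauli
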