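import Pool.Agent.Helper41_Pauli.AsmAlg

/-!
# Module ASSEMBLE, the Dirac operator
-/

open MeasureTheory Complex ProbabilityTheory

set_option linter.unusedSectionVars false

namespace Pool.Agent.Helper49_Pauli.Asm

open Pool.Agent.Helper61_Pauli (ev cj ev_cj integrable_ev)

variable {ι : Type} [Fintype ι] [DecidableEq ι] {D : Type} [NormedAddCommGroup D]
  [InnerProductSpace ℂ D] (J : MvPolynomial ι ℂ →ₗ[ℂ] D) (p : MvPolynomial ι ℝ)
  (k c : ι → X3) (θ : ι → ℝ)

/-- Coefficients of the potential. -/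
noncomputable def rr (x : X3) (i : ι) (j : Fin 3) : ℝ :=
  Real.cos (dot (k i) x - θ i) * c i j / Real.sqrt (2 * Real.sqrt (sq (k i)))

variable (u0 : X3 → S2) (u : ι → X3 → S2) (alpha : ℝ)

/-- Polynomial of a covariant derivative. -/
noncomputable def WW (x : X3) (j : Fin 3) (s : Fin 2) : MvPolynomial ι ℂ :=
  MvPolynomial.C (-I) * QQ p (fderiv ℝ (fun x => u0 x s) x (Pi.single j 1))
    (fun i => fderiv ℝ (fun x => u i x s) x (Pi.single j 1)) +
  MvPolynomial.C ((Real.sqrt alpha : ℝ) : ℂ) * ∑ i, MvPolynomial.C ((rr k c θ x i j : ℝ) : ℂ) *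
    (MvPolynomial.X i * QQ p (u0 x s) fun i => u i x s)

/-- Polynomial of the Dirac operator. -/
noncomputable def RR (x : X3) : Fin 2 → MvPolynomial ι ℂ :=
  ![WW p k c θ u0 u alpha x 0 1 - MvPolynomial.C I * WW p k c θ u0 u alpha x 1 1 +
      WW p k c θ u0 u alpha x 2 0,
    WW p k c θ u0 u alpha x 0 0 + MvPolynomial.C I * WW p k c θ u0 u alpha x 1 0 -
      WW p k c θ u0 u alpha x 2 1]

variable {u0 u} (h0 : ContDiff ℝ (⊤ : ℕ∞) u0) (h : ∀ i, ContDiff ℝ (⊤ : ℕ∞) (u i))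

include h0 h in
lemma ev_WW (x : X3) (j : Fin 3) (s : Fin 2) (y : EuclideanSpace ℝ ι) :
    ev (WW p k c θ u0 u alpha x j s) y = ((MvPolynomial.eval (fun i => y i) p : ℝ) : ℂ) *
      cov (vp alpha k c θ (fun i => y i)) j (wf u0 u (fun i => y i)) x s := by
  unfold WW cov
  rw [fderiv_wf h0 h, ev_add, ev_mul, ev_mul, ev_C, ev_C, ev_QQ, ev_sum]
  have e1 : ∀ i, ev (MvPolynomial.C ((rr k c θ x i j : ℝ) : ℂ) *
      (MvPolynomial.X i * QQ p (u0 x s) fun i => u i x s)) y =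
      (rr k c θ x i j : ℂ) * (y i : ℂ) * (((MvPolynomial.eval (fun i => y i) p : ℝ) : ℂ) *
      (u0 x s + ∑ i, (y i : ℂ) * u i x s)) := by
    intro i
    rw [ev_mul, ev_C, ev_mul, ev_X, ev_QQ]
    ring
  rw [Finset.sum_congr rfl (fun i _ => e1 i), ← Finset.sum_mul]
  have e2 : wf u0 u (fun i => y i) x s = u0 x s + ∑ i, (y i : ℂ) * u i x s := by
    simp [wf]
  have e3 : ((vp alpha k c θ (fun i => y i) x j : ℝ) : ℂ) = ((Real.sqrt alpha : ℝ) : ℂ) *
      ∑ i, (rr k c θ x i j : ℂ) * (y i : ℂ) := by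
    unfold vp fA ph rr
    simp only [Pi.smul_apply, smul_eq_mul]
    rw [Complex.ofReal_mul, Complex.ofReal_sum]
    congr 1
    apply Finset.sum_congr rfl
    intro i _
    push_cast
    ring
  rw [e2, e3]
  ring

variable {cut L : ℝ} (F : Bosons (Mode cut L) D) (P : Polarization L) (G : Bosons ι D)
  (hJX : ∀ i P, J (MvPolynomial.X i * P) = G.a i (J P) + G.ad i (J P))
  (hpot : ∀ x j v, potential F P x j v = ∑ i,
        ((Real.cos (dot (k i) x - θ i) * c i j / Real.sqrt (2 * Real.sqrt (sq (k i))) : ℝ) : ℂ) •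
          (G.a i v + G.ad i v))

include h0 h hJX hpot in
lemma J_WW (x : X3) (j : Fin 3) (s : Fin 2) :
    (-I) • fderiv ℝ (fun y => st J p u0 u y s) x (Pi.single j 1) +
      (Real.sqrt alpha : ℂ) • potential F P x j (st J p u0 u x s) =
      J (WW p k c θ u0 u alpha x j s) := by
  unfold WW
  rw [fderiv_st J p h0 h, map_add, ← MvPolynomial.smul_eq_C_mul, map_smul,
    ← MvPolynomial.smul_eq_C_mul, map_smul, map_sum, hpot]
  congr 2
  apply Finset.sum_congr rfl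
  intro i _
  rw [← MvPolynomial.smul_eq_C_mul, map_smul, hJX]
  rfl

include h0 h hJX hpot in
lemma dirac_st (x : X3) (s : Fin 2) :
    dirac alpha F P (st J p u0 u) x s = J (RR p k c θ u0 u alpha x s) := by
  unfold dirac
  simp only [J_WW J p k c θ alpha h0 h F P G hJX hpot]
  unfold pauliDot RR
  fin_cases s
  · simp only [Fin.zero_eta, Matrix.cons_val_zero]
    rw [map_add, map_sub, ← MvPolynomial.smul_eq_C_mul, map_smul]
  · simp only [Fin.mk_one, Matrix.cons_val_one, Matrix.cons_val_fin_one]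
    rw [map_sub, map_add, ← MvPolynomial.smul_eq_C_mul, map_smul]

include h0 h in
lemma ev_RR (x : X3) (s : Fin 2) (y : EuclideanSpace ℝ ι) :
    ev (RR p k c θ u0 u alpha x s) y = ((MvPolynomial.eval (fun i => y i) p : ℝ) : ℂ) *
      dop (vp alpha k c θ (fun i => y i)) (wf u0 u (fun i => y i)) x s := by
  unfold dop
  rw [← pauliDot_eq (fun j => cov (vp alpha k c θ (fun i => y i)) j (wf u0 u (fun i => y i)) x)]
  unfold pauliDot RR
  fin_cases s
  · simp only [Fin.zero_eta, Matrix.cons_val_zero]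
    rw [ev_add, ev_sub, ev_mul, ev_C, ev_WW _ _ _ _ _ h0 h, ev_WW _ _ _ _ _ h0 h,
      ev_WW _ _ _ _ _ h0 h, smul_eq_mul]
    ring
  · simp only [Fin.mk_one, Matrix.cons_val_one, Matrix.cons_val_fin_one]
    rw [ev_sub, ev_add, ev_mul, ev_C, ev_WW _ _ _ _ _ h0 h, ev_WW _ _ _ _ _ h0 h,
      ev_WW _ _ _ _ _ h0 h, smul_eq_mul]
    ring

variable (hJa : ∀ i P, G.a i (J P) = J (MvPolynomial.pderiv i P))
  (hfe : ∀ v, fieldEnergy F v = ∑ i, (Real.sqrt (sq (k i)) : ℂ) • G.ad i (G.a i v))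

include hfe hJa in
lemma fieldEnergy_J (Q : MvPolynomial ι ℂ) :
    (inner ℂ (J Q) (fieldEnergy F (J Q))).re =
      ∑ i, Real.sqrt (sq (k i)) * ‖J (MvPolynomial.pderiv i Q)‖ ^ 2 := by
  rw [hfe, inner_sum, Complex.re_sum]
  apply Finset.sum_congr rfl
  intro i _
  rw [inner_smul_right]
  have h1 : inner ℂ (J Q) (G.ad i (G.a i (J Q))) = ((‖G.a i (J Q)‖ ^ 2 : ℝ) : ℂ) := by
    rw [← inner_conj_symm, G.adj, inner_conj_symm, inner_self_eq_norm_sq_to_K]
    push_cast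
    rfl
  rw [h1, hJa, ← Complex.ofReal_mul, Complex.ofReal_re]

end Pool.Agent.Helper49_Pauli.Asm
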