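import Pool.Agent.Helper41_Pauli.Heat

/-!
# Module LATT
-/

open MeasureTheory Set

namespace Pool.Agent.Helper49_Pauli.TF

/-- Side of the cells. -/
noncomputable def side (L : ℝ) : ℝ := 2 * Real.pi / L

lemma side_pos {L : ℝ} (hL : 0 < L) : 0 < side L := by
  unfold side
  positivity

lemma wave_eq (L : ℝ) (n : Fin 3 → ℤ) (j : Fin 3) : wave L n j = side L * n j := rfl

/-- The cell at `n`. -/
def cell (L : ℝ) (n : Fin 3 → ℤ) : Set X3 :=
  Set.pi univ fun j => Ico (side L * n j) (side L * n j + side L)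

/-- The cell containing `q`. -/
noncomputable def rnd (L : ℝ) (q : X3) : Fin 3 → ℤ := fun j => ⌊q j / side L⌋

lemma mem_cell {L : ℝ} (hL : 0 < L) (n : Fin 3 → ℤ) (q : X3) : q ∈ cell L n ↔ rnd L q = n := by
  have hs := side_pos hL
  unfold cell rnd
  rw [Set.mem_univ_pi, funext_iff]
  apply forall_congr'
  intro j
  rw [Int.floor_eq_iff, Set.mem_Ico, le_div_iff₀ hs, div_lt_iff₀ hs]
  constructor
  · rintro ⟨h1, h2⟩
    constructor <;> linarith
  · rintro ⟨h1, h2⟩
    constructor <;> linarith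

lemma measurableSet_cell (L : ℝ) (n : Fin 3 → ℤ) : MeasurableSet (cell L n) :=
  MeasurableSet.univ_pi fun _ => measurableSet_Ico

lemma volume_cell {L : ℝ} (hL : 0 < L) (n : Fin 3 → ℤ) :
    volume.real (cell L n) = side L ^ 3 := by
  have hs := side_pos hL
  unfold cell Measure.real
  rw [Real.volume_pi_Ico_toReal]
  · simp
  · intro j
    simp only
    linarith

lemma volume_cell_ne_top {L : ℝ} (n : Fin 3 → ℤ) : volume (cell L n) ≠ ⊤ := by
  unfold cell
  rw [Real.volume_pi_Ico]
  exact ENNReal.prod_ne_top fun _ _ => ENNReal.ofReal_ne_top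

open Classical in
/-- Step functions. -/
noncomputable def stepf (L : ℝ) (S : Finset (Fin 3 → ℤ)) (g : (Fin 3 → ℤ) → ℝ) (q : X3) : ℝ :=
  if rnd L q ∈ S then g (rnd L q) else 0

lemma stepf_eq {L : ℝ} (hL : 0 < L) (S : Finset (Fin 3 → ℤ)) (g : (Fin 3 → ℤ) → ℝ) :
    stepf L S g = fun q => ∑ n ∈ S, (cell L n).indicator (fun _ => g n) q := by
  funext q
  unfold stepf
  split_ifs with h
  · rw [Finset.sum_eq_single_of_mem _ h]
    · rw [Set.indicator_of_mem ((mem_cell hL _ _).mpr rfl)]
    · intro n _ hn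
      rw [Set.indicator_of_notMem]
      rw [mem_cell hL]
      exact fun h' => hn h'.symm
  · symm
    apply Finset.sum_eq_zero
    intro n hn
    rw [Set.indicator_of_notMem]
    rw [mem_cell hL]
    intro h'
    rw [h'] at h
    exact h hn

lemma integrable_stepf {L : ℝ} (hL : 0 < L) (S : Finset (Fin 3 → ℤ)) (g : (Fin 3 → ℤ) → ℝ) :
    Integrable (stepf L S g) := by
  rw [stepf_eq hL]
  apply integrable_finsetSum
  intro n _
  rw [integrable_indicator_iff (measurableSet_cell L n)]
  exact integrableOn_const (volume_cell_ne_top n)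

lemma integral_stepf {L : ℝ} (hL : 0 < L) (S : Finset (Fin 3 → ℤ)) (g : (Fin 3 → ℤ) → ℝ) :
    ∫ q, stepf L S g q = side L ^ 3 * ∑ n ∈ S, g n := by
  rw [stepf_eq hL, integral_finsetSum]
  · rw [Finset.mul_sum]
    apply Finset.sum_congr rfl
    intro n _
    rw [integral_indicator (measurableSet_cell L n), setIntegral_const, volume_cell hL,
      smul_eq_mul]
  · intro n _
    rw [integrable_indicator_iff (measurableSet_cell L n)]
    exact integrableOn_const (volume_cell_ne_top n)

lemma sum_eq {L : ℝ} (hL : 0 < L) (S : Finset (Fin 3 → ℤ)) (g : (Fin 3 → ℤ) → ℝ) :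
    1 / L ^ 3 * ∑ n ∈ S, g n = (2 * Real.pi) ^ (-(3 : ℤ)) * ∫ q, stepf L S g q := by
  rw [integral_stepf hL]
  unfold side
  have : (2 * Real.pi) ^ (-(3 : ℤ)) = 1 / (2 * Real.pi) ^ 3 := by
    rw [zpow_neg, one_div]
    norm_cast
  rw [this]
  have hpi := Real.pi_pos
  field_simp

lemma dist_wave {L : ℝ} (hL : 0 < L) (q : X3) (j : Fin 3) :
    wave L (rnd L q) j ≤ q j ∧ q j < wave L (rnd L q) j + side L := by
  have h := (mem_cell hL (rnd L q) q).mpr rfl
  unfold cell at h
  rw [Set.mem_univ_pi] at h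
  have := h j
  rw [Set.mem_Ico] at this
  exact this

lemma side_le {L : ℝ} (hL : 1 ≤ L) : side L ≤ 7 := by
  unfold side
  rw [div_le_iff₀ (by linarith)]
  have := Real.pi_lt_d2
  nlinarith

lemma wave_zero_iff {L : ℝ} (hL : 0 < L) (n : Fin 3 → ℤ) : wave L n = 0 ↔ n = 0 := by
  have hs := side_pos hL
  constructor
  · intro h
    funext j
    have := congrFun h j
    rw [wave_eq, Pi.zero_apply, mul_eq_zero] at this
    rcases this with h | h
    · exact absurd h hs.ne'
    · exact_mod_cast h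
  · rintro rfl
    funext j
    simp [wave_eq]

lemma freq_eq (L : ℝ) (n : Fin 3 → ℤ) : freq L n = nrm (wave L n) := rfl

lemma finite_momenta {cut L : ℝ} (hL : 0 < L) :
    {n : Fin 3 → ℤ | n ≠ 0 ∧ freq L n < cut}.Finite := by
  have hs := side_pos hL
  apply Set.Finite.subset (Set.Finite.pi' (fun _ : Fin 3 =>
    Set.finite_Icc (-⌈cut / side L⌉) ⌈cut / side L⌉))
  rintro n ⟨_, hn⟩ j
  rw [freq_eq] at hn
  have h1 := (abs_le_nrm (wave L n) j).trans hn.le
  rw [wave_eq, abs_mul, abs_of_pos hs, mul_comm, ← le_div_iff₀ hs] at h1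
  have h2 := h1.trans (Int.le_ceil _)
  rw [abs_le] at h2
  rw [Set.mem_Icc]
  constructor
  · exact_mod_cast h2.1
  · exact_mod_cast h2.2

lemma mem_momenta {cut L : ℝ} (hL : 0 < L) (n : Fin 3 → ℤ) :
    n ∈ momenta cut L ↔ n ≠ 0 ∧ freq L n < cut := by
  unfold momenta
  rw [dif_pos (finite_momenta hL)]
  simp

/-- The part of the limit statement: almost every point. -/
lemma ae_sphere (cut : ℝ) (hcut : 0 < cut) : ∀ᵐ q : X3, sq q ≠ cut ^ 2 := by
  have h1 : {q : X3 | ¬ sq q ≠ cut ^ 2} =
      (fun q : X3 => WithLp.toLp 2 q) ⁻¹' (Metric.sphere (0 : EuclideanSpace ℝ (Fin 3)) cut) := by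
    ext q
    simp only [ne_eq, not_not, Set.mem_ofPred_eq, Set.mem_preimage, mem_sphere_iff_norm, sub_zero]
    rw [← nrm_eq]
    constructor
    · intro h
      unfold nrm
      rw [h, Real.sqrt_sq hcut.le]
    · intro h
      rw [← nrm_sq, h]
  rw [ae_iff, h1, (PiLp.volume_preserving_toLp (Fin 3)).measure_preimage
    (Metric.isClosed_sphere.measurableSet.nullMeasurableSet)]
  exact Measure.addHaar_sphere _ _ _

lemma tendsto_wave_rnd (q : X3) :
    Filter.Tendsto (fun L : ℝ => wave L (rnd L q)) Filter.atTop (nhds q) := by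
  rw [tendsto_pi_nhds]
  intro j
  have hside : Filter.Tendsto side Filter.atTop (nhds 0) := by
    unfold side
    exact Filter.Tendsto.div_atTop tendsto_const_nhds Filter.tendsto_id
  have h1 : Filter.Tendsto (fun L : ℝ => q j - side L) Filter.atTop (nhds (q j)) := by
    simpa using tendsto_const_nhds.sub hside
  refine tendsto_of_tendsto_of_tendsto_of_le_of_le' h1 tendsto_const_nhds ?_ ?_
  · filter_upwards [Filter.eventually_gt_atTop 0] with L hL
    have := (dist_wave hL q j).2
    linarith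
  · filter_upwards [Filter.eventually_gt_atTop 0] with L hL
    exact (dist_wave hL q j).1

lemma stepf_tendsto (f : X3 → ℝ) (cut : ℝ) (hcut : 0 < cut) (hf : ContinuousOn f {q | q ≠ 0})
    (q : X3) (hq : q ≠ 0) (hq' : sq q ≠ cut ^ 2) :
    Filter.Tendsto (fun L : ℝ => stepf L (momenta cut L) (fun n => f (wave L n)) q) Filter.atTop
      (nhds ({q : X3 | sq q < cut ^ 2}.indicator f q)) := by
  have hw := tendsto_wave_rnd q
  have hsq : Filter.Tendsto (fun L : ℝ => sq (wave L (rnd L q))) Filter.atTop (nhds (sq q)) :=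
    (continuous_sq.tendsto q).comp hw
  rcases lt_or_gt_of_ne hq' with h | h
  · rw [Set.indicator_of_mem (show q ∈ {q : X3 | sq q < cut ^ 2} from h)]
    have hfq : ContinuousAt f q := hf.continuousAt (isOpen_ne.mem_nhds hq)
    have h1 : Filter.Tendsto (fun L : ℝ => f (wave L (rnd L q))) Filter.atTop (nhds (f q)) :=
      hfq.tendsto.comp hw
    refine h1.congr' ?_
    have hne : ∀ᶠ L : ℝ in Filter.atTop, wave L (rnd L q) ≠ 0 :=
      hw.eventually (isOpen_ne.mem_nhds hq)
    have hlt : ∀ᶠ L : ℝ in Filter.atTop, sq (wave L (rnd L q)) < cut ^ 2 :=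
      hsq.eventually (gt_mem_nhds h)
    filter_upwards [hne, hlt, Filter.eventually_gt_atTop 0] with L h2 h3 hL
    unfold stepf
    rw [if_pos]
    rw [mem_momenta hL]
    constructor
    · intro h4
      exact h2 ((wave_zero_iff hL _).mpr h4)
    · rw [freq_eq]
      unfold nrm
      rw [Real.sqrt_lt' hcut]
      exact h3
  · rw [Set.indicator_of_notMem (show q ∉ {q : X3 | sq q < cut ^ 2} from not_lt.mpr h.le)]
    refine tendsto_const_nhds.congr' ?_
    have hgt : ∀ᶠ L : ℝ in Filter.atTop, cut ^ 2 < sq (wave L (rnd L q)) :=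
      hsq.eventually (lt_mem_nhds h)
    filter_upwards [hgt, Filter.eventually_gt_atTop 0] with L h3 hL
    unfold stepf
    rw [if_neg]
    rw [mem_momenta hL]
    rintro ⟨_, h4⟩
    rw [freq_eq] at h4
    unfold nrm at h4
    rw [Real.sqrt_lt' hcut] at h4
    linarith

lemma bound_of_mem {cut L : ℝ} (hL : 1 ≤ L) (q : X3) (h : rnd L q ∈ momenta cut L) :
    q ∈ Icc (fun _ : Fin 3 => -(cut + 7)) (fun _ : Fin 3 => cut + 7) := by
  have hL0 : 0 < L := by linarith
  rw [mem_momenta hL0, freq_eq] at h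
  have hs := side_le hL
  have key : ∀ j, -(cut + 7) ≤ q j ∧ q j ≤ cut + 7 := by
    intro j
    have h1 := (abs_le_nrm (wave L (rnd L q)) j).trans h.2.le
    rw [abs_le] at h1
    have h2 := dist_wave hL0 q j
    constructor <;> linarith [h1.1, h1.2, h2.1, h2.2]
  exact ⟨fun j => (key j).1, fun j => (key j).2⟩

lemma abs_stepf_le {cut L : ℝ} (hL : 1 ≤ L) {g : (Fin 3 → ℤ) → ℝ} {B : ℝ} (hg : ∀ n, |g n| ≤ B)
    (q : X3) : |stepf L (momenta cut L) g q| ≤
      (Icc (fun _ : Fin 3 => -(cut + 7)) (fun _ : Fin 3 => cut + 7)).indicator (fun _ => B) q := by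
  unfold stepf
  split_ifs with h
  · rw [Set.indicator_of_mem (bound_of_mem hL q h)]
    exact hg _
  · rw [abs_zero]
    exact Set.indicator_nonneg (fun _ _ => (abs_nonneg _).trans (hg 0)) q

lemma integrable_box (c B : ℝ) : Integrable
    ((Icc (fun _ : Fin 3 => -c) (fun _ : Fin 3 => c)).indicator (fun _ => B)) := by
  rw [integrable_indicator_iff measurableSet_Icc]
  refine integrableOn_const ?_
  rw [Real.volume_Icc_pi]
  exact ENNReal.prod_ne_top fun _ _ => ENNReal.ofReal_ne_top

lemma latt_card (cut L : ℝ) (hcut : 1 ≤ cut) (hL : 1 ≤ L) :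
    (momenta cut L).card / L ^ 3 ≤ 4096 * cut ^ 3 := by
  have hL0 : 0 < L := by linarith
  have h1 := sum_eq hL0 (momenta cut L) (fun _ => 1)
  simp only [Finset.sum_const, nsmul_eq_mul, mul_one] at h1
  have h2 : ∫ q, stepf L (momenta cut L) (fun _ => 1) q ≤ (2 * (cut + 7)) ^ 3 := by
    calc ∫ q, stepf L (momenta cut L) (fun _ => 1) q
        ≤ ∫ q, (Icc (fun _ : Fin 3 => -(cut + 7)) (fun _ : Fin 3 => cut + 7)).indicator
            (fun _ => (1 : ℝ)) q := by
          apply integral_mono (integrable_stepf hL0 _ _) (integrable_box _ _)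
          intro q
          exact (le_abs_self _).trans (abs_stepf_le hL (fun _ => by norm_num) q)
      _ = (2 * (cut + 7)) ^ 3 := by
          rw [integral_indicator measurableSet_Icc, setIntegral_const, smul_eq_mul, mul_one]
          unfold Measure.real
          rw [Real.volume_Icc_pi_toReal]
          · simp
            ring
          · intro j
            simp only
            linarith
  have h3 : (2 * Real.pi) ^ (-(3 : ℤ)) ≤ 1 := by
    rw [zpow_neg]
    apply inv_le_one_of_one_le₀
    norm_cast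
    exact one_le_pow₀ (by nlinarith [Real.pi_gt_three])
  have h4 : 0 ≤ (2 * (cut + 7)) ^ 3 := by positivity
  have h5 : ((momenta cut L).card : ℝ) / L ^ 3 = 1 / L ^ 3 * (momenta cut L).card := by ring
  rw [h5, h1]
  calc (2 * Real.pi) ^ (-(3 : ℤ)) * ∫ q, stepf L (momenta cut L) (fun _ => 1) q
      ≤ (2 * Real.pi) ^ (-(3 : ℤ)) * (2 * (cut + 7)) ^ 3 :=
        mul_le_mul_of_nonneg_left h2 (by positivity)
    _ ≤ 1 * (2 * (cut + 7)) ^ 3 := mul_le_mul_of_nonneg_right h3 h4
    _ ≤ (16 * cut) ^ 3 := by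
        rw [one_mul]
        apply pow_le_pow_left₀ (by positivity)
        linarith
    _ = _ := by ring

lemma latt_gauss (cut L t : ℝ) (hL : 1 ≤ L) (ht : 0 < t) (ht1 : t ≤ 1) :
    1 / L ^ 3 * ∑ n ∈ momenta cut L, Real.exp (-(t * sq (wave L n))) ≤
      (2 * Real.pi) ^ (-(3 : ℤ)) * (Real.exp 147 * (2 * Real.pi) ^ (3 / 2 : ℝ)) *
        t ^ (-(3 / 2) : ℝ) := by
  have hL0 : 0 < L := by linarith
  rw [sum_eq hL0, mul_assoc]
  apply mul_le_mul_of_nonneg_left _ (by positivity)
  have hσ : 0 < 1 / (2 * t) := by positivity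
  have hpt : ∀ q, stepf L (momenta cut L) (fun n => Real.exp (-(t * sq (wave L n)))) q ≤
      Real.exp 147 * gs (1 / (2 * t)) q := by
    intro q
    unfold stepf
    split_ifs with h
    · have h1 : sq q ≤ 2 * sq (wave L (rnd L q)) + 294 := by
        have hs := side_le hL
        have h2 : ∀ j, q j ^ 2 ≤ 2 * wave L (rnd L q) j ^ 2 + 98 := by
          intro j
          have h3 := dist_wave hL0 q j
          have h4 : (q j - wave L (rnd L q) j) ^ 2 ≤ 49 := by
            have : 0 ≤ q j - wave L (rnd L q) j := by linarith [h3.1]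
            have : q j - wave L (rnd L q) j ≤ 7 := by linarith [h3.2]
            nlinarith
          nlinarith [_root_.sq_nonneg (q j - 2 * wave L (rnd L q) j)]
        unfold sq
        rw [Fin.sum_univ_three, Fin.sum_univ_three]
        have := h2 0
        have := h2 1
        have := h2 2
        linarith
      unfold gs
      rw [← Real.exp_add]
      apply Real.exp_le_exp.mpr
      have h2 : sq q / (4 * (1 / (2 * t))) = t * sq q / 2 := by
        field_simp
        ring
      rw [h2]
      nlinarith [sq_nonneg' (wave L (rnd L q))]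
    · exact mul_nonneg (Real.exp_pos _).le (gs_pos _ _).le
  calc ∫ q, stepf L (momenta cut L) (fun n => Real.exp (-(t * sq (wave L n)))) q
      ≤ ∫ q, Real.exp 147 * gs (1 / (2 * t)) q :=
        integral_mono (integrable_stepf hL0 _ _) ((integrable_gs hσ).const_mul _) hpt
    _ = Real.exp 147 * mass (1 / (2 * t)) := by rw [integral_const_mul, integral_gs hσ]
    _ = Real.exp 147 * (2 * Real.pi) ^ (3 / 2 : ℝ) * t ^ (-(3 / 2) : ℝ) := by
        rw [mul_assoc]
        congr 1
        unfold mass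
        have : 4 * Real.pi * (1 / (2 * t)) = 2 * Real.pi * t⁻¹ := by
          field_simp
          ring
        rw [this, Real.mul_rpow (by positivity) (by positivity), Real.inv_rpow ht.le,
          Real.rpow_neg ht.le]

lemma latt_lim (f : X3 → ℝ) (B cut : ℝ) (hcut : 0 < cut) (hB : ∀ q, |f q| ≤ B)
    (hf : ContinuousOn f {q | q ≠ 0}) :
    Filter.Tendsto (fun L : ℝ => 1 / L ^ 3 * ∑ n ∈ momenta cut L, f (wave L n)) Filter.atTop
      (nhds ((2 * Real.pi) ^ (-(3 : ℤ)) * ∫ q in {q : X3 | sq q < cut ^ 2}, f q)) := by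
  have h1 : Filter.Tendsto (fun L : ℝ => ∫ q, stepf L (momenta cut L) (fun n => f (wave L n)) q)
      Filter.atTop (nhds (∫ q, {q : X3 | sq q < cut ^ 2}.indicator f q)) := by
    refine tendsto_integral_filter_of_dominated_convergence
      ((Icc (fun _ : Fin 3 => -(cut + 7)) (fun _ : Fin 3 => cut + 7)).indicator (fun _ => B))
      ?_ ?_ (integrable_box _ _) ?_
    · filter_upwards [Filter.eventually_gt_atTop 0] with L hL
      exact (integrable_stepf hL _ _).aestronglyMeasurable
    · filter_upwards [Filter.eventually_ge_atTop 1] with L hL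
      exact Filter.Eventually.of_forall fun q => abs_stepf_le hL (fun n => hB _) q
    · filter_upwards [ae_sphere cut hcut, ae_nrm_pos] with q h2 h3
      refine stepf_tendsto f cut hcut hf q (fun h => ?_) h2
      rw [h, nrm_eq_zero.mpr rfl] at h3
      exact lt_irrefl _ h3
  rw [integral_indicator (measurableSet_lt continuous_sq.measurable measurable_const)] at h1
  refine (h1.const_mul ((2 * Real.pi) ^ (-(3 : ℤ)))).congr' ?_
  filter_upwards [Filter.eventually_gt_atTop 0] with L hL
  exact (sum_eq hL _ _).symm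

end Pool.Agent.Helper49_Pauli.TF

namespace Pool.Agent.Helper49_Pauli

open TF in
/-- Module LATT. -/
theorem latt : LattStatement := by
  refine ⟨fun cut L hL n => mem_momenta hL n, ⟨4096, by norm_num, latt_card⟩,
    ⟨(2 * Real.pi) ^ (-(3 : ℤ)) * (Real.exp 147 * (2 * Real.pi) ^ (3 / 2 : ℝ)), by positivity,
      latt_gauss⟩, latt_lim⟩

end Pool.Agent.Helper49_Pauli
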