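import Pool.Agent.Helper41_Pauli.AsmDirac

/-!
# Module ASSEMBLE, pointwise estimates
-/

open MeasureTheory Complex ProbabilityTheory

set_option linter.unusedSectionVars false

namespace Pool.Agent.Helper49_Pauli.Asm

lemma nsq_add_le (a b : S2) : nsq (a + b) ≤ 2 * nsq a + 2 * nsq b := by
  unfold nsq
  rw [Fin.sum_univ_two, Fin.sum_univ_two, Fin.sum_univ_two]
  have key : ∀ x y : ℂ, ‖x + y‖ ^ 2 ≤ 2 * ‖x‖ ^ 2 + 2 * ‖y‖ ^ 2 := by
    intro x y
    have h1 := norm_add_le x y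
    have h2 : ‖x + y‖ ^ 2 ≤ (‖x‖ + ‖y‖) ^ 2 := pow_le_pow_left₀ (norm_nonneg _) h1 2
    nlinarith [sq_nonneg (‖x‖ - ‖y‖)]
  have := key (a 0) (b 0)
  have := key (a 1) (b 1)
  simp only [Pi.add_apply]
  linarith

lemma nsq_smul (z : ℂ) (a : S2) : nsq (z • a) = ‖z‖ ^ 2 * nsq a := by
  unfold nsq
  rw [Finset.mul_sum]
  apply Finset.sum_congr rfl
  intro s _
  rw [Pi.smul_apply, smul_eq_mul, norm_mul, mul_pow]

lemma nsq_sum_le {κ : Type} [Fintype κ] (f : κ → S2) :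
    nsq (∑ i, f i) ≤ Fintype.card κ * ∑ i, nsq (f i) := by
  unfold nsq
  rw [Finset.sum_comm, Finset.mul_sum]
  apply Finset.sum_le_sum
  intro s _
  rw [Finset.sum_apply]
  have h1 : ‖∑ i, f i s‖ ≤ ∑ i, ‖f i s‖ := norm_sum_le _ _
  have h2 := sq_sum_le_card_mul_sum_sq (s := Finset.univ) (f := fun i => ‖f i s‖)
  rw [Finset.card_univ] at h2
  exact (pow_le_pow_left₀ (norm_nonneg _) h1 2).trans h2

lemma nsq_sg (j : Fin 3) (u : S2) : nsq (sg j u) = nsq u := by
  unfold nsq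
  rw [Fin.sum_univ_two, Fin.sum_univ_two]
  fin_cases j <;> simp [sg_apply, add_comm]

lemma continuous_nsq : Continuous nsq := by
  unfold nsq
  fun_prop

/-- Derivative of a spinor. -/
noncomputable def dd (v : X3 → S2) (j : Fin 3) (x : X3) : S2 :=
  fun s => fderiv ℝ (fun x => v x s) x (Pi.single j 1)

lemma continuous_dd {v : X3 → S2} (hv : ContDiff ℝ (⊤ : ℕ∞) v) (j : Fin 3) :
    Continuous (dd v j) := by
  unfold dd
  refine continuous_pi fun s => ?_
  exact ((contDiff_comp hv s).continuous_fderiv (by simp)).clm_apply continuous_const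

lemma compact_dd {v : X3 → S2} (cv : HasCompactSupport v) (j : Fin 3) :
    HasCompactSupport (dd v j) := by
  have h1 : ∀ s, HasCompactSupport fun x => v x s := fun s =>
    cv.comp_left (g := fun w : S2 => w s) rfl
  have h2 : ∀ s, HasCompactSupport fun x => fderiv ℝ (fun x => v x s) x (Pi.single j 1) := fun s =>
    ((h1 s).fderiv (𝕜 := ℝ)).comp_left (g := fun L : X3 →L[ℝ] ℂ => L (Pi.single j 1)) rfl
  refine HasCompactSupport.of_support_subset_isCompact ((h2 0).isCompact.union (h2 1).isCompact) ?_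
  intro x hx
  by_contra hx'
  apply hx
  rw [Set.mem_union, not_or] at hx'
  have e0 : fderiv ℝ (fun x => v x 0) x (Pi.single j 1) = 0 :=
    image_eq_zero_of_notMem_tsupport (f := fun x => fderiv ℝ (fun x => v x 0) x (Pi.single j 1))
      hx'.1
  have e1 : fderiv ℝ (fun x => v x 1) x (Pi.single j 1) = 0 :=
    image_eq_zero_of_notMem_tsupport (f := fun x => fderiv ℝ (fun x => v x 1) x (Pi.single j 1))
      hx'.2
  funext s
  fin_cases s
  · exact e0
  · exact e1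

lemma integrable_nsq {v : X3 → S2} (hv : Continuous v) (cv : HasCompactSupport v) :
    Integrable fun x => nsq (v x) := by
  refine Continuous.integrable_of_hasCompactSupport (continuous_nsq.comp hv) ?_
  exact cv.comp_left (g := nsq) (by simp [nsq])

section est

variable {ι : Type} [Fintype ι] [DecidableEq ι] (k c : ι → X3) (θ : ι → ℝ) (u0 : X3 → S2)
  (u : ι → X3 → S2) (alpha : ℝ)

/-- The majorant. -/
noncomputable def gg (x : X3) : ℝ :=
  (nsq (u0 x) + ∑ i, nsq (u i x)) + ∑ j, (nsq (dd u0 j x) + ∑ i, nsq (dd (u i) j x))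

lemma gg_nonneg (x : X3) : 0 ≤ gg u0 u x := by
  unfold gg
  have h1 : ∀ (v : S2) (w : ι → S2), 0 ≤ nsq v + ∑ i, nsq (w i) := fun v w =>
    add_nonneg (nsq_nonneg _) (Finset.sum_nonneg fun i _ => nsq_nonneg _)
  exact add_nonneg (h1 _ _) (Finset.sum_nonneg fun j _ => h1 _ _)

lemma gg_ge (x : X3) : nsq (u0 x) + ∑ i, nsq (u i x) ≤ gg u0 u x := by
  unfold gg
  have h1 : 0 ≤ ∑ j, (nsq (dd u0 j x) + ∑ i, nsq (dd (u i) j x)) :=
    Finset.sum_nonneg fun j _ => add_nonneg (nsq_nonneg _) (Finset.sum_nonneg fun i _ => nsq_nonneg _)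
  linarith

lemma gg_ge' (x : X3) (j : Fin 3) : nsq (dd u0 j x) + ∑ i, nsq (dd (u i) j x) ≤ gg u0 u x := by
  unfold gg
  have h1 : nsq (dd u0 j x) + ∑ i, nsq (dd (u i) j x) ≤
      ∑ j, (nsq (dd u0 j x) + ∑ i, nsq (dd (u i) j x)) :=
    Finset.single_le_sum (f := fun j => nsq (dd u0 j x) + ∑ i, nsq (dd (u i) j x))
      (fun j _ => add_nonneg (nsq_nonneg _) (Finset.sum_nonneg fun i _ => nsq_nonneg _))
      (Finset.mem_univ j)
  have h2 : 0 ≤ nsq (u0 x) + ∑ i, nsq (u i x) :=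
    add_nonneg (nsq_nonneg _) (Finset.sum_nonneg fun i _ => nsq_nonneg _)
  linarith

variable {u0 u} (h0 : ContDiff ℝ (⊤ : ℕ∞) u0) (c0 : HasCompactSupport u0)
  (h : ∀ i, ContDiff ℝ (⊤ : ℕ∞) (u i)) (cc : ∀ i, HasCompactSupport (u i))

include h0 c0 h cc in
lemma integrable_gg : Integrable (gg u0 u) := by
  unfold gg
  refine ((integrable_nsq h0.continuous c0).add (integrable_finsetSum _ fun i _ =>
    integrable_nsq (h i).continuous (cc i))).add (integrable_finsetSum _ fun j _ => ?_)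
  exact (integrable_nsq (continuous_dd h0 j) (compact_dd c0 j)).add
    (integrable_finsetSum _ fun i _ => integrable_nsq (continuous_dd (h i) j) (compact_dd (cc i) j))

lemma coord_sq_le (y : EuclideanSpace ℝ ι) (i : ι) : y i ^ 2 ≤ ‖y‖ ^ 2 := by
  rw [EuclideanSpace.norm_sq_eq]
  have := Finset.single_le_sum (f := fun i => ‖y i‖ ^ 2) (fun i _ => by positivity)
    (Finset.mem_univ i)
  simpa using this

/-- General affine bound. -/
lemma nsq_affine_le (a : S2) (b : ι → S2) (y : EuclideanSpace ℝ ι) :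
    nsq (a + ∑ i, (y i : ℂ) • b i) ≤
      2 * (Fintype.card ι + 1) * (1 + ‖y‖ ^ 2) * (nsq a + ∑ i, nsq (b i)) := by
  have h1 := nsq_add_le a (∑ i, (y i : ℂ) • b i)
  have h2 := nsq_sum_le fun i => (y i : ℂ) • b i
  have h3 : ∑ i, nsq ((y i : ℂ) • b i) ≤ ‖y‖ ^ 2 * ∑ i, nsq (b i) := by
    rw [Finset.mul_sum]
    apply Finset.sum_le_sum
    intro i _
    rw [nsq_smul, Complex.norm_real, Real.norm_eq_abs, sq_abs]
    exact mul_le_mul_of_nonneg_right (coord_sq_le y i) (nsq_nonneg _)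
  have hn : (0 : ℝ) ≤ Fintype.card ι := Nat.cast_nonneg _
  have hs : 0 ≤ ∑ i, nsq (b i) := Finset.sum_nonneg fun i _ => nsq_nonneg _
  have ha := nsq_nonneg a
  have hy : 0 ≤ ‖y‖ ^ 2 := by positivity
  have h4 : (Fintype.card ι : ℝ) * ∑ i, nsq ((y i : ℂ) • b i) ≤
      Fintype.card ι * (‖y‖ ^ 2 * ∑ i, nsq (b i)) := mul_le_mul_of_nonneg_left h3 hn
  have h5 : 0 ≤ (Fintype.card ι : ℝ) * ‖y‖ ^ 2 * nsq a := by positivity
  have h6 : 0 ≤ (Fintype.card ι : ℝ) * nsq a := by positivity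
  have h7 : 0 ≤ ‖y‖ ^ 2 * nsq a := by positivity
  have h8 : 0 ≤ (Fintype.card ι : ℝ) * ∑ i, nsq (b i) := by positivity
  have h9 : 0 ≤ ‖y‖ ^ 2 * ∑ i, nsq (b i) := by positivity
  nlinarith

lemma nsq_wf_le (y : EuclideanSpace ℝ ι) (x : X3) : nsq (wf u0 u (fun i => y i) x) ≤
    2 * (Fintype.card ι + 1) * (1 + ‖y‖ ^ 2) * gg u0 u x := by
  have h1 := nsq_affine_le (u0 x) (fun i => u i x) y
  refine h1.trans ?_
  exact mul_le_mul_of_nonneg_left (gg_ge u0 u x) (by positivity)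

include h0 h in
lemma dd_wf (y : ι → ℝ) (j : Fin 3) (x : X3) :
    dd (wf u0 u y) j x = dd u0 j x + ∑ i, (y i : ℂ) • dd (u i) j x := by
  funext s
  unfold dd
  rw [fderiv_wf h0 h]
  simp

lemma cov_dd (V : X3 → X3) (j : Fin 3) (f : X3 → S2) (x : X3) :
    cov V j f x = (-I) • dd f j x + (V x j : ℂ) • f x := by
  funext s
  simp [cov, dd]

include h0 h in
lemma nsq_dd_wf_le (y : EuclideanSpace ℝ ι) (j : Fin 3) (x : X3) :
    nsq (dd (wf u0 u (fun i => y i)) j x) ≤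
    2 * (Fintype.card ι + 1) * (1 + ‖y‖ ^ 2) * gg u0 u x := by
  rw [dd_wf h0 h]
  have h1 := nsq_affine_le (dd u0 j x) (fun i => dd (u i) j x) y
  refine h1.trans ?_
  exact mul_le_mul_of_nonneg_left (gg_ge' u0 u x j) (by positivity)

/-- Bound for the vector potential. -/
lemma vp_sq_le : ∃ A : ℝ, 0 ≤ A ∧ ∀ (y : EuclideanSpace ℝ ι) (x : X3) (j : Fin 3),
    vp alpha k c θ (fun i => y i) x j ^ 2 ≤ A * (1 + ‖y‖ ^ 2) := by
  set B : ℝ := ∑ i, ∑ j, |c i j| / Real.sqrt (2 * Real.sqrt (sq (k i))) with hB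
  have hB0 : 0 ≤ B := Finset.sum_nonneg fun i _ => Finset.sum_nonneg fun j _ => by positivity
  refine ⟨(|Real.sqrt alpha| * B) ^ 2, by positivity, fun y x j => ?_⟩
  have h1 : |vp alpha k c θ (fun i => y i) x j| ≤ |Real.sqrt alpha| * B * ‖y‖ := by
    unfold vp fA
    simp only [Pi.smul_apply, smul_eq_mul]
    rw [abs_mul, mul_assoc]
    apply mul_le_mul_of_nonneg_left _ (abs_nonneg _)
    refine (Finset.abs_sum_le_sum_abs _ _).trans ?_
    rw [hB, Finset.sum_mul]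
    apply Finset.sum_le_sum
    intro i _
    have hyi : |y i| ≤ ‖y‖ := by
      have := coord_sq_le y i
      rw [← sq_abs] at this
      exact (pow_le_pow_iff_left₀ (abs_nonneg _) (norm_nonneg _) (by norm_num)).mp this
    rw [abs_mul, abs_mul, abs_div, abs_of_nonneg (Real.sqrt_nonneg _)]
    have h2 : |c i j| / Real.sqrt (2 * Real.sqrt (sq (k i))) ≤
        ∑ j, |c i j| / Real.sqrt (2 * Real.sqrt (sq (k i))) :=
      Finset.single_le_sum (f := fun j => |c i j| / Real.sqrt (2 * Real.sqrt (sq (k i))))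
        (fun j _ => by positivity) (Finset.mem_univ j)
    calc |y i| / Real.sqrt (2 * Real.sqrt (sq (k i))) * |Real.cos (ph k θ x i)| * |c i j|
        ≤ |y i| / Real.sqrt (2 * Real.sqrt (sq (k i))) * 1 * |c i j| := by
          gcongr
          exact Real.abs_cos_le_one _
      _ = |c i j| / Real.sqrt (2 * Real.sqrt (sq (k i))) * |y i| := by ring
      _ ≤ (∑ j, |c i j| / Real.sqrt (2 * Real.sqrt (sq (k i)))) * ‖y‖ := by gcongr
  have h2 : vp alpha k c θ (fun i => y i) x j ^ 2 ≤ (|Real.sqrt alpha| * B * ‖y‖) ^ 2 := by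
    rw [← sq_abs]
    exact pow_le_pow_left₀ (abs_nonneg _) h1 2
  have h3 : 0 ≤ (|Real.sqrt alpha| * B) ^ 2 := by positivity
  nlinarith

include h0 h in
lemma nsq_dop_le : ∃ C : ℝ, 0 ≤ C ∧ ∀ (y : EuclideanSpace ℝ ι) (x : X3),
    nsq (dop (vp alpha k c θ (fun i => y i)) (wf u0 u (fun i => y i)) x) ≤
      C * ((1 + ‖y‖ ^ 2) ^ 2 * gg u0 u x) := by
  obtain ⟨A, hA0, hA⟩ := vp_sq_le k c θ alpha
  refine ⟨36 * (Fintype.card ι + 1) * (1 + A), by positivity, fun y x => ?_⟩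
  unfold dop
  have h1 := nsq_sum_le fun j => sg j (cov (vp alpha k c θ (fun i => y i)) j
    (wf u0 u (fun i => y i)) x)
  rw [Fintype.card_fin] at h1
  refine h1.trans ?_
  have hn : (0 : ℝ) ≤ Fintype.card ι := Nat.cast_nonneg _
  have hg := gg_nonneg u0 u x
  set Y := 1 + ‖y‖ ^ 2 with hY
  have hY1 : 1 ≤ Y := by
    rw [hY]
    nlinarith [sq_nonneg ‖y‖]
  set T := 2 * (Fintype.card ι + 1) * Y * gg u0 u x with hT
  have hT0 : 0 ≤ T := by positivity
  have h2 : ∀ j, nsq (sg j (cov (vp alpha k c θ (fun i => y i)) j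
      (wf u0 u (fun i => y i)) x)) ≤ 2 * T + 2 * (A * Y * T) := by
    intro j
    rw [nsq_sg, cov_dd]
    refine (nsq_add_le _ _).trans ?_
    rw [nsq_smul, nsq_smul, norm_neg, Complex.norm_I, Complex.norm_real, Real.norm_eq_abs, sq_abs,
      one_pow, one_mul]
    have e1 := nsq_dd_wf_le h0 h y j x
    have e2 := nsq_wf_le (u0 := u0) (u := u) y x
    have e3 := hA y x j
    have e4 : vp alpha k c θ (fun i => y i) x j ^ 2 * nsq (wf u0 u (fun i => y i) x) ≤
        A * Y * T := mul_le_mul e3 e2 (nsq_nonneg _) (by positivity)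
    linarith
  rw [Fin.sum_univ_three]
  have h3 := h2 0
  have h4 := h2 1
  have h5 := h2 2
  have h6 : 2 * T + 2 * (A * Y * T) ≤ 2 * (1 + A) * Y * T := by
    have : T ≤ Y * T := by nlinarith
    nlinarith
  have h7 : 2 * (1 + A) * Y * T = 4 * (Fintype.card ι + 1) * (1 + A) * (Y ^ 2 * gg u0 u x) := by
    rw [hT]
    ring
  rw [h7] at h6
  push_cast
  nlinarith

lemma nsq_ph_le : ∃ C : ℝ, 0 ≤ C ∧
    ∀ (y : EuclideanSpace ℝ ι) (x : X3) (a : ℝ) (b : ι → ℝ),
    ∑ i, Real.sqrt (sq (k i)) * nsq ((a : ℂ) • u i x + (b i : ℂ) • wf u0 u (fun i => y i) x) ≤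
      C * ((1 + ‖y‖ ^ 2) ^ 2 * (a ^ 2 + ∑ i, b i ^ 2) * gg u0 u x) := by
  set S : ℝ := ∑ i, Real.sqrt (sq (k i)) with hS
  have hS0 : 0 ≤ S := Finset.sum_nonneg fun i _ => Real.sqrt_nonneg _
  refine ⟨S * (4 * (Fintype.card ι + 1)), by positivity, fun y x a b => ?_⟩
  have hn : (0 : ℝ) ≤ Fintype.card ι := Nat.cast_nonneg _
  have hg := gg_nonneg u0 u x
  set Y := 1 + ‖y‖ ^ 2 with hY
  have hY1 : 1 ≤ Y := by
    rw [hY]
    nlinarith [sq_nonneg ‖y‖]
  rw [mul_assoc, hS, Finset.sum_mul]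
  apply Finset.sum_le_sum
  intro i _
  apply mul_le_mul_of_nonneg_left _ (Real.sqrt_nonneg _)
  refine (nsq_add_le _ _).trans ?_
  rw [nsq_smul, nsq_smul, Complex.norm_real, Complex.norm_real, Real.norm_eq_abs,
    Real.norm_eq_abs, sq_abs, sq_abs]
  have e1 : nsq (u i x) ≤ gg u0 u x := by
    refine le_trans ?_ (gg_ge u0 u x)
    have := Finset.single_le_sum (f := fun i => nsq (u i x)) (fun i _ => nsq_nonneg _)
      (Finset.mem_univ i)
    have h2 := nsq_nonneg (u0 x)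
    linarith
  have e2 := nsq_wf_le (u0 := u0) (u := u) y x
  have e3 : b i ^ 2 ≤ ∑ i, b i ^ 2 :=
    Finset.single_le_sum (f := fun i => b i ^ 2) (fun i _ => sq_nonneg _) (Finset.mem_univ i)
  set B := ∑ i, b i ^ 2 with hBdef
  have hB0 : 0 ≤ B := Finset.sum_nonneg fun i _ => sq_nonneg _
  have e4 : a ^ 2 * nsq (u i x) ≤ a ^ 2 * gg u0 u x := mul_le_mul_of_nonneg_left e1 (sq_nonneg _)
  have e5 : b i ^ 2 * nsq (wf u0 u (fun i => y i) x) ≤
      B * (2 * (Fintype.card ι + 1) * Y * gg u0 u x) :=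
    mul_le_mul e3 e2 (nsq_nonneg _) hB0
  have e6 : a ^ 2 * gg u0 u x ≤ (Fintype.card ι + 1) * (Y ^ 2 * a ^ 2 * gg u0 u x) := by
    have q1 : 0 ≤ a ^ 2 * gg u0 u x := by positivity
    have q2 : 1 ≤ (Fintype.card ι + 1) * Y ^ 2 := by
      have : 1 ≤ Y ^ 2 := one_le_pow₀ hY1
      nlinarith
    nlinarith
  have e7 : B * (2 * (Fintype.card ι + 1) * Y * gg u0 u x) ≤
      2 * ((Fintype.card ι + 1) * (Y ^ 2 * B * gg u0 u x)) := by
    have q1 : 0 ≤ B * gg u0 u x * (Fintype.card ι + 1) := by positivity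
    have q2 : Y ≤ Y ^ 2 := by nlinarith
    nlinarith
  nlinarith

end est

section cont

variable {ι : Type} [Fintype ι] [DecidableEq ι] (k c : ι → X3) (θ : ι → ℝ) {u0 : X3 → S2}
  {u : ι → X3 → S2} (alpha : ℝ) (h0 : ContDiff ℝ (⊤ : ℕ∞) u0) (h : ∀ i, ContDiff ℝ (⊤ : ℕ∞) (u i))

include h0 h in
lemma continuous_wf2 : Continuous fun z : EuclideanSpace ℝ ι × X3 =>
    wf u0 u (fun i => z.1 i) z.2 := by
  unfold wf
  refine (h0.continuous.comp continuous_snd).add (continuous_finsetSum _ fun i _ => ?_)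
  have h1 : Continuous fun z : EuclideanSpace ℝ ι × X3 => u i z.2 :=
    (h i).continuous.comp continuous_snd
  have h2 : Continuous fun z : EuclideanSpace ℝ ι × X3 => ((z.1 i : ℝ) : ℂ) :=
    Complex.continuous_ofReal.comp (by fun_prop)
  exact h2.smul h1

include h0 h in
lemma continuous_dop2 : Continuous fun z : EuclideanSpace ℝ ι × X3 =>
    dop (vp alpha k c θ (fun i => z.1 i)) (wf u0 u (fun i => z.1 i)) z.2 := by
  unfold dop
  refine continuous_finsetSum _ fun j _ => ?_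
  have hs : Continuous (sg j : S2 → S2) := LinearMap.continuous_of_finiteDimensional (sg j)
  refine hs.comp ?_
  simp only [cov_dd, dd_wf h0 h]
  have hd : ∀ v : X3 → S2, ContDiff ℝ (⊤ : ℕ∞) v → Continuous fun z : EuclideanSpace ℝ ι × X3 =>
      dd v j z.2 := fun v hv => (continuous_dd hv j).comp continuous_snd
  have hy : ∀ i, Continuous fun z : EuclideanSpace ℝ ι × X3 => ((z.1 i : ℝ) : ℂ) := fun i =>
    Complex.continuous_ofReal.comp (by fun_prop)
  have hv : Continuous fun z : EuclideanSpace ℝ ι × X3 =>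
      ((vp alpha k c θ (fun i => z.1 i) z.2 j : ℝ) : ℂ) := by
    refine Complex.continuous_ofReal.comp ?_
    unfold vp fA ph dot
    simp only [Pi.smul_apply, smul_eq_mul]
    fun_prop
  have h1 : Continuous fun z : EuclideanSpace ℝ ι × X3 =>
      dd u0 j z.2 + ∑ i, ((z.1 i : ℝ) : ℂ) • dd (u i) j z.2 :=
    (hd u0 h0).add (continuous_finsetSum _ fun i _ => (hy i).smul (hd (u i) (h i)))
  have h2 : Continuous fun z : EuclideanSpace ℝ ι × X3 =>
      (-I) • (dd u0 j z.2 + ∑ i, ((z.1 i : ℝ) : ℂ) • dd (u i) j z.2) := h1.const_smul (-I)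
  exact h2.add (hv.smul (continuous_wf2 h0 h))

end cont

end Pool.Agent.Helper49_Pauli.Asm
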