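import Pool.Agent.Helper49_Pauli.Interface2
import Pool.Agent.Helper61_Pauli.Fock
import Pool.Agent.Helper83_Pauli.Symm

/-!
# Module ASSEMBLE, algebraic part
-/

open MeasureTheory Complex ProbabilityTheory

set_option linter.unusedSectionVars false

namespace Pool.Agent.Helper49_Pauli.Asm

open Pool.Agent.Helper61_Pauli (ev cj ev_cj integrable_ev)

section poly

variable {ι : Type} [Fintype ι]

/-- Complexification of a polynomial. -/
noncomputable def castP (p : MvPolynomial ι ℝ) : MvPolynomial ι ℂ :=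
  MvPolynomial.map Complex.ofRealHom p

lemma ev_castP (p : MvPolynomial ι ℝ) (y : EuclideanSpace ℝ ι) :
    ev (castP p) y = ((MvPolynomial.eval (fun i => y i) p : ℝ) : ℂ) := by
  unfold ev castP
  induction p using MvPolynomial.induction_on with
  | C c => simp
  | add p q hp hq => rw [map_add, map_add, map_add, hp, hq, Complex.ofReal_add]
  | mul_X p j hp => rw [map_mul, map_mul, map_mul, hp]; simp

lemma pderiv_castP (i : ι) (p : MvPolynomial ι ℝ) :
    MvPolynomial.pderiv i (castP p) = castP (MvPolynomial.pderiv i p) :=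
  MvPolynomial.pderiv_map

lemma ev_add (P Q : MvPolynomial ι ℂ) (y : EuclideanSpace ℝ ι) :
    ev (P + Q) y = ev P y + ev Q y := by
  unfold ev
  rw [map_add]

lemma ev_sub (P Q : MvPolynomial ι ℂ) (y : EuclideanSpace ℝ ι) :
    ev (P - Q) y = ev P y - ev Q y := by
  unfold ev
  rw [map_sub]

lemma ev_mul (P Q : MvPolynomial ι ℂ) (y : EuclideanSpace ℝ ι) :
    ev (P * Q) y = ev P y * ev Q y := by
  unfold ev
  rw [map_mul]

lemma ev_sum {κ : Type} (s : Finset κ) (P : κ → MvPolynomial ι ℂ) (y : EuclideanSpace ℝ ι) :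
    ev (∑ i ∈ s, P i) y = ∑ i ∈ s, ev (P i) y := by
  unfold ev
  rw [map_sum]

lemma ev_C (z : ℂ) (y : EuclideanSpace ℝ ι) : ev (MvPolynomial.C z) y = z := by
  unfold ev
  rw [MvPolynomial.eval_C]

lemma ev_X (i : ι) (y : EuclideanSpace ℝ ι) : ev (MvPolynomial.X i) y = (y i : ℂ) := by
  unfold ev
  rw [MvPolynomial.eval_X]

/-- The affine polynomial with coefficients `z0, z`, times `p`. -/
noncomputable def QQ (p : MvPolynomial ι ℝ) (z0 : ℂ) (z : ι → ℂ) : MvPolynomial ι ℂ :=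
  castP p * (MvPolynomial.C z0 + ∑ i, MvPolynomial.C (z i) * MvPolynomial.X i)

lemma ev_QQ (p : MvPolynomial ι ℝ) (z0 : ℂ) (z : ι → ℂ) (y : EuclideanSpace ℝ ι) :
    ev (QQ p z0 z) y = ((MvPolynomial.eval (fun i => y i) p : ℝ) : ℂ) *
      (z0 + ∑ i, (y i : ℂ) * z i) := by
  unfold QQ
  rw [ev_mul, ev_castP, ev_add, ev_C, ev_sum]
  congr 2
  apply Finset.sum_congr rfl
  intro i _
  rw [ev_mul, ev_C, ev_X, mul_comm]

variable [DecidableEq ι]

lemma ev_pderiv_QQ (p : MvPolynomial ι ℝ) (z0 : ℂ) (z : ι → ℂ) (y : EuclideanSpace ℝ ι) (i : ι) :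
    ev (MvPolynomial.pderiv i (QQ p z0 z)) y =
      ((MvPolynomial.eval (fun i => y i) p : ℝ) : ℂ) * z i +
      ((MvPolynomial.eval (fun i => y i) (MvPolynomial.pderiv i p) : ℝ) : ℂ) *
      (z0 + ∑ i, (y i : ℂ) * z i) := by
  unfold QQ
  rw [Derivation.leibniz, smul_eq_mul, smul_eq_mul, ev_add, ev_mul, ev_mul, ev_castP,
    pderiv_castP, ev_castP]
  have h1 : MvPolynomial.pderiv i (MvPolynomial.C z0 +
      ∑ j, MvPolynomial.C (z j) * MvPolynomial.X j) = MvPolynomial.C (z i) := by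
    rw [map_add, MvPolynomial.pderiv_C, zero_add, map_sum, Finset.sum_eq_single i]
    · rw [MvPolynomial.pderiv_C_mul, MvPolynomial.pderiv_X_self, mul_one]
    · intro j _ hj
      rw [MvPolynomial.pderiv_C_mul, MvPolynomial.pderiv_X_of_ne hj, mul_zero]
    · intro h
      exact absurd (Finset.mem_univ i) h
  rw [h1, ev_C]
  have h2 : ev (MvPolynomial.C z0 + ∑ j, MvPolynomial.C (z j) * MvPolynomial.X j) y =
      z0 + ∑ i, (y i : ℂ) * z i := by
    rw [ev_add, ev_C, ev_sum]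
    congr 1
    apply Finset.sum_congr rfl
    intro i _
    rw [ev_mul, ev_C, ev_X, mul_comm]
  rw [h2]
  ring

variable {D : Type} [NormedAddCommGroup D] [InnerProductSpace ℂ D]

/-- The norm identity. -/
lemma norm_J {J : MvPolynomial ι ℂ →ₗ[ℂ] D}
    (hJ : ∀ P Q, inner ℂ (J P) (J Q) = ∫ y, (starRingEnd ℂ)
        (MvPolynomial.eval (fun i => ((y i : ℝ) : ℂ)) P) *
          MvPolynomial.eval (fun i => ((y i : ℝ) : ℂ)) Q ∂stdGaussian (EuclideanSpace ℝ ι))
    (Q : MvPolynomial ι ℂ) :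
    Integrable (fun y => ‖ev Q y‖ ^ 2) (stdGaussian (EuclideanSpace ℝ ι)) ∧
    ‖J Q‖ ^ 2 = ∫ y, ‖ev Q y‖ ^ 2 ∂stdGaussian (EuclideanSpace ℝ ι) := by
  have h1 : ∀ y : EuclideanSpace ℝ ι, ev (cj Q * Q) y = ((‖ev Q y‖ ^ 2 : ℝ) : ℂ) := by
    intro y
    rw [ev_mul, ev_cj, Complex.conj_mul']
    push_cast
    rfl
  have h2 : Integrable (fun y => ‖ev Q y‖ ^ 2) (stdGaussian (EuclideanSpace ℝ ι)) := by
    have h3 := (integrable_ev (cj Q * Q)).re
    refine h3.congr (Filter.Eventually.of_forall fun y => ?_)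
    simp only [RCLike.re_to_complex]
    rw [h1, Complex.ofReal_re]
  refine ⟨h2, ?_⟩
  have h3 := hJ Q Q
  have h4 : ∀ y : EuclideanSpace ℝ ι, (starRingEnd ℂ)
        (MvPolynomial.eval (fun i => ((y i : ℝ) : ℂ)) Q) *
          MvPolynomial.eval (fun i => ((y i : ℝ) : ℂ)) Q = ((‖ev Q y‖ ^ 2 : ℝ) : ℂ) := by
    intro y
    rw [← h1, ev_mul, ev_cj]
    rfl
  simp only [h4] at h3
  have h5 : ∫ y : EuclideanSpace ℝ ι, ((‖ev Q y‖ ^ 2 : ℝ) : ℂ) ∂stdGaussian (EuclideanSpace ℝ ι) =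
      ((∫ y : EuclideanSpace ℝ ι, ‖ev Q y‖ ^ 2 ∂stdGaussian (EuclideanSpace ℝ ι) : ℝ) : ℂ) :=
    integral_ofReal
  rw [h5, inner_self_eq_norm_sq_to_K] at h3
  apply Complex.ofReal_injective
  rw [← h3]
  push_cast
  rfl

lemma enorm_J {J : MvPolynomial ι ℂ →ₗ[ℂ] D}
    (hJ : ∀ P Q, inner ℂ (J P) (J Q) = ∫ y, (starRingEnd ℂ)
        (MvPolynomial.eval (fun i => ((y i : ℝ) : ℂ)) P) *
          MvPolynomial.eval (fun i => ((y i : ℝ) : ℂ)) Q ∂stdGaussian (EuclideanSpace ℝ ι))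
    (Q : MvPolynomial ι ℂ) :
    ENNReal.ofReal (‖J Q‖ ^ 2) =
      ∫⁻ y, ENNReal.ofReal (‖ev Q y‖ ^ 2) ∂stdGaussian (EuclideanSpace ℝ ι) := by
  obtain ⟨h1, h2⟩ := norm_J hJ Q
  rw [h2, ofReal_integral_eq_lintegral_ofReal h1 (Filter.Eventually.of_forall fun y => by positivity)]

end poly

section state

variable {ι : Type} [Fintype ι] [DecidableEq ι] {D : Type} [NormedAddCommGroup D]
  [InnerProductSpace ℂ D] (J : MvPolynomial ι ℂ →ₗ[ℂ] D) (p : MvPolynomial ι ℝ)

lemma J_QQ (z0 : ℂ) (z : ι → ℂ) :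
    J (QQ p z0 z) = z0 • J (castP p) + ∑ i, z i • J (castP p * MvPolynomial.X i) := by
  unfold QQ
  rw [mul_add, map_add, Finset.mul_sum, map_sum]
  congr 1
  · rw [mul_comm, ← MvPolynomial.smul_eq_C_mul, map_smul]
  · apply Finset.sum_congr rfl
    intro i _
    rw [mul_left_comm, ← MvPolynomial.smul_eq_C_mul, map_smul]

variable (u0 : X3 → S2) (u : ι → X3 → S2)

/-- The state. -/
noncomputable def st (x : X3) (s : Fin 2) : D := J (QQ p (u0 x s) fun i => u i x s)

variable {u0 u} (h0 : ContDiff ℝ (⊤ : ℕ∞) u0) (c0 : HasCompactSupport u0)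
  (h : ∀ i, ContDiff ℝ (⊤ : ℕ∞) (u i)) (cc : ∀ i, HasCompactSupport (u i))

lemma contDiff_comp {v : X3 → S2} (hv : ContDiff ℝ (⊤ : ℕ∞) v) (s : Fin 2) :
    ContDiff ℝ (⊤ : ℕ∞) fun x => v x s := contDiff_pi.mp hv s

lemma nice_const {v : X3 → S2} (hv : ContDiff ℝ (⊤ : ℕ∞) v) (cv : HasCompactSupport v)
    (s : Fin 2) (d : D) : Nice fun x => v x s • d := by
  refine ⟨(contDiff_comp hv s).smul contDiff_const, ?_, Submodule.span ℂ {d}, inferInstance,
    fun x => Submodule.smul_mem _ _ (Submodule.mem_span_singleton_self d)⟩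
  exact cv.comp_left (g := fun w : S2 => w s • d) (by simp)

include h0 c0 h cc in
lemma isState_st : IsState (st J p u0 u) := by
  rw [isState_iff]
  intro s
  have : (fun x => st J p u0 u x s) = fun x => u0 x s • J (castP p) +
      ∑ i, u i x s • J (castP p * MvPolynomial.X i) := by
    funext x
    exact J_QQ J p _ _
  rw [this]
  exact (nice_const h0 c0 s _).add (Nice.sum _ fun i _ => nice_const (h i) (cc i) s _)

include h0 h in
lemma fderiv_st (x : X3) (s : Fin 2) (e : X3) :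
    fderiv ℝ (fun x => st J p u0 u x s) x e =
      J (QQ p (fderiv ℝ (fun x => u0 x s) x e) fun i => fderiv ℝ (fun x => u i x s) x e) := by
  have : (fun x => st J p u0 u x s) = fun x => u0 x s • J (castP p) +
      ∑ i, u i x s • J (castP p * MvPolynomial.X i) := by
    funext x
    exact J_QQ J p _ _
  rw [this, J_QQ]
  have d0 : HasFDerivAt (fun x => u0 x s) (fderiv ℝ (fun x => u0 x s) x) x :=
    ((contDiff_comp h0 s).differentiable (by simp) x).hasFDerivAt
  have di : ∀ i, HasFDerivAt (fun x => u i x s) (fderiv ℝ (fun x => u i x s) x) x := fun i =>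
    ((contDiff_comp (h i) s).differentiable (by simp) x).hasFDerivAt
  have d1 := d0.smul_const (J (castP p))
  have d2 := HasFDerivAt.fun_sum (u := Finset.univ) fun i _ =>
    (di i).smul_const (J (castP p * MvPolynomial.X i))
  have d3 := d1.add d2
  rw [show (fun x => u0 x s • J (castP p) + ∑ i, u i x s • J (castP p * MvPolynomial.X i)) =
    (fun x => u0 x s • J (castP p)) + fun x => ∑ i, u i x s • J (castP p * MvPolynomial.X i) from rfl,
    d3.fderiv]
  simp

include h0 h in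
lemma fderiv_wf (y : ι → ℝ) (x : X3) (s : Fin 2) (e : X3) :
    fderiv ℝ (fun x => wf u0 u y x s) x e = fderiv ℝ (fun x => u0 x s) x e +
      ∑ i, (y i : ℂ) * fderiv ℝ (fun x => u i x s) x e := by
  have : (fun x => wf u0 u y x s) = fun x => u0 x s + ∑ i, (y i : ℂ) * u i x s := by
    funext x
    simp [wf]
  rw [this]
  have d0 : HasFDerivAt (fun x => u0 x s) (fderiv ℝ (fun x => u0 x s) x) x :=
    ((contDiff_comp h0 s).differentiable (by simp) x).hasFDerivAt
  have di : ∀ i, HasFDerivAt (fun x => u i x s) (fderiv ℝ (fun x => u i x s) x) x := fun i =>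
    ((contDiff_comp (h i) s).differentiable (by simp) x).hasFDerivAt
  have d2 := HasFDerivAt.fun_sum (u := Finset.univ) fun i _ => (di i).const_mul (y i : ℂ)
  have d3 := d0.add d2
  rw [show (fun x => u0 x s + ∑ i, (y i : ℂ) * u i x s) =
    (fun x => u0 x s) + fun x => ∑ i, (y i : ℂ) * u i x s from rfl, d3.fderiv]
  simp

end state

end Pool.Agent.Helper49_Pauli.Asm
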