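import Pool.Agent.Helper41_Pauli.AsmEst
import Pool.Agent.Helper75_Pauli.Poly

/-!
# Module ASSEMBLE
-/

open MeasureTheory Complex ProbabilityTheory

set_option linter.unusedSectionVars false

namespace Pool.Agent.Helper49_Pauli.Asm

open Pool.Agent.Helper61_Pauli (ev cj ev_cj integrable_ev)

lemma integral_le_of_lint {α : Type} [MeasurableSpace α] {μ : Measure α} {f : α → ℝ}
    (hf : ∀ x, 0 ≤ f x) {c : ℝ} (hc : 0 ≤ c)
    (h : ∫⁻ x, ENNReal.ofReal (f x) ∂μ ≤ ENNReal.ofReal c) : ∫ x, f x ∂μ ≤ c := by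
  by_cases hi : Integrable f μ
  · rw [← ofReal_integral_eq_lintegral_ofReal hi (Filter.Eventually.of_forall hf)] at h
    exact (ENNReal.ofReal_le_ofReal_iff hc).mp h
  · rw [integral_undef hi]
    exact hc

/-- Quadratic triangle inequality. -/
lemma lint_quad {α : Type} [MeasurableSpace α] {μ : Measure α} {f1 f2 f3 : α → ℝ}
    (m2 : Measurable f2) (h2 : ∀ z, 0 ≤ f2 z) (h3 : ∀ z, 0 ≤ f3 z)
    (h : ∀ z, f1 z ≤ 2 * f2 z + 2 * f3 z) :
    ∫⁻ z, ENNReal.ofReal (f1 z) ∂μ ≤
      2 * ∫⁻ z, ENNReal.ofReal (f2 z) ∂μ + 2 * ∫⁻ z, ENNReal.ofReal (f3 z) ∂μ := by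
  have e : ∀ z, ENNReal.ofReal (f1 z) ≤ 2 * ENNReal.ofReal (f2 z) + 2 * ENNReal.ofReal (f3 z) := by
    intro z
    refine (ENNReal.ofReal_le_ofReal (h z)).trans (le_of_eq ?_)
    rw [ENNReal.ofReal_add (by linarith [h2 z]) (by linarith [h3 z]),
      ENNReal.ofReal_mul (by norm_num), ENNReal.ofReal_mul (by norm_num)]
    simp
  calc ∫⁻ z, ENNReal.ofReal (f1 z) ∂μ
      ≤ ∫⁻ z, (2 * ENNReal.ofReal (f2 z) + 2 * ENNReal.ofReal (f3 z)) ∂μ := lintegral_mono e
    _ = (∫⁻ z, 2 * ENNReal.ofReal (f2 z) ∂μ) + ∫⁻ z, 2 * ENNReal.ofReal (f3 z) ∂μ :=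
        lintegral_add_left (m2.ennreal_ofReal.const_mul 2) _
    _ = _ := by
        rw [lintegral_const_mul' 2 _ (by simp), lintegral_const_mul' 2 _ (by simp)]

section main

variable {ι : Type} [Fintype ι] [DecidableEq ι] {D : Type} [NormedAddCommGroup D]
  [InnerProductSpace ℂ D] {J : MvPolynomial ι ℂ →ₗ[ℂ] D} {p : MvPolynomial ι ℝ}
  (k c : ι → X3) (θ : ι → ℝ) {u0 : X3 → S2} {u : ι → X3 → S2} (alpha : ℝ)
  (h0 : ContDiff ℝ (⊤ : ℕ∞) u0) (c0 : HasCompactSupport u0)
  (h : ∀ i, ContDiff ℝ (⊤ : ℕ∞) (u i)) (cc : ∀ i, HasCompactSupport (u i))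
  (hJ : ∀ P Q, inner ℂ (J P) (J Q) = ∫ y, (starRingEnd ℂ)
        (MvPolynomial.eval (fun i => ((y i : ℝ) : ℂ)) P) *
          MvPolynomial.eval (fun i => ((y i : ℝ) : ℂ)) Q ∂stdGaussian (EuclideanSpace ℝ ι))

/-- Evaluation of the polynomial. -/
noncomputable def pe (p : MvPolynomial ι ℝ) (y : EuclideanSpace ℝ ι) : ℝ :=
  MvPolynomial.eval (fun i => y i) p

lemma continuous_pe (p : MvPolynomial ι ℝ) : Continuous (pe p) := by
  unfold pe
  exact (MvPolynomial.continuous_eval p).comp (by fun_prop)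

/-- The product measure. -/
noncomputable abbrev mu (ι : Type) [Fintype ι] : Measure (EuclideanSpace ℝ ι × X3) :=
  (stdGaussian (EuclideanSpace ℝ ι)).prod volume

include hJ in
/-- Sum over the spin, one polynomial for each spin component. -/
lemma lint_spin (Q : X3 → Fin 2 → MvPolynomial ι ℂ) (f : EuclideanSpace ℝ ι × X3 → ℝ)
    (hf : Measurable f) (hQ : ∀ y x, ∑ s, ‖ev (Q x s) y‖ ^ 2 = f (y, x)) :
    ∫⁻ x, ENNReal.ofReal (∑ s, ‖J (Q x s)‖ ^ 2) = ∫⁻ z, ENNReal.ofReal (f z) ∂(mu ι) := by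
  rw [lintegral_prod_symm _ hf.ennreal_ofReal.aemeasurable]
  congr 1
  funext x
  rw [ENNReal.ofReal_sum_of_nonneg (fun s _ => by positivity)]
  rw [Finset.sum_congr rfl (fun s _ => enorm_J hJ (Q x s)), ← lintegral_finsetSum']
  · congr 1
    funext y
    rw [← hQ, ENNReal.ofReal_sum_of_nonneg (fun s _ => by positivity)]
  · intro s _
    have h1 := (norm_J hJ (Q x s)).1
    exact h1.aestronglyMeasurable.aemeasurable.ennreal_ofReal

include h0 h hJ in
lemma lint_norm : ∫⁻ x, ENNReal.ofReal (∑ s, ‖st J p u0 u x s‖ ^ 2) =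
    ∫⁻ z, ENNReal.ofReal (pe p z.1 ^ 2 * nsq (wf u0 u (fun i => z.1 i) z.2)) ∂(mu ι) := by
  refine lint_spin hJ (fun x s => QQ p (u0 x s) fun i => u i x s) _ ?_ ?_
  · have h1 := continuous_wf2 h0 h
    have h2 := continuous_pe p
    exact (((h2.comp continuous_fst).pow 2).mul (continuous_nsq.comp h1)).measurable
  · intro y x
    unfold nsq
    rw [Finset.mul_sum]
    apply Finset.sum_congr rfl
    intro s _
    rw [ev_QQ, norm_mul, mul_pow, Complex.norm_real, Real.norm_eq_abs, sq_abs]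
    unfold pe wf
    simp

variable {cut L : ℝ} (F : Bosons (Mode cut L) D) (P : Polarization L) (G : Bosons ι D)
  (hJX : ∀ i P, J (MvPolynomial.X i * P) = G.a i (J P) + G.ad i (J P))
  (hpot : ∀ x j v, potential F P x j v = ∑ i,
        ((Real.cos (dot (k i) x - θ i) * c i j / Real.sqrt (2 * Real.sqrt (sq (k i))) : ℝ) : ℂ) •
          (G.a i v + G.ad i v))
  (hJa : ∀ i P, G.a i (J P) = J (MvPolynomial.pderiv i P))
  (hfe : ∀ v, fieldEnergy F v = ∑ i, (Real.sqrt (sq (k i)) : ℂ) • G.ad i (G.a i v))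

include h0 h hJ hJX hpot in
lemma lint_dirac : ∫⁻ x, ENNReal.ofReal (∑ s, ‖dirac alpha F P (st J p u0 u) x s‖ ^ 2) =
    ∫⁻ z, ENNReal.ofReal (pe p z.1 ^ 2 * nsq (dop (vp alpha k c θ (fun i => z.1 i))
      (wf u0 u (fun i => z.1 i)) z.2)) ∂(mu ι) := by
  simp only [dirac_st J p k c θ alpha h0 h F P G hJX hpot]
  refine lint_spin hJ (fun x s => RR p k c θ u0 u alpha x s) _ ?_ ?_
  · have h1 := continuous_dop2 k c θ alpha h0 h
    have h2 := continuous_pe p
    exact (((h2.comp continuous_fst).pow 2).mul (continuous_nsq.comp h1)).measurable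
  · intro y x
    unfold nsq
    rw [Finset.mul_sum]
    apply Finset.sum_congr rfl
    intro s _
    rw [ev_RR p k c θ alpha h0 h, norm_mul, mul_pow, Complex.norm_real, Real.norm_eq_abs, sq_abs]
    rfl

/-- The photon energy integrand. -/
noncomputable def phn (a : EuclideanSpace ℝ ι → ℝ) (b : EuclideanSpace ℝ ι → ι → ℝ)
    (u0 : X3 → S2) (u : ι → X3 → S2) (z : EuclideanSpace ℝ ι × X3) : ℝ :=
  ∑ i, Real.sqrt (sq (k i)) *
    nsq ((a z.1 : ℂ) • u i z.2 + (b z.1 i : ℂ) • wf u0 u (fun i => z.1 i) z.2)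

lemma phn_nonneg (a : EuclideanSpace ℝ ι → ℝ) (b : EuclideanSpace ℝ ι → ι → ℝ)
    (z : EuclideanSpace ℝ ι × X3) : 0 ≤ phn k a b u0 u z :=
  Finset.sum_nonneg fun _ _ => mul_nonneg (Real.sqrt_nonneg _) (nsq_nonneg _)

include h0 h in
lemma continuous_phn {a : EuclideanSpace ℝ ι → ℝ} (ha : Continuous a)
    {b : EuclideanSpace ℝ ι → ι → ℝ} (hb : ∀ i, Continuous fun y => b y i) :
    Continuous (phn k a b u0 u) := by
  unfold phn
  refine continuous_finsetSum _ fun i _ => continuous_const.mul (continuous_nsq.comp ?_)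
  have h1 : Continuous fun z : EuclideanSpace ℝ ι × X3 => u i z.2 :=
    (h i).continuous.comp continuous_snd
  have h2 : Continuous fun z : EuclideanSpace ℝ ι × X3 => ((a z.1 : ℝ) : ℂ) :=
    Complex.continuous_ofReal.comp (ha.comp continuous_fst)
  have h3 : Continuous fun z : EuclideanSpace ℝ ι × X3 => ((b z.1 i : ℝ) : ℂ) :=
    Complex.continuous_ofReal.comp ((hb i).comp continuous_fst)
  exact (h2.smul h1).add (h3.smul (continuous_wf2 h0 h))

include h0 h hJ hJa hfe in
lemma lint_field : ∫⁻ x, ENNReal.ofReal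
      (∑ s, (inner ℂ (st J p u0 u x s) (fieldEnergy F (st J p u0 u x s))).re) =
    ∫⁻ z, ENNReal.ofReal (phn k (pe p) (fun y i => pe (MvPolynomial.pderiv i p) y) u0 u z)
      ∂(mu ι) := by
  have hcont := continuous_phn (u0 := u0) (u := u) k h0 h (a := pe p)
    (b := fun y i => pe (MvPolynomial.pderiv i p) y) (continuous_pe p)
    (fun i => continuous_pe _)
  rw [lintegral_prod_symm _ hcont.measurable.ennreal_ofReal.aemeasurable]
  congr 1
  funext x
  have e1 : ∀ s, (inner ℂ (st J p u0 u x s) (fieldEnergy F (st J p u0 u x s))).re =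
      ∑ i, Real.sqrt (sq (k i)) *
        ‖J (MvPolynomial.pderiv i (QQ p (u0 x s) fun i => u i x s))‖ ^ 2 := fun s =>
    fieldEnergy_J J k F G hJa hfe _
  simp only [e1]
  have hpos : ∀ s i, 0 ≤ Real.sqrt (sq (k i)) *
        ‖J (MvPolynomial.pderiv i (QQ p (u0 x s) fun i => u i x s))‖ ^ 2 := fun s i => by
    positivity
  rw [ENNReal.ofReal_sum_of_nonneg (fun s _ => Finset.sum_nonneg fun i _ => hpos s i)]
  have e2 : ∀ s i, ENNReal.ofReal (Real.sqrt (sq (k i)) *
        ‖J (MvPolynomial.pderiv i (QQ p (u0 x s) fun i => u i x s))‖ ^ 2) =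
      ∫⁻ y, ENNReal.ofReal (Real.sqrt (sq (k i)) *
        ‖ev (MvPolynomial.pderiv i (QQ p (u0 x s) fun i => u i x s)) y‖ ^ 2)
        ∂stdGaussian (EuclideanSpace ℝ ι) := by
    intro s i
    rw [ENNReal.ofReal_mul (Real.sqrt_nonneg _), enorm_J hJ, ← lintegral_const_mul' _ _ (by simp)]
    congr 1
    funext y
    rw [ENNReal.ofReal_mul (Real.sqrt_nonneg _)]
  have hm : ∀ s i, AEMeasurable (fun y => ENNReal.ofReal (Real.sqrt (sq (k i)) *
        ‖ev (MvPolynomial.pderiv i (QQ p (u0 x s) fun i => u i x s)) y‖ ^ 2))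
        (stdGaussian (EuclideanSpace ℝ ι)) := by
    intro s i
    have h1 := (norm_J hJ (MvPolynomial.pderiv i (QQ p (u0 x s) fun i => u i x s))).1
    exact (h1.aestronglyMeasurable.aemeasurable.const_mul _).ennreal_ofReal
  have e3 : ∀ s, ENNReal.ofReal (∑ i, Real.sqrt (sq (k i)) *
        ‖J (MvPolynomial.pderiv i (QQ p (u0 x s) fun i => u i x s))‖ ^ 2) =
      ∫⁻ y, ∑ i, ENNReal.ofReal (Real.sqrt (sq (k i)) *
        ‖ev (MvPolynomial.pderiv i (QQ p (u0 x s) fun i => u i x s)) y‖ ^ 2)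
        ∂stdGaussian (EuclideanSpace ℝ ι) := by
    intro s
    rw [ENNReal.ofReal_sum_of_nonneg (fun i _ => hpos s i), lintegral_finsetSum' _ (fun i _ => hm s i)]
    exact Finset.sum_congr rfl fun i _ => e2 s i
  rw [Finset.sum_congr rfl (fun s _ => e3 s), ← lintegral_finsetSum' _ (fun s _ =>
    Finset.aemeasurable_fun_sum _ fun i _ => hm s i)]
  congr 1
  funext y
  have e4 : ∀ s, ∑ i, ENNReal.ofReal (Real.sqrt (sq (k i)) *
        ‖ev (MvPolynomial.pderiv i (QQ p (u0 x s) fun i => u i x s)) y‖ ^ 2) =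
      ENNReal.ofReal (∑ i, Real.sqrt (sq (k i)) *
        ‖ev (MvPolynomial.pderiv i (QQ p (u0 x s) fun i => u i x s)) y‖ ^ 2) := by
    intro s
    rw [ENNReal.ofReal_sum_of_nonneg (fun i _ => by positivity)]
  rw [Finset.sum_congr rfl (fun s _ => e4 s), ← ENNReal.ofReal_sum_of_nonneg
    (fun s _ => Finset.sum_nonneg fun i _ => by positivity)]
  congr 1
  unfold phn nsq
  rw [Finset.sum_comm]
  apply Finset.sum_congr rfl
  intro i _
  rw [Finset.mul_sum]
  apply Finset.sum_congr rfl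
  intro s _
  congr 2
  rw [ev_pderiv_QQ]
  unfold pe wf
  simp [mul_add]

end main

end Pool.Agent.Helper49_Pauli.Asm

namespace Pool.Agent.Helper49_Pauli

open Asm in
/-- Module ASSEMBLE. -/
theorem assemble : AssembleStatement := by
  intro cut L alpha hL halpha P D _ _ F ι _ _ G k c θ hk hpot hfe K η hK hKpos u0 u h0 c0 h cc
    M N hM hN H1 H2 H3
  obtain ⟨J, hJ1, hJX, hJa, hJ⟩ := Pool.Agent.Helper61_Pauli.fock ι D G
  obtain ⟨C1, hC1, hB1⟩ := nsq_dop_le k c θ alpha h0 h
  obtain ⟨C2, hC2, hB2⟩ := nsq_ph_le (u0 := u0) (u := u) k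
  set n1 : ℝ := 2 * (Fintype.card ι + 1) with hn1
  have hn1' : 0 ≤ n1 := by positivity
  set Cc : ℝ := n1 + C1 + C2 with hCc
  have hCc0 : 0 ≤ Cc := by positivity
  have hgi := integrable_gg h0 c0 h cc
  set Ig : ℝ := ∫ x, gg u0 u x with hIg
  have hIg0 : 0 ≤ Ig := integral_nonneg fun x => gg_nonneg u0 u x
  set κ : ℝ := Cc * Ig with hκ
  have hκ0 : 0 ≤ κ := by positivity
  set ε : ℝ := min M 1 * N / (4 * (κ + 1)) with hε
  have hmin : 0 < min M 1 := lt_min hM one_pos
  have hε0 : 0 < ε := by positivity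
  have hκε : κ * ε ≤ min M 1 * N / 4 := by
    have e1 : (κ + 1) * ε = min M 1 * N / 4 := by
      rw [hε]
      field_simp
    nlinarith
  have hκε1 : κ * ε ≤ N / 4 := by
    have := min_le_right M 1
    nlinarith
  have hκε2 : κ * ε ≤ M * N / 4 := by
    have := min_le_left M 1
    nlinarith
  obtain ⟨p, hp⟩ := Pool.Agent.Helper75_Pauli.poly ι K η 2 ε hε0 hK hKpos
  -- functions of the field configuration
  set Θ : EuclideanSpace ℝ ι → ℝ := fun y => squeezed K η (fun i => y i) with hΘ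
  set Λ : EuclideanSpace ℝ ι → ι → ℝ := fun y i => ldq K η (fun i => y i) i with hΛ
  have hΘc : Continuous Θ := by
    simp only [hΘ]
    unfold squeezed quad
    fun_prop
  have hΛc : ∀ i, Continuous fun y => Λ y i := by
    intro i
    simp only [hΛ]
    unfold ldq
    fun_prop
  have hpc := continuous_pe p
  have hpdc : ∀ i, Continuous (pe (MvPolynomial.pderiv i p)) := fun i => continuous_pe _
  set err : EuclideanSpace ℝ ι → ℝ := fun y => (1 + ‖y‖ ^ 2) ^ 2 *
    ((pe p y - Θ y) ^ 2 + ∑ i, (pe (MvPolynomial.pderiv i p) y - Θ y * Λ y i) ^ 2) with herr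
  have herr0 : ∀ y, 0 ≤ err y := fun y => by
    simp only [herr]
    positivity
  have herrc : Continuous err := by
    simp only [herr]
    refine (by fun_prop : Continuous fun y : EuclideanSpace ℝ ι => (1 + ‖y‖ ^ 2) ^ 2).mul ?_
    refine ((hpc.sub hΘc).pow 2).add (continuous_finsetSum _ fun i _ => ?_)
    exact ((hpdc i).sub (hΘc.mul (hΛc i))).pow 2
  have hp' : ∫⁻ y, ENNReal.ofReal (err y) ∂stdGaussian (EuclideanSpace ℝ ι) ≤
      ENNReal.ofReal ε := hp.le
  -- the error term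
  have hErr : ∀ f : EuclideanSpace ℝ ι × X3 → ℝ,
      (∀ z, f z ≤ Cc * (err z.1 * gg u0 u z.2)) →
      ∫⁻ z, ENNReal.ofReal (f z) ∂(mu ι) ≤ ENNReal.ofReal (κ * ε) := by
    intro f hf
    calc ∫⁻ z, ENNReal.ofReal (f z) ∂(mu ι)
        ≤ ∫⁻ z : EuclideanSpace ℝ ι × X3, ENNReal.ofReal (err z.1) *
            ENNReal.ofReal (Cc * gg u0 u z.2) ∂(mu ι) := by
          apply lintegral_mono
          intro z
          simp only
          rw [← ENNReal.ofReal_mul (herr0 _)]
          apply ENNReal.ofReal_le_ofReal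
          refine (hf z).trans (le_of_eq ?_)
          ring
      _ = (∫⁻ y, ENNReal.ofReal (err y) ∂stdGaussian (EuclideanSpace ℝ ι)) *
            ∫⁻ x, ENNReal.ofReal (Cc * gg u0 u x) := by
          rw [lintegral_prod_mul (f := fun y => ENNReal.ofReal (err y))
            (g := fun x => ENNReal.ofReal (Cc * gg u0 u x))
            herrc.measurable.ennreal_ofReal.aemeasurable
            ((hgi.const_mul Cc).aestronglyMeasurable.aemeasurable.ennreal_ofReal)]
      _ ≤ ENNReal.ofReal ε * ENNReal.ofReal κ := by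
          refine mul_le_mul' hp' (le_of_eq ?_)
          rw [← ofReal_integral_eq_lintegral_ofReal (hgi.const_mul Cc)
            (Filter.Eventually.of_forall fun x => mul_nonneg hCc0 (gg_nonneg u0 u x)),
            integral_const_mul]
      _ = ENNReal.ofReal (κ * ε) := by
          rw [← ENNReal.ofReal_mul hε0.le, mul_comm]
  -- the state
  have hst : IsState (st J p u0 u) := isState_st J p h0 c0 h cc
  refine ⟨st J p u0 u, hst, ?_⟩
  have hY1 : ∀ y : EuclideanSpace ℝ ι, 1 ≤ (1 + ‖y‖ ^ 2) := fun y => by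
    nlinarith [sq_nonneg ‖y‖]
  have cw := continuous_wf2 (u0 := u0) (u := u) h0 h
  have cd := continuous_dop2 k c θ alpha h0 h
  have cΘ1 : Continuous fun z : EuclideanSpace ℝ ι × X3 => Θ z.1 := hΘc.comp continuous_fst
  have cp1 : Continuous fun z : EuclideanSpace ℝ ι × X3 => pe p z.1 := hpc.comp continuous_fst
  -- lower bound for the norm
  have hnorm : N / 4 ≤ normSq (st J p u0 u) := by
    have e1 : ENNReal.ofReal (normSq (st J p u0 u)) =
        ∫⁻ z, ENNReal.ofReal (pe p z.1 ^ 2 * nsq (wf u0 u (fun i => z.1 i) z.2)) ∂(mu ι) := by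
      rw [← lint_norm h0 h hJ]
      unfold normSq
      rw [ofReal_integral_eq_lintegral_ofReal _ (Filter.Eventually.of_forall fun x =>
        Finset.sum_nonneg fun s _ => by positivity)]
      refine integrable_finsetSum _ fun s _ => ?_
      rw [isState_iff] at hst
      have h1 := hst s
      refine Continuous.integrable_of_hasCompactSupport (h1.1.continuous.norm.pow 2) ?_
      exact h1.2.1.comp_left (g := fun d : D => ‖d‖ ^ 2) (by simp)
    have e2 : ENNReal.ofReal N ≤
        ∫⁻ z, ENNReal.ofReal (Θ z.1 ^ 2 * nsq (wf u0 u (fun i => z.1 i) z.2)) ∂(mu ι) := by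
      refine H3.trans (le_of_eq ?_)
      exact (lintegral_prod (fun z : EuclideanSpace ℝ ι × X3 => ENNReal.ofReal (Θ z.1 ^ 2 *
        nsq (wf u0 u (fun i => z.1 i) z.2))) ((cΘ1.pow 2).mul
        (continuous_nsq.comp cw)).measurable.ennreal_ofReal.aemeasurable).symm
    have e3 := lint_quad (μ := mu ι)
      (f1 := fun z => Θ z.1 ^ 2 * nsq (wf u0 u (fun i => z.1 i) z.2))
      (f2 := fun z => pe p z.1 ^ 2 * nsq (wf u0 u (fun i => z.1 i) z.2))
      (f3 := fun z => (pe p z.1 - Θ z.1) ^ 2 * nsq (wf u0 u (fun i => z.1 i) z.2))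
      ((cp1.pow 2).mul (continuous_nsq.comp cw)).measurable
      (fun z => mul_nonneg (sq_nonneg _) (nsq_nonneg _))
      (fun z => mul_nonneg (sq_nonneg _) (nsq_nonneg _)) (by
        intro z
        have h1 := nsq_nonneg (wf u0 u (fun i => z.1 i) z.2)
        have h2 : Θ z.1 ^ 2 ≤ 2 * pe p z.1 ^ 2 + 2 * (pe p z.1 - Θ z.1) ^ 2 := by
          nlinarith [sq_nonneg (2 * pe p z.1 - Θ z.1)]
        nlinarith)
    have e4 := hErr (fun z => (pe p z.1 - Θ z.1) ^ 2 * nsq (wf u0 u (fun i => z.1 i) z.2)) (by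
      intro z
      have h1 := nsq_wf_le (u0 := u0) (u := u) z.1 z.2
      have hg := gg_nonneg u0 u z.2
      have h2 : (pe p z.1 - Θ z.1) ^ 2 ≤ (pe p z.1 - Θ z.1) ^ 2 +
          ∑ i, (pe (MvPolynomial.pderiv i p) z.1 - Θ z.1 * Λ z.1 i) ^ 2 := by
        have : 0 ≤ ∑ i, (pe (MvPolynomial.pderiv i p) z.1 - Θ z.1 * Λ z.1 i) ^ 2 :=
          Finset.sum_nonneg fun i _ => sq_nonneg _
        linarith
      have h3 := hY1 z.1
      calc (pe p z.1 - Θ z.1) ^ 2 * nsq (wf u0 u (fun i => z.1 i) z.2)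
          ≤ ((pe p z.1 - Θ z.1) ^ 2 +
            ∑ i, (pe (MvPolynomial.pderiv i p) z.1 - Θ z.1 * Λ z.1 i) ^ 2) *
            (n1 * (1 + ‖z.1‖ ^ 2) * gg u0 u z.2) :=
            mul_le_mul h2 h1 (nsq_nonneg _) (by positivity)
        _ ≤ ((pe p z.1 - Θ z.1) ^ 2 +
            ∑ i, (pe (MvPolynomial.pderiv i p) z.1 - Θ z.1 * Λ z.1 i) ^ 2) *
            (Cc * (1 + ‖z.1‖ ^ 2) ^ 2 * gg u0 u z.2) := by
            gcongr
            · rw [hCc]
              linarith
            · exact le_self_pow₀ h3 (by norm_num)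
        _ = _ := by
            simp only [herr]
            ring)
    rw [← e1] at e3
    have e5 : ENNReal.ofReal N ≤ ENNReal.ofReal (2 * normSq (st J p u0 u) + 2 * (κ * ε)) := by
      have hns : 0 ≤ normSq (st J p u0 u) := integral_nonneg fun x =>
        Finset.sum_nonneg fun s _ => by positivity
      rw [ENNReal.ofReal_add (by positivity) (by positivity), ENNReal.ofReal_mul (by norm_num),
        ENNReal.ofReal_mul (by norm_num)]
      refine e2.trans (e3.trans ?_)
      simp only [ENNReal.ofReal_ofNat]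
      gcongr
    have hns : 0 ≤ normSq (st J p u0 u) := integral_nonneg fun x =>
      Finset.sum_nonneg fun s _ => by positivity
    rw [ENNReal.ofReal_le_ofReal_iff (by positivity)] at e5
    linarith
  refine ⟨by linarith, ?_⟩
  -- the energy
  rw [symm cut L hL P alpha halpha D F _ hst]
  have hMN : 0 < M * N := by positivity
  have hR1 : ∫ x, ∑ s, ‖dirac alpha F P (st J p u0 u) x s‖ ^ 2 ≤ 2 * (M * N) + 2 * (κ * ε) := by
    apply integral_le_of_lint (fun x => Finset.sum_nonneg fun s _ => by positivity) (by positivity)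
    rw [lint_dirac k c θ alpha h0 h hJ F P G hJX hpot]
    have e2 : ∫⁻ z, ENNReal.ofReal (Θ z.1 ^ 2 * nsq (dop (vp alpha k c θ (fun i => z.1 i))
        (wf u0 u (fun i => z.1 i)) z.2)) ∂(mu ι) ≤ ENNReal.ofReal (M * N) := by
      refine le_trans (le_of_eq ?_) H1
      exact lintegral_prod (fun z : EuclideanSpace ℝ ι × X3 => ENNReal.ofReal (Θ z.1 ^ 2 *
        nsq (dop (vp alpha k c θ (fun i => z.1 i)) (wf u0 u (fun i => z.1 i)) z.2)))
        ((cΘ1.pow 2).mul (continuous_nsq.comp cd)).measurable.ennreal_ofReal.aemeasurable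
    have e3 := lint_quad (μ := mu ι)
      (f1 := fun z => pe p z.1 ^ 2 * nsq (dop (vp alpha k c θ (fun i => z.1 i))
        (wf u0 u (fun i => z.1 i)) z.2))
      (f2 := fun z => Θ z.1 ^ 2 * nsq (dop (vp alpha k c θ (fun i => z.1 i))
        (wf u0 u (fun i => z.1 i)) z.2))
      (f3 := fun z => (pe p z.1 - Θ z.1) ^ 2 * nsq (dop (vp alpha k c θ (fun i => z.1 i))
        (wf u0 u (fun i => z.1 i)) z.2))
      ((cΘ1.pow 2).mul (continuous_nsq.comp cd)).measurable
      (fun z => mul_nonneg (sq_nonneg _) (nsq_nonneg _))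
      (fun z => mul_nonneg (sq_nonneg _) (nsq_nonneg _)) (by
        intro z
        have h1 := nsq_nonneg (dop (vp alpha k c θ (fun i => z.1 i))
          (wf u0 u (fun i => z.1 i)) z.2)
        have h2 : pe p z.1 ^ 2 ≤ 2 * Θ z.1 ^ 2 + 2 * (pe p z.1 - Θ z.1) ^ 2 := by
          nlinarith [sq_nonneg (pe p z.1 - 2 * Θ z.1)]
        nlinarith)
    have e4 := hErr (fun z => (pe p z.1 - Θ z.1) ^ 2 * nsq (dop (vp alpha k c θ (fun i => z.1 i))
        (wf u0 u (fun i => z.1 i)) z.2)) (by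
      intro z
      have h1 := hB1 z.1 z.2
      have hg := gg_nonneg u0 u z.2
      have h2 : (pe p z.1 - Θ z.1) ^ 2 ≤ (pe p z.1 - Θ z.1) ^ 2 +
          ∑ i, (pe (MvPolynomial.pderiv i p) z.1 - Θ z.1 * Λ z.1 i) ^ 2 := by
        have : 0 ≤ ∑ i, (pe (MvPolynomial.pderiv i p) z.1 - Θ z.1 * Λ z.1 i) ^ 2 :=
          Finset.sum_nonneg fun i _ => sq_nonneg _
        linarith
      calc (pe p z.1 - Θ z.1) ^ 2 * nsq (dop (vp alpha k c θ (fun i => z.1 i))
            (wf u0 u (fun i => z.1 i)) z.2)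
          ≤ ((pe p z.1 - Θ z.1) ^ 2 +
            ∑ i, (pe (MvPolynomial.pderiv i p) z.1 - Θ z.1 * Λ z.1 i) ^ 2) *
            (C1 * ((1 + ‖z.1‖ ^ 2) ^ 2 * gg u0 u z.2)) :=
            mul_le_mul h2 h1 (nsq_nonneg _) (by positivity)
        _ ≤ ((pe p z.1 - Θ z.1) ^ 2 +
            ∑ i, (pe (MvPolynomial.pderiv i p) z.1 - Θ z.1 * Λ z.1 i) ^ 2) *
            (Cc * ((1 + ‖z.1‖ ^ 2) ^ 2 * gg u0 u z.2)) := by
            gcongr
            rw [hCc]
            linarith
        _ = _ := by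
            simp only [herr]
            ring)
    refine e3.trans ?_
    rw [ENNReal.ofReal_add (by positivity) (by positivity), ENNReal.ofReal_mul (by norm_num),
      ENNReal.ofReal_mul (q := κ * ε) (by norm_num)]
    simp only [ENNReal.ofReal_ofNat]
    gcongr
  have hR2 : ∫ x, ∑ s, (inner ℂ (st J p u0 u x s) (fieldEnergy F (st J p u0 u x s))).re ≤
      2 * (M * N) + 2 * (κ * ε) := by
    apply integral_le_of_lint _ (by positivity)
    · rw [lint_field k h0 h hJ F G hJa hfe]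
      have cf := continuous_phn (u0 := u0) (u := u) k h0 h (a := Θ)
        (b := fun y i => Θ y * Λ y i) hΘc (fun i => hΘc.mul (hΛc i))
      have e2 : ∫⁻ z, ENNReal.ofReal (phn k Θ (fun y i => Θ y * Λ y i) u0 u z) ∂(mu ι) ≤
          ENNReal.ofReal (M * N) := by
        refine le_trans (le_of_eq ?_) H2
        rw [lintegral_prod _ cf.measurable.ennreal_ofReal.aemeasurable]
        congr 1
        funext y
        congr 1
        funext x
        congr 1
        unfold phn
        rw [Finset.mul_sum]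
        apply Finset.sum_congr rfl
        intro i _
        have e5 : ((Θ y : ℝ) : ℂ) • u i x + ((Θ y * Λ y i : ℝ) : ℂ) • wf u0 u (fun i => y i) x =
            ((Θ y : ℝ) : ℂ) • (u i x + ((Λ y i : ℝ) : ℂ) • wf u0 u (fun i => y i) x) := by
          rw [smul_add, smul_smul, Complex.ofReal_mul]
        simp only
        rw [e5, nsq_smul, Complex.norm_real, Real.norm_eq_abs, sq_abs]
        ring
      have e3 := lint_quad (μ := mu ι)
        (f1 := phn k (pe p) (fun y i => pe (MvPolynomial.pderiv i p) y) u0 u)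
        (f2 := phn k Θ (fun y i => Θ y * Λ y i) u0 u)
        (f3 := phn k (fun y => pe p y - Θ y)
          (fun y i => pe (MvPolynomial.pderiv i p) y - Θ y * Λ y i) u0 u)
        cf.measurable (phn_nonneg k _ _) (phn_nonneg k _ _) (by
          intro z
          unfold phn
          rw [Finset.mul_sum, Finset.mul_sum, ← Finset.sum_add_distrib]
          apply Finset.sum_le_sum
          intro i _
          have h1 : ((pe p z.1 : ℝ) : ℂ) • u i z.2 +
              ((pe (MvPolynomial.pderiv i p) z.1 : ℝ) : ℂ) • wf u0 u (fun i => z.1 i) z.2 =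
              (((Θ z.1 : ℝ) : ℂ) • u i z.2 +
                ((Θ z.1 * Λ z.1 i : ℝ) : ℂ) • wf u0 u (fun i => z.1 i) z.2) +
              (((pe p z.1 - Θ z.1 : ℝ) : ℂ) • u i z.2 +
                ((pe (MvPolynomial.pderiv i p) z.1 - Θ z.1 * Λ z.1 i : ℝ) : ℂ) •
                  wf u0 u (fun i => z.1 i) z.2) := by
            push_cast
            module
          rw [h1]
          have h2 := nsq_add_le (((Θ z.1 : ℝ) : ℂ) • u i z.2 +
                ((Θ z.1 * Λ z.1 i : ℝ) : ℂ) • wf u0 u (fun i => z.1 i) z.2)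
              (((pe p z.1 - Θ z.1 : ℝ) : ℂ) • u i z.2 +
                ((pe (MvPolynomial.pderiv i p) z.1 - Θ z.1 * Λ z.1 i : ℝ) : ℂ) •
                  wf u0 u (fun i => z.1 i) z.2)
          have h3 := Real.sqrt_nonneg (sq (k i))
          have h4 := mul_le_mul_of_nonneg_left h2 h3
          refine h4.trans (le_of_eq ?_)
          ring)
      have e4 := hErr (phn k (fun y => pe p y - Θ y)
          (fun y i => pe (MvPolynomial.pderiv i p) y - Θ y * Λ y i) u0 u) (by
        intro z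
        have h1 := hB2 z.1 z.2 (pe p z.1 - Θ z.1)
          (fun i => pe (MvPolynomial.pderiv i p) z.1 - Θ z.1 * Λ z.1 i)
        have hg := gg_nonneg u0 u z.2
        refine h1.trans ?_
        have h2 : C2 ≤ Cc := by
          rw [hCc]
          linarith
        have h3 : (1 + ‖z.1‖ ^ 2) ^ 2 * ((pe p z.1 - Θ z.1) ^ 2 +
            ∑ i, (pe (MvPolynomial.pderiv i p) z.1 - Θ z.1 * Λ z.1 i) ^ 2) * gg u0 u z.2 =
            err z.1 * gg u0 u z.2 := by
          simp only [herr]
        rw [h3]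
        exact mul_le_mul_of_nonneg_right h2 (mul_nonneg (herr0 _) hg))
      refine e3.trans ?_
      rw [ENNReal.ofReal_add (by positivity) (by positivity), ENNReal.ofReal_mul (by norm_num),
        ENNReal.ofReal_mul (q := κ * ε) (by norm_num)]
      simp only [ENNReal.ofReal_ofNat]
      gcongr
    · intro x
      apply Finset.sum_nonneg
      intro s _
      have h1 := fieldEnergy_J J k F G hJa hfe (QQ p (u0 x s) fun i => u i x s)
      have h2 : (inner ℂ (st J p u0 u x s) (fieldEnergy F (st J p u0 u x s))).re =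
        ∑ i, Real.sqrt (sq (k i)) *
          ‖J (MvPolynomial.pderiv i (QQ p (u0 x s) fun i => u i x s))‖ ^ 2 := h1
      rw [h2]
      exact Finset.sum_nonneg fun i _ => by positivity
  have h5 : 16 * M * (N / 4) ≤ 16 * M * normSq (st J p u0 u) :=
    mul_le_mul_of_nonneg_left hnorm (by positivity)
  nlinarith

end Pool.Agent.Helper49_Pauli
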