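import Pool.Agent.Helper41_Pauli.Slice

/-!
# Derivatives of Fourier integrals
-/

open MeasureTheory Set

namespace Pool.Agent.Helper49_Pauli.TF

lemma dot_line (k x : X3) (j : Fin 3) (s : ℝ) :
    dot k (x + s • Pi.single j 1) = dot k x + s * k j := by
  unfold dot
  simp only [Pi.add_apply, Pi.smul_apply, smul_eq_mul, mul_add, Finset.sum_add_distrib]
  congr 1
  rw [Finset.sum_eq_single j]
  · simp [mul_comm]
  · intro b _ hb
    simp [Pi.single_eq_of_ne hb]
  · simp

lemma sq_line (x : X3) (j : Fin 3) (s : ℝ) :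
    sq (x + s • Pi.single j 1) = sq x + (2 * s * x j + s ^ 2) := by
  unfold sq
  fin_cases j <;> simp [Fin.sum_univ_three] <;> ring

lemma measurable_dot (x : X3) : Continuous fun k : X3 => dot k x := by
  unfold dot
  fun_prop

/-- Derivative of the cosine integral along a coordinate line. -/
lemma hasDerivAt_cos (f : X3 → ℝ) (j : Fin 3) (hf : Integrable f)
    (hf' : Integrable fun k => k j * f k) (x : X3) :
    HasDerivAt (fun s : ℝ => ∫ k, f k * Real.cos (dot k (x + s • Pi.single j 1)))
      (∫ k, -(k j * f k * Real.sin (dot k x))) 0 := by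
  simp only [dot_line]
  have hmeas : ∀ s : ℝ, AEStronglyMeasurable (fun k : X3 => f k * Real.cos (dot k x + s * k j)) := by
    intro s
    refine hf.1.mul (Continuous.aestronglyMeasurable ?_)
    have := measurable_dot x
    fun_prop
  have key := hasDerivAt_integral_of_dominated_loc_of_deriv_le (μ := (volume : Measure X3))
    (F := fun (s : ℝ) (k : X3) => f k * Real.cos (dot k x + s * k j))
    (F' := fun (s : ℝ) (k : X3) => -(k j * f k * Real.sin (dot k x + s * k j)))
    (x₀ := 0) (s := univ) (bound := fun k => |k j * f k|) Filter.univ_mem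
    (Filter.Eventually.of_forall hmeas) ?_ ?_ ?_ hf'.abs ?_
  · refine key.2.congr_deriv ?_
    simp
  · refine hf.mul_bdd (c := 1) ?_ (Filter.Eventually.of_forall fun k => ?_)
    · have := measurable_dot x
      exact Continuous.aestronglyMeasurable (by fun_prop)
    · rw [Real.norm_eq_abs]
      exact Real.abs_cos_le_one _
  · refine (hf'.1.mul (Continuous.aestronglyMeasurable ?_)).neg
    have := measurable_dot x
    fun_prop
  · refine Filter.Eventually.of_forall fun k s _ => ?_
    rw [norm_neg, norm_mul, Real.norm_eq_abs, Real.norm_eq_abs]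
    exact mul_le_of_le_one_right (abs_nonneg _) (Real.abs_sin_le_one _)
  · refine Filter.Eventually.of_forall fun k s _ => ?_
    have h1 : HasDerivAt (fun s : ℝ => dot k x + s * k j) (k j) s := by
      simpa using ((hasDerivAt_id s).mul_const (k j)).const_add (dot k x)
    refine (h1.cos.const_mul (f k)).congr_deriv ?_
    ring

/-- Derivative of the sine integral along a coordinate line. -/
lemma hasDerivAt_sin (f : X3 → ℝ) (j : Fin 3) (hf : Integrable f)
    (hf' : Integrable fun k => k j * f k) (x : X3) :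
    HasDerivAt (fun s : ℝ => ∫ k, f k * Real.sin (dot k (x + s • Pi.single j 1)))
      (∫ k, k j * f k * Real.cos (dot k x)) 0 := by
  simp only [dot_line]
  have hmeas : ∀ s : ℝ, AEStronglyMeasurable (fun k : X3 => f k * Real.sin (dot k x + s * k j)) := by
    intro s
    refine hf.1.mul (Continuous.aestronglyMeasurable ?_)
    have := measurable_dot x
    fun_prop
  have key := hasDerivAt_integral_of_dominated_loc_of_deriv_le (μ := (volume : Measure X3))
    (F := fun (s : ℝ) (k : X3) => f k * Real.sin (dot k x + s * k j))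
    (F' := fun (s : ℝ) (k : X3) => k j * f k * Real.cos (dot k x + s * k j))
    (x₀ := 0) (s := univ) (bound := fun k => |k j * f k|) Filter.univ_mem
    (Filter.Eventually.of_forall hmeas) ?_ ?_ ?_ hf'.abs ?_
  · refine key.2.congr_deriv ?_
    simp
  · refine hf.mul_bdd (c := 1) ?_ (Filter.Eventually.of_forall fun k => ?_)
    · have := measurable_dot x
      exact Continuous.aestronglyMeasurable (by fun_prop)
    · rw [Real.norm_eq_abs]
      exact Real.abs_sin_le_one _
  · refine (hf'.1.mul (Continuous.aestronglyMeasurable ?_))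
    have := measurable_dot x
    fun_prop
  · refine Filter.Eventually.of_forall fun k s _ => ?_
    rw [norm_mul, Real.norm_eq_abs, Real.norm_eq_abs]
    exact mul_le_of_le_one_right (abs_nonneg _) (Real.abs_cos_le_one _)
  · refine Filter.Eventually.of_forall fun k s _ => ?_
    have h1 : HasDerivAt (fun s : ℝ => dot k x + s * k j) (k j) s := by
      simpa using ((hasDerivAt_id s).mul_const (k j)).const_add (dot k x)
    refine (h1.sin.const_mul (f k)).congr_deriv ?_
    ring

lemma ae_nrm_pos : ∀ᵐ k : X3, 0 < nrm k := by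
  have h : ∀ᵐ k : X3, k ≠ 0 := by
    rw [ae_iff]
    simp
  filter_upwards [h] with k hk
  exact lt_of_le_of_ne (nrm_nonneg k) fun h0 => hk (nrm_eq_zero.mp h0.symm)

lemma hasDerivAt_sq_line (x : X3) (j : Fin 3) :
    HasDerivAt (fun s : ℝ => sq (x + s • Pi.single j 1)) (2 * x j) 0 := by
  simp only [sq_line]
  have h1 : HasDerivAt (fun s : ℝ => 2 * s * x j + s ^ 2) (2 * x j + 2 * 0) 0 := by
    have h2 : HasDerivAt (fun s : ℝ => 2 * s * x j) (2 * x j) 0 := by
      simpa using ((hasDerivAt_id (0 : ℝ)).const_mul 2).mul_const (x j)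
    have h3 : HasDerivAt (fun s : ℝ => s ^ 2) (2 * 0) 0 := by
      simpa using hasDerivAt_pow 2 (0 : ℝ)
    exact h2.add h3
  simpa using h1.const_add (sq x)

/-- `exp (-|k|) / |k|`. -/
noncomputable def yuk (k : X3) : ℝ := Real.exp (-nrm k) / nrm k

lemma integrable_yuk (n : ℕ) : Integrable fun k : X3 => nrm k ^ n * yuk k := by
  simpa [yuk] using integrable_pow_exp_div n one_pos

lemma measurable_yuk : Measurable yuk := by
  unfold yuk
  have := continuous_nrm.measurable
  fun_prop

lemma yuk_nonneg (k : X3) : 0 ≤ yuk k := div_nonneg (Real.exp_pos _).le (nrm_nonneg k)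

lemma integrable_mul_yuk (j : Fin 3) : Integrable fun k : X3 => k j * yuk k := by
  refine (integrable_yuk 1).mono' ?_ (Filter.Eventually.of_forall fun k => ?_)
  · exact ((measurable_pi_apply j).mul measurable_yuk).aestronglyMeasurable
  · rw [Real.norm_eq_abs, abs_mul, abs_of_nonneg (yuk_nonneg k), pow_one]
    exact mul_le_mul_of_nonneg_right (abs_le_nrm k j) (yuk_nonneg k)

/-- Sine transform of `k_j exp (-|k|) / |k|`. -/
theorem sin_yuk (x : X3) (j : Fin 3) :
    ∫ k : X3, k j * yuk k * Real.sin (dot k x) = 8 * Real.pi * x j / (1 + sq x) ^ 2 := by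
  have h0 : Integrable yuk := by simpa using integrable_yuk 0
  have h1 := hasDerivAt_cos yuk j h0 (integrable_mul_yuk j) x
  have h2 : ∀ y : X3, ∫ k, yuk k * Real.cos (dot k y) = 4 * Real.pi / (1 + sq y) := by
    intro y
    have := fourier_exp_div one_pos y
    simpa [yuk] using this
  simp only [h2] at h1
  have hne : (1 : ℝ) + sq (x + (0 : ℝ) • Pi.single j 1) ≠ 0 := by
    have := sq_nonneg' (x + (0 : ℝ) • Pi.single j 1)
    positivity
  have h3 : HasDerivAt (fun s : ℝ => 4 * Real.pi / (1 + sq (x + s • Pi.single j 1)))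
      ((0 * (1 + sq (x + (0 : ℝ) • Pi.single j 1)) - 4 * Real.pi * (2 * x j)) /
        (1 + sq (x + (0 : ℝ) • Pi.single j 1)) ^ 2) 0 :=
    (hasDerivAt_const (0 : ℝ) (4 * Real.pi)).div ((hasDerivAt_sq_line x j).const_add 1) hne
  have h4 := h1.unique h3
  rw [integral_neg] at h4
  have h5 : ∫ k : X3, k j * yuk k * Real.sin (dot k x) = -((0 * (1 + sq (x + (0 : ℝ) • Pi.single j 1)) - 4 * Real.pi * (2 * x j)) /
        (1 + sq (x + (0 : ℝ) • Pi.single j 1)) ^ 2) := by
    rw [← h4, neg_neg]
  rw [h5]
  simp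
  ring

/-- Cosine transform of `exp (-|k|)`. -/
theorem cos_exp (x : X3) :
    ∫ k : X3, Real.exp (-nrm k) * Real.cos (dot k x) = 8 * Real.pi / (1 + sq x) ^ 2 := by
  have hsq := sq_nonneg' x
  have hcn := continuous_nrm
  have hcd := measurable_dot x
  have hmn := hcn.measurable
  have hmd := hcd.measurable
  have hint : ∀ {t : ℝ}, 0 < t → Integrable fun k : X3 =>
      Real.exp (-(t * nrm k)) / nrm k * Real.cos (dot k x) := by
    intro t ht
    have h0 : Integrable fun k : X3 => Real.exp (-(t * nrm k)) / nrm k := by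
      simpa using integrable_pow_exp_div 0 ht
    refine h0.mul_bdd (c := 1) ?_ (Filter.Eventually.of_forall fun k => ?_)
    · exact Continuous.aestronglyMeasurable (by fun_prop)
    · rw [Real.norm_eq_abs]
      exact Real.abs_cos_le_one _
  have key := hasDerivAt_integral_of_dominated_loc_of_deriv_le (μ := (volume : Measure X3))
    (F := fun (t : ℝ) (k : X3) => Real.exp (-(t * nrm k)) / nrm k * Real.cos (dot k x))
    (F' := fun (t : ℝ) (k : X3) => Real.exp (-(t * nrm k)) * (-(nrm k)) / nrm k *
      Real.cos (dot k x))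
    (x₀ := 1) (s := Ioi (1 / 2)) (bound := fun k => Real.exp (-(1 / 2 * nrm k)))
    (Ioi_mem_nhds (by norm_num))
    ?_ (hint one_pos) ?_ ?_ ?_ ?_
  · have h1 : HasDerivAt (fun t : ℝ => 4 * Real.pi / (t ^ 2 + sq x))
        ((0 * (1 ^ 2 + sq x) - 4 * Real.pi * (2 * 1)) / (1 ^ 2 + sq x) ^ 2) 1 := by
      have h2 : HasDerivAt (fun t : ℝ => t ^ 2 + sq x) (2 * 1) 1 := by
        simpa using (hasDerivAt_pow 2 (1 : ℝ)).add_const (sq x)
      exact (hasDerivAt_const (1 : ℝ) (4 * Real.pi)).div h2 (by positivity)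
    have h2 : (fun t : ℝ => 4 * Real.pi / (t ^ 2 + sq x)) =ᶠ[nhds 1]
        fun t => ∫ k : X3, Real.exp (-(t * nrm k)) / nrm k * Real.cos (dot k x) := by
      filter_upwards [Ioi_mem_nhds (show (0 : ℝ) < 1 by norm_num)] with t ht
      exact (fourier_exp_div ht x).symm
    have h3 := key.2.unique (h1.congr_of_eventuallyEq h2.symm)
    have h4 : ∫ k : X3, Real.exp (-(1 * nrm k)) * (-(nrm k)) / nrm k * Real.cos (dot k x) =
        -∫ k : X3, Real.exp (-nrm k) * Real.cos (dot k x) := by
      rw [← integral_neg]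
      apply integral_congr_ae
      filter_upwards [ae_nrm_pos] with k hk
      have : nrm k ≠ 0 := hk.ne'
      rw [one_mul]
      field_simp
    rw [h4] at h3
    have h5 : ∫ k : X3, Real.exp (-nrm k) * Real.cos (dot k x) =
        -((0 * (1 ^ 2 + sq x) - 4 * Real.pi * (2 * 1)) / (1 ^ 2 + sq x) ^ 2) := by
      rw [← h3, neg_neg]
    rw [h5]
    simp
    ring
  · filter_upwards [Ioi_mem_nhds (show (0 : ℝ) < 1 by norm_num)] with t ht
    exact (hint ht).aestronglyMeasurable
  · exact Measurable.aestronglyMeasurable (by fun_prop)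
  · refine Filter.Eventually.of_forall fun k t ht => ?_
    have ht' : (1 / 2 : ℝ) < t := ht
    have hn := nrm_nonneg k
    rw [norm_mul, Real.norm_eq_abs, Real.norm_eq_abs]
    have h1 : |Real.exp (-(t * nrm k)) * (-(nrm k)) / nrm k| ≤ Real.exp (-(1 / 2 * nrm k)) := by
      rcases eq_or_lt_of_le hn with h | h
      · rw [← h]
        simp
      · have : Real.exp (-(t * nrm k)) * (-(nrm k)) / nrm k = -Real.exp (-(t * nrm k)) := by
          field_simp
        rw [this, abs_neg, Real.abs_exp]
        apply Real.exp_le_exp.mpr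
        nlinarith
    calc |Real.exp (-(t * nrm k)) * (-(nrm k)) / nrm k| * |Real.cos (dot k x)|
        ≤ Real.exp (-(1 / 2 * nrm k)) * 1 :=
          mul_le_mul h1 (Real.abs_cos_le_one _) (abs_nonneg _) (Real.exp_pos _).le
      _ = _ := mul_one _
  · simpa using integrable_pow_exp 0 (show (0 : ℝ) < 1 / 2 by norm_num)
  · refine Filter.Eventually.of_forall fun k t _ => ?_
    have h1 : HasDerivAt (fun t : ℝ => -(t * nrm k)) (-(1 * nrm k)) t :=
      ((hasDerivAt_id t).mul_const (nrm k)).neg
    rw [one_mul] at h1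
    exact ((h1.exp).div_const (nrm k)).mul_const (Real.cos (dot k x))

end Pool.Agent.Helper49_Pauli.TF
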