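import Pool.Agent.Helper49_Pauli.Interface

/-!
# Radial functions on three dimensional space
-/

open MeasureTheory Set

namespace Pool.Agent.Helper49_Pauli.TF

/-- The Euclidean length. -/
noncomputable def nrm (x : X3) : ℝ := Real.sqrt (sq x)

lemma sq_nonneg' (x : X3) : 0 ≤ sq x := Finset.sum_nonneg fun _ _ => sq_nonneg _

lemma nrm_nonneg (x : X3) : 0 ≤ nrm x := Real.sqrt_nonneg _

lemma nrm_sq (x : X3) : nrm x ^ 2 = sq x := Real.sq_sqrt (sq_nonneg' x)

lemma nrm_eq (x : X3) : nrm x = ‖WithLp.toLp 2 x‖ := by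
  rw [EuclideanSpace.norm_eq]
  unfold nrm sq
  simp

lemma continuous_sq : Continuous sq := by
  unfold sq
  fun_prop

lemma continuous_nrm : Continuous nrm := continuous_sq.sqrt

lemma nrm_eq_zero {x : X3} : nrm x = 0 ↔ x = 0 := by
  rw [nrm_eq, norm_eq_zero]
  constructor
  · intro h
    have := congrArg WithLp.ofLp h
    simpa using this
  · rintro rfl
    simp

lemma sq_eq_zero {x : X3} : sq x = 0 ↔ x = 0 := by
  rw [← nrm_sq, sq_eq_zero_iff, nrm_eq_zero]

lemma abs_le_nrm (x : X3) (j : Fin 3) : |x j| ≤ nrm x := by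
  unfold nrm
  rw [← Real.sqrt_sq_eq_abs]
  apply Real.sqrt_le_sqrt
  unfold sq
  exact Finset.single_le_sum (f := fun j => x j ^ 2) (fun _ _ => sq_nonneg _) (Finset.mem_univ j)

lemma norm_le_nrm (x : X3) : ‖x‖ ≤ nrm x := by
  rw [pi_norm_le_iff_of_nonneg (nrm_nonneg x)]
  intro i
  rw [Real.norm_eq_abs]
  exact abs_le_nrm x i

/-- Transfer of integrals of radial functions. -/
lemma integrable_radial {h : ℝ → ℝ} (hh : IntegrableOn (fun y => y ^ 2 * h y) (Ioi 0)) :
    Integrable fun k : X3 => h (nrm k) := by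
  have h1 : Integrable (fun v : EuclideanSpace ℝ (Fin 3) => h ‖v‖) := by
    rw [integrable_fun_norm_addHaar (volume : Measure (EuclideanSpace ℝ (Fin 3)))]
    simpa using hh
  have h2 := (PiLp.volume_preserving_toLp (Fin 3)).integrable_comp_emb
    (MeasurableEquiv.toLp 2 (Fin 3 → ℝ)).measurableEmbedding (g := fun v => h ‖v‖)
  have h3 := h2.mpr h1
  refine h3.congr (Filter.Eventually.of_forall fun k => ?_)
  simp [nrm_eq]

lemma integrableOn_pow_exp (n : ℕ) {t : ℝ} (ht : 0 < t) :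
    IntegrableOn (fun y : ℝ => y ^ n * Real.exp (-(t * y))) (Ioi 0) := by
  have := integrableOn_rpow_mul_exp_neg_mul_rpow (p := 1) (s := n) (b := t)
    (by have : (0 : ℝ) ≤ n := Nat.cast_nonneg n
        linarith) one_pos ht
  refine this.congr_fun (fun y _ => ?_) measurableSet_Ioi
  simp

/-- Integrability of `|k|^n exp (-t|k|) / |k|`. -/
lemma integrable_pow_exp_div (n : ℕ) {t : ℝ} (ht : 0 < t) :
    Integrable fun k : X3 => nrm k ^ n * (Real.exp (-(t * nrm k)) / nrm k) := by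
  refine integrable_radial (h := fun y => y ^ n * (Real.exp (-(t * y)) / y)) ?_
  refine (integrableOn_pow_exp (n + 1) ht).congr_fun (fun y hy => ?_) measurableSet_Ioi
  have hy' : (y : ℝ) ≠ 0 := ne_of_gt hy
  simp only
  field_simp
  ring

/-- Integrability of `|k|^n exp (-t|k|)`. -/
lemma integrable_pow_exp (n : ℕ) {t : ℝ} (ht : 0 < t) :
    Integrable fun k : X3 => nrm k ^ n * Real.exp (-(t * nrm k)) := by
  refine integrable_radial (h := fun y => y ^ n * Real.exp (-(t * y))) ?_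
  refine (integrableOn_pow_exp (n + 2) ht).congr_fun (fun y hy => ?_) measurableSet_Ioi
  simp only
  ring

lemma dot_eq_inner (k x : X3) : dot k x = inner ℝ (WithLp.toLp 2 k) (WithLp.toLp 2 x) := by
  unfold dot
  simp [PiLp.inner_apply, mul_comm]

/-- Rotation. -/
lemma integral_rotate (h : ℝ → ℝ) (x : X3) :
    ∫ k : X3, h (nrm k) * Real.cos (dot k x) =
      ∫ k : X3, h (nrm k) * Real.cos (nrm x * k 0) := by
  have tr : ∀ F : EuclideanSpace ℝ (Fin 3) → ℝ, ∫ k : X3, F (WithLp.toLp 2 k) = ∫ v, F v :=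
    fun F => (PiLp.volume_preserving_toLp (Fin 3)).integral_comp
      (MeasurableEquiv.toLp 2 (Fin 3 → ℝ)).measurableEmbedding F
  set e : EuclideanSpace ℝ (Fin 3) := nrm x • EuclideanSpace.single 0 (1 : ℝ) with he
  have hn : ‖WithLp.toLp 2 x‖ = ‖e‖ := by
    rw [he, norm_smul, ← nrm_eq]
    simp [abs_of_nonneg (nrm_nonneg x)]
  set ρ := Submodule.reflection (Submodule.span ℝ {WithLp.toLp 2 x - e})ᗮ with hρ
  have hρx : ρ (WithLp.toLp 2 x) = e := Submodule.reflection_sub hn
  have h1 : ∫ k : X3, h (nrm k) * Real.cos (dot k x) =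
      ∫ v : EuclideanSpace ℝ (Fin 3), h ‖v‖ * Real.cos (inner ℝ v (WithLp.toLp 2 x)) := by
    rw [← tr]
    simp only [nrm_eq, dot_eq_inner]
  have h2 : ∫ k : X3, h (nrm k) * Real.cos (nrm x * k 0) =
      ∫ v : EuclideanSpace ℝ (Fin 3), h ‖v‖ * Real.cos (inner ℝ v e) := by
    rw [← tr]
    congr 1
    funext k
    rw [nrm_eq k, he, inner_smul_right, EuclideanSpace.inner_single_right]
    simp
  rw [h1, h2, ← ρ.measurePreserving.integral_comp ρ.toMeasurableEquiv.measurableEmbedding]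
  congr 1
  funext v
  rw [ρ.norm_map]
  congr 2
  have hx : WithLp.toLp 2 x = ρ e := by
    rw [← hρx, hρ, Submodule.reflection_reflection]
  rw [hx, ρ.inner_map_map]

end Pool.Agent.Helper49_Pauli.TF
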