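import Pool.Agent.Helper41_Pauli.Radial

/-!
# The Fourier transform of `exp (-t|k|) / |k|` in three dimensions
-/

open MeasureTheory Set

namespace Pool.Agent.Helper49_Pauli.TF

/-- Slicing. -/
lemma integral_slice (h : ℝ → ℝ) (a : ℝ) (hint : Integrable fun k : X3 => h (nrm k)) :
    ∫ k : X3, h (nrm k) * Real.cos (a * k 0) =
      ∫ c : ℝ, (2 * Real.pi * ∫ y in Ioi (0 : ℝ), y * h (Real.sqrt (c ^ 2 + y ^ 2))) *
        Real.cos (a * c) := by
  set G : ℝ × (Fin 2 → ℝ) → ℝ := fun p =>
    h (Real.sqrt (p.1 ^ 2 + (p.2 0 ^ 2 + p.2 1 ^ 2))) * Real.cos (a * p.1) with hG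
  have mp := volume_preserving_piFinSuccAbove (fun _ : Fin 3 => ℝ) 0
  have hGe : ∀ k : X3, G (MeasurableEquiv.piFinSuccAbove (fun _ : Fin 3 => ℝ) 0 k) =
      h (nrm k) * Real.cos (a * k 0) := by
    intro k
    simp only [hG, nrm, sq, Fin.sum_univ_three]
    simp [MeasurableEquiv.piFinSuccAbove, Fin.insertNthEquiv, add_assoc]
    left
    rfl
  have hint2 : Integrable fun k : X3 => h (nrm k) * Real.cos (a * k 0) := by
    refine hint.mul_bdd (c := 1) ?_ ?_
    · exact (Continuous.aestronglyMeasurable (by fun_prop))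
    · exact Filter.Eventually.of_forall fun k => by
        rw [Real.norm_eq_abs]
        exact Real.abs_cos_le_one _
  have hGint : Integrable G := by
    rw [← mp.integrable_comp_emb (MeasurableEquiv.measurableEmbedding _)]
    refine hint2.congr (Filter.Eventually.of_forall fun k => ?_)
    exact (hGe k).symm
  calc ∫ k : X3, h (nrm k) * Real.cos (a * k 0)
      = ∫ k : X3, G (MeasurableEquiv.piFinSuccAbove (fun _ : Fin 3 => ℝ) 0 k) := by
        congr 1
        funext k
        exact (hGe k).symm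
    _ = ∫ p, G p := mp.integral_comp' G
    _ = ∫ c, ∫ y, G (c, y) := integral_prod G hGint
    _ = _ := by
        congr 1
        funext c
        simp only [hG]
        rw [integral_mul_const]
        congr 1
        have tr : ∀ F : EuclideanSpace ℝ (Fin 2) → ℝ,
            ∫ k : Fin 2 → ℝ, F (WithLp.toLp 2 k) = ∫ v, F v :=
          fun F => (PiLp.volume_preserving_toLp (Fin 2)).integral_comp
            (MeasurableEquiv.toLp 2 (Fin 2 → ℝ)).measurableEmbedding F
        have h1 := tr (fun v => (fun r => h (Real.sqrt (c ^ 2 + r ^ 2))) ‖v‖)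
        rw [integral_fun_norm_addHaar (volume : Measure (EuclideanSpace ℝ (Fin 2)))
          (fun r => h (Real.sqrt (c ^ 2 + r ^ 2)))] at h1
        have h2 : (volume : Measure (EuclideanSpace ℝ (Fin 2))).real (Metric.ball 0 1) =
            Real.pi := by
          rw [Measure.real, EuclideanSpace.volume_ball_fin_two]
          simp [Real.pi_nonneg]
        rw [h2] at h1
        simp only [finrank_euclideanSpace, Fintype.card_fin] at h1
        have h3 : ∀ k : Fin 2 → ℝ, h (Real.sqrt (c ^ 2 + ‖WithLp.toLp 2 k‖ ^ 2)) =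
            h (Real.sqrt (c ^ 2 + (k 0 ^ 2 + k 1 ^ 2))) := by
          intro k
          rw [EuclideanSpace.norm_sq_eq]
          simp
        simp only [h3] at h1
        rw [h1]
        simp
        ring

lemma integral_Ioi_mul_exp_div {t c : ℝ} (ht : 0 < t) :
    ∫ y in Ioi (0 : ℝ), y * (Real.exp (-(t * Real.sqrt (c ^ 2 + y ^ 2))) /
      Real.sqrt (c ^ 2 + y ^ 2)) = Real.exp (-(t * |c|)) / t := by
  have hderiv : ∀ y ∈ Ioi (0 : ℝ), HasDerivAt
      (fun y => -(Real.exp (-(t * Real.sqrt (c ^ 2 + y ^ 2))) / t))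
      (y * (Real.exp (-(t * Real.sqrt (c ^ 2 + y ^ 2))) / Real.sqrt (c ^ 2 + y ^ 2))) y := by
    intro y hy
    have hy' : 0 < y := hy
    have hpos : 0 < c ^ 2 + y ^ 2 := by positivity
    have h1 : HasDerivAt (fun y : ℝ => c ^ 2 + y ^ 2) (2 * y) y := by
      simpa using (hasDerivAt_pow 2 y).const_add (c ^ 2)
    have h2 := h1.sqrt hpos.ne'
    have h3 := ((h2.const_mul t).neg.exp.div_const t).neg
    have hs : Real.sqrt (c ^ 2 + y ^ 2) ≠ 0 := (Real.sqrt_pos.mpr hpos).ne'
    refine HasDerivAt.congr_deriv (f' := -(Real.exp (-(t * Real.sqrt (c ^ 2 + y ^ 2))) *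
      -(t * (2 * y / (2 * Real.sqrt (c ^ 2 + y ^ 2)))) / t)) h3 ?_
    field_simp
  have hcont : ContinuousWithinAt
      (fun y => -(Real.exp (-(t * Real.sqrt (c ^ 2 + y ^ 2))) / t)) (Ici 0) 0 := by
    apply Continuous.continuousWithinAt
    fun_prop
  have hnn : ∀ y ∈ Ioi (0 : ℝ), 0 ≤ y * (Real.exp (-(t * Real.sqrt (c ^ 2 + y ^ 2))) /
      Real.sqrt (c ^ 2 + y ^ 2)) := by
    intro y hy
    have hy' : 0 < y := hy
    positivity
  have hlim : Filter.Tendsto (fun y => -(Real.exp (-(t * Real.sqrt (c ^ 2 + y ^ 2))) / t))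
      Filter.atTop (nhds (-(0 / t))) := by
    apply Filter.Tendsto.neg
    apply Filter.Tendsto.div_const
    apply Real.tendsto_exp_neg_atTop_nhds_zero.comp
    apply Filter.Tendsto.const_mul_atTop ht
    refine Filter.tendsto_atTop_mono' _ ?_ Filter.tendsto_id
    filter_upwards [Filter.eventually_ge_atTop 0] with y hy
    apply Real.le_sqrt_of_sq_le
    simp only [id]
    nlinarith [_root_.sq_nonneg c]
  have := integral_Ioi_of_hasDerivAt_of_nonneg hcont hderiv hnn hlim
  rw [this]
  simp [Real.sqrt_sq_eq_abs]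

lemma integral_cos_exp_Ioi {t : ℝ} (ht : 0 < t) (a : ℝ) :
    ∫ u in Ioi (0 : ℝ), Real.exp (-(t * u)) * Real.cos (a * u) = t / (t ^ 2 + a ^ 2) := by
  have hre : (-(t : ℂ) + a * Complex.I).re < 0 := by simpa using ht
  have h1 := integral_exp_mul_complex_Ioi hre 0
  have h2 := congrArg Complex.re h1
  have hi := integrableOn_exp_mul_complex_Ioi hre 0
  have h3 : (∫ x in Ioi (0 : ℝ), Complex.exp ((-(t : ℂ) + a * Complex.I) * x)).re =
      ∫ x in Ioi (0 : ℝ), (Complex.exp ((-(t : ℂ) + a * Complex.I) * x)).re :=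
    (integral_re (𝕜 := ℂ) hi).symm
  rw [h3] at h2
  have h4 : ∀ x : ℝ, (Complex.exp ((-(t : ℂ) + a * Complex.I) * x)).re =
      Real.exp (-(t * x)) * Real.cos (a * x) := by
    intro x
    rw [Complex.exp_re]
    simp
  simp only [h4] at h2
  rw [h2]
  simp [Complex.div_re, Complex.normSq]
  field_simp

lemma integral_cos_exp_abs {t : ℝ} (ht : 0 < t) (a : ℝ) :
    ∫ c : ℝ, Real.exp (-(t * |c|)) * Real.cos (a * c) = 2 * t / (t ^ 2 + a ^ 2) := by
  have h1 : ∀ c : ℝ, Real.exp (-(t * |c|)) * Real.cos (a * c) =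
      (fun u => Real.exp (-(t * u)) * Real.cos (a * u)) |c| := by
    intro c
    simp only
    congr 1
    rcases abs_cases c with h | h
    · rw [h.1]
    · rw [h.1, mul_neg, Real.cos_neg]
  simp only [h1]
  rw [integral_comp_abs (f := fun u => Real.exp (-(t * u)) * Real.cos (a * u)),
    integral_cos_exp_Ioi ht]
  ring

/-- The Fourier transform of `exp (-t|k|) / |k|`. -/
theorem fourier_exp_div {t : ℝ} (ht : 0 < t) (x : X3) :
    ∫ k : X3, Real.exp (-(t * nrm k)) / nrm k * Real.cos (dot k x) =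
      4 * Real.pi / (t ^ 2 + sq x) := by
  rw [integral_rotate (fun u => Real.exp (-(t * u)) / u),
    integral_slice (fun u => Real.exp (-(t * u)) / u)]
  · simp only [integral_Ioi_mul_exp_div ht]
    have : ∀ c : ℝ, 2 * Real.pi * (Real.exp (-(t * |c|)) / t) * Real.cos (nrm x * c) =
        2 * Real.pi / t * (Real.exp (-(t * |c|)) * Real.cos (nrm x * c)) := by
      intro c
      ring
    simp only [this]
    rw [integral_const_mul, integral_cos_exp_abs ht, nrm_sq]
    have h0 := sq_nonneg' x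
    have : t ^ 2 + sq x ≠ 0 := by positivity
    field_simp
    ring
  · simpa using integrable_pow_exp_div 0 ht

end Pool.Agent.Helper49_Pauli.TF
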