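import Pool.Agent.Helper41_Pauli.Deriv

/-!
# Module TRAP-FOURIER
-/

open MeasureTheory Set

namespace Pool.Agent.Helper49_Pauli.TF

/-- `k_2 exp (-|k|) / |k|^2`. -/
noncomputable def lng (k : X3) : ℝ := k 2 * yuk k / nrm k

lemma measurable_lng : Measurable lng := by
  have h1 := continuous_nrm.measurable
  have h2 := measurable_yuk
  have h3 : Measurable fun k : X3 => k 2 := measurable_pi_apply 2
  exact (h3.mul h2).div h1

lemma abs_lng_le (k : X3) : |lng k| ≤ yuk k := by
  unfold lng
  rw [abs_div, abs_mul, abs_of_nonneg (yuk_nonneg k), abs_of_nonneg (nrm_nonneg k)]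
  rcases eq_or_lt_of_le (nrm_nonneg k) with h | h
  · rw [← h, div_zero]
    exact yuk_nonneg k
  · rw [div_le_iff₀ h, mul_comm (yuk k)]
    exact mul_le_mul_of_nonneg_right (abs_le_nrm k 2) (yuk_nonneg k)

lemma integrable_lng : Integrable lng := by
  refine (integrable_yuk 0).mono' measurable_lng.aestronglyMeasurable
    (Filter.Eventually.of_forall fun k => ?_)
  rw [Real.norm_eq_abs, pow_zero, one_mul]
  exact abs_lng_le k

lemma integrable_mul_lng (j : Fin 3) : Integrable fun k : X3 => k j * lng k := by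
  refine (integrable_yuk 1).mono' ?_ (Filter.Eventually.of_forall fun k => ?_)
  · exact ((measurable_pi_apply j).mul measurable_lng).aestronglyMeasurable
  · rw [Real.norm_eq_abs, abs_mul, pow_one]
    exact mul_le_mul (abs_le_nrm k j) (abs_lng_le k) (abs_nonneg _) (nrm_nonneg k)

/-- `∫ k_2 exp (-|k|) / |k|^2 sin (k.x)`. -/
noncomputable def xi0 (x : X3) : ℝ := ∫ k : X3, lng k * Real.sin (dot k x)

/-- The bilinear form of the Fourier integral. -/
noncomputable def bil : X3 →L[ℝ] X3 →L[ℝ] ℝ :=
  (-(1 / (2 * Real.pi))) • ∑ j : Fin 3, (ContinuousLinearMap.proj (R := ℝ) (φ := fun _ => ℝ) j).smulRight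
    (ContinuousLinearMap.proj (R := ℝ) (φ := fun _ => ℝ) j)

lemma bil_apply (k x : X3) : bil k x = -(1 / (2 * Real.pi)) * dot k x := by
  unfold bil dot
  simp

lemma bil_apply' (k x : X3) : bil.toLinearMap₁₂ k x = -(1 / (2 * Real.pi)) * dot k x :=
  bil_apply k x

lemma contDiff_xi0 : ContDiff ℝ (⊤ : ℕ∞) xi0 := by
  have h := VectorFourier.contDiff_fourierIntegral (N := (⊤ : ℕ∞)) (μ := (volume : Measure X3)) bil
    (f := fun k => (lng k : ℂ)) ?_
  · have h2 : xi0 = fun x => (VectorFourier.fourierIntegral Real.fourierChar volume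
        bil.toLinearMap₁₂ (fun k => (lng k : ℂ)) x).im := by
      funext x
      unfold xi0 VectorFourier.fourierIntegral
      have hint : Integrable fun k : X3 =>
          Real.fourierChar (-(bil.toLinearMap₁₂ k x)) • (lng k : ℂ) := by
        refine (integrable_lng.ofReal (𝕜 := ℂ)).bdd_mul (c := 1) ?_ ?_
        · have : Continuous fun k : X3 => ((Real.fourierChar (-(bil.toLinearMap₁₂ k x)) : Circle) : ℂ) := by
            have h1 : Continuous fun k : X3 => -(bil.toLinearMap₁₂ k x) := by
              have := measurable_dot x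
              simp only [bil_apply']
              fun_prop
            exact continuous_subtype_val.comp (Real.continuous_fourierChar.comp h1)
          exact this.aestronglyMeasurable
        · exact Filter.Eventually.of_forall fun k => by simp
      have h3 := integral_im (𝕜 := ℂ) hint
      have h4 : (∫ k : X3, Real.fourierChar (-(bil.toLinearMap₁₂ k x)) • (lng k : ℂ)).im =
          ∫ k : X3, (Real.fourierChar (-(bil.toLinearMap₁₂ k x)) • (lng k : ℂ)).im := h3.symm
      rw [h4]
      congr 1
      funext k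
      rw [Circle.smul_def, Real.fourierChar_apply, bil_apply', smul_eq_mul, Complex.im_mul_ofReal]
      have : ((2 * Real.pi * -(-(1 / (2 * Real.pi)) * dot k x) : ℝ) : ℂ) * Complex.I =
          (dot k x : ℂ) * Complex.I := by
        congr 2
        field_simp
      rw [this, Complex.exp_ofReal_mul_I_im, mul_comm]
    rw [h2]
    exact Complex.imCLM.contDiff.comp h
  · intro n _
    refine (integrable_yuk n).mono' ?_ (Filter.Eventually.of_forall fun k => ?_)
    · refine ((continuous_norm.pow n).aestronglyMeasurable).mul ?_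
      exact (Complex.measurable_ofReal.comp measurable_lng).norm.aestronglyMeasurable
    · rw [norm_mul, norm_pow, norm_norm, norm_norm, Complex.norm_real, Real.norm_eq_abs]
      exact mul_le_mul (pow_le_pow_left₀ (norm_nonneg _) (norm_le_nrm k) n) (abs_lng_le k)
        (abs_nonneg _) (pow_nonneg (nrm_nonneg k) n)

lemma fderiv_eq_of_line {g : X3 → ℝ} {x : X3} (hg : DifferentiableAt ℝ g x) {j : Fin 3} {d : ℝ}
    (h : HasDerivAt (fun s : ℝ => g (x + s • Pi.single j 1)) d 0) :
    fderiv ℝ g x (Pi.single j 1) = d := by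
  have h1 : HasDerivAt (fun s : ℝ => x + s • (Pi.single j 1 : X3)) (Pi.single j 1) 0 := by
    simpa using ((hasDerivAt_id (0 : ℝ)).smul_const (Pi.single j 1 : X3)).const_add x
  have hg' : HasFDerivAt g (fderiv ℝ g x) (x + (0 : ℝ) • (Pi.single j 1 : X3)) := by
    simpa using hg.hasFDerivAt
  have h2 := hg'.comp_hasDerivAt (0 : ℝ) h1
  exact h2.unique h

/-- The gauge function. -/
noncomputable def gau (x : X3) : ℝ :=
  -11 * (x 2 * (1 + sq x)⁻¹ - 1 / (4 * Real.pi) * xi0 x)

lemma contDiff_sq : ContDiff ℝ (⊤ : ℕ∞) sq := by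
  unfold sq
  fun_prop

lemma contDiff_gau : ContDiff ℝ (⊤ : ℕ∞) gau := by
  unfold gau
  have h1 := contDiff_sq
  have h2 : ContDiff ℝ (⊤ : ℕ∞) fun x : X3 => (1 + sq x)⁻¹ :=
    (contDiff_const.add h1).inv fun x => by
      have := sq_nonneg' x
      positivity
  have h3 := contDiff_xi0
  have h4 : ContDiff ℝ (⊤ : ℕ∞) fun x : X3 => x 2 := contDiff_apply ℝ ℝ 2
  exact contDiff_const.mul ((h4.mul h2).sub (contDiff_const.mul h3))

lemma fderiv_gau (x : X3) (j : Fin 3) :
    fderiv ℝ gau x (Pi.single j 1) =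
      -11 * (((Pi.single j 1 : X3) 2) * (1 + sq x)⁻¹ - 2 * x 2 * x j * (1 + sq x)⁻¹ ^ 2 -
        1 / (4 * Real.pi) * ∫ k : X3, k j * lng k * Real.cos (dot k x)) := by
  apply fderiv_eq_of_line
  · exact (contDiff_gau.differentiable (by simp)) x
  · have h1 := hasDerivAt_sin lng j integrable_lng (integrable_mul_lng j) x
    have h2 : HasDerivAt (fun s : ℝ => (x + s • (Pi.single j 1 : X3)) 2)
        ((Pi.single j 1 : X3) 2) 0 := by
      simp only [Pi.add_apply, Pi.smul_apply, smul_eq_mul]
      simpa using ((hasDerivAt_id (0 : ℝ)).mul_const ((Pi.single j 1 : X3) 2)).const_add (x 2)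
    have hne : (1 : ℝ) + sq (x + (0 : ℝ) • Pi.single j 1) ≠ 0 := by
      have := sq_nonneg' (x + (0 : ℝ) • Pi.single j 1)
      positivity
    have h3 := ((hasDerivAt_sq_line x j).const_add 1).inv hne
    have h4 := ((h2.mul h3).sub (h1.const_mul (1 / (4 * Real.pi)))).const_mul (-11)
    refine HasDerivAt.congr_deriv h4 ?_
    simp
    ring

/-- Cosine amplitude. -/
noncomputable def ampA (q : X3) : X3 := fun j =>
  -22 * Real.pi ^ 2 * (Real.exp (-nrm q) * (Pi.single j 1 : X3) 2 - q j * lng q)

/-- Sine amplitude. -/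
noncomputable def ampB (q : X3) : X3 := fun j =>
  -22 * Real.pi ^ 2 * (yuk q * (![q 1, -q 0, 0] : X3) j)

lemma sq_neg' (q : X3) : sq (-q) = sq q := by
  unfold sq
  simp

lemma nrm_neg (q : X3) : nrm (-q) = nrm q := by
  unfold nrm
  rw [sq_neg']

lemma yuk_neg (q : X3) : yuk (-q) = yuk q := by
  unfold yuk
  rw [nrm_neg]

lemma lng_neg (q : X3) : lng (-q) = -lng q := by
  unfold lng
  rw [nrm_neg, yuk_neg, Pi.neg_apply]
  ring

lemma ampA_neg (q : X3) : ampA (-q) = ampA q := by
  funext j
  unfold ampA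
  rw [nrm_neg, lng_neg, Pi.neg_apply]
  ring

lemma ampB_neg (q : X3) : ampB (-q) = -ampB q := by
  funext j
  rw [Pi.neg_apply]
  unfold ampB
  rw [yuk_neg]
  fin_cases j <;> simp

lemma nrm_mul_yuk (q : X3) (hq : nrm q ≠ 0) : nrm q * yuk q = Real.exp (-nrm q) := by
  unfold yuk
  field_simp

lemma nrm_mul_yuk_le (q : X3) : nrm q * yuk q ≤ Real.exp (-nrm q) := by
  by_cases h : nrm q = 0
  · rw [h, zero_mul]
    exact (Real.exp_pos _).le
  · exact (nrm_mul_yuk q h).le

lemma dot_ampA (q : X3) : dot q (ampA q) = 0 := by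
  by_cases h : nrm q = 0
  · rw [nrm_eq_zero] at h
    subst h
    simp [dot]
  · have h1 : q 0 ^ 2 + q 1 ^ 2 + q 2 ^ 2 = nrm q ^ 2 := by
      rw [nrm_sq]
      simp [sq, Fin.sum_univ_three]
    have h2 : lng q * nrm q ^ 2 = q 2 * Real.exp (-nrm q) := by
      unfold lng yuk
      field_simp
    have h3 : dot q (ampA q) = -22 * Real.pi ^ 2 *
        (q 2 * Real.exp (-nrm q) - lng q * (q 0 ^ 2 + q 1 ^ 2 + q 2 ^ 2)) := by
      unfold dot ampA
      simp [Fin.sum_univ_three]
      ring
    rw [h3, h1, h2]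
    ring

lemma dot_ampB (q : X3) : dot q (ampB q) = 0 := by
  unfold dot ampB
  simp [Fin.sum_univ_three]
  ring

lemma measurable_nrm : Measurable nrm := continuous_nrm.measurable

lemma measurable_ampA (j : Fin 3) : Measurable fun q => ampA q j := by
  have h1 := measurable_nrm
  have h2 := measurable_lng
  have h3 : Measurable fun k : X3 => k j := measurable_pi_apply j
  unfold ampA
  exact ((h1.neg.exp.mul_const _).sub (h3.mul h2)).const_mul _

lemma measurable_ampB (j : Fin 3) : Measurable fun q => ampB q j := by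
  have h2 := measurable_yuk
  unfold ampB
  have h3 : Measurable fun q : X3 => (![q 1, -q 0, 0] : X3) j := by
    fin_cases j
    · exact measurable_pi_apply 1
    · exact (measurable_pi_apply 0).neg
    · exact measurable_const
  exact (h2.mul h3).const_mul _

lemma abs_single_le (j : Fin 3) : |(Pi.single j 1 : X3) 2| ≤ 1 := by
  fin_cases j <;> simp

lemma abs_ampA_le (q : X3) (j : Fin 3) : |ampA q j| ≤ 44 * Real.pi ^ 2 * Real.exp (-nrm q) := by
  unfold ampA
  have hpi : 0 ≤ Real.pi ^ 2 := by positivity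
  have he := (Real.exp_pos (-nrm q)).le
  rw [abs_mul, show |(-22 : ℝ) * Real.pi ^ 2| = 22 * Real.pi ^ 2 by
    rw [abs_mul, abs_of_nonneg hpi]; norm_num]
  have h1 : |Real.exp (-nrm q) * (Pi.single j 1 : X3) 2| ≤ Real.exp (-nrm q) := by
    rw [abs_mul, abs_of_nonneg he]
    exact mul_le_of_le_one_right he (abs_single_le j)
  have h2 : |q j * lng q| ≤ Real.exp (-nrm q) := by
    rw [abs_mul]
    exact (mul_le_mul (abs_le_nrm q j) (abs_lng_le q) (abs_nonneg _) (nrm_nonneg q)).trans
      (nrm_mul_yuk_le q)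
  have h3 := (abs_sub (Real.exp (-nrm q) * (Pi.single j 1 : X3) 2) (q j * lng q))
  nlinarith

lemma abs_ampB_le (q : X3) (j : Fin 3) : |ampB q j| ≤ 22 * Real.pi ^ 2 * Real.exp (-nrm q) := by
  unfold ampB
  have hpi : 0 ≤ Real.pi ^ 2 := by positivity
  rw [abs_mul, show |(-22 : ℝ) * Real.pi ^ 2| = 22 * Real.pi ^ 2 by
    rw [abs_mul, abs_of_nonneg hpi]; norm_num]
  apply mul_le_mul_of_nonneg_left _ (by positivity)
  have h1 : |(![q 1, -q 0, 0] : X3) j| ≤ nrm q := by
    fin_cases j
    · exact abs_le_nrm q 1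
    · simpa using abs_le_nrm q 0
    · simpa using nrm_nonneg q
  rw [abs_mul, abs_of_nonneg (yuk_nonneg q), mul_comm]
  exact (mul_le_mul_of_nonneg_right h1 (yuk_nonneg q)).trans (nrm_mul_yuk_le q)

lemma continuousOn_yuk : ContinuousOn yuk {q | q ≠ 0} := by
  unfold yuk
  refine ContinuousOn.div ?_ continuous_nrm.continuousOn fun q hq h => hq (nrm_eq_zero.mp h)
  exact (Real.continuous_exp.comp continuous_nrm.neg).continuousOn

lemma continuousOn_lng : ContinuousOn lng {q | q ≠ 0} := by
  unfold lng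
  refine ContinuousOn.div ?_ continuous_nrm.continuousOn fun q hq h => hq (nrm_eq_zero.mp h)
  exact (continuous_apply 2).continuousOn.mul continuousOn_yuk

lemma continuousOn_ampA (j : Fin 3) : ContinuousOn (fun q => ampA q j) {q | q ≠ 0} := by
  unfold ampA
  refine continuousOn_const.mul (ContinuousOn.sub ?_ ?_)
  · exact ((Real.continuous_exp.comp continuous_nrm.neg).mul continuous_const).continuousOn
  · exact (continuous_apply j).continuousOn.mul continuousOn_lng

lemma continuousOn_ampB (j : Fin 3) : ContinuousOn (fun q => ampB q j) {q | q ≠ 0} := by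
  unfold ampB
  refine continuousOn_const.mul (continuousOn_yuk.mul ?_)
  fin_cases j
  · exact (continuous_apply 1).continuousOn
  · exact (continuous_apply 0).neg.continuousOn
  · exact continuousOn_const

lemma integrable_exp (n : ℕ) : Integrable fun k : X3 => nrm k ^ n * Real.exp (-nrm k) := by
  simpa using integrable_pow_exp n one_pos

lemma integrable_exp' (c : ℝ) : Integrable fun k : X3 => c * Real.exp (-nrm k) := by
  simpa using (integrable_exp 0).const_mul c

lemma integrable_ampA (j : Fin 3) : Integrable fun q => ampA q j :=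
  (integrable_exp' (44 * Real.pi ^ 2)).mono' (measurable_ampA j).aestronglyMeasurable
    (Filter.Eventually.of_forall fun q => abs_ampA_le q j)

lemma integrable_ampB (j : Fin 3) : Integrable fun q => ampB q j :=
  (integrable_exp' (22 * Real.pi ^ 2)).mono' (measurable_ampB j).aestronglyMeasurable
    (Filter.Eventually.of_forall fun q => abs_ampB_le q j)

lemma tail_le (N : ℝ) (hN : 1 ≤ N) (j : Fin 3) :
    ∫ q in {q : X3 | N ^ 2 ≤ sq q}, (|ampA q j| + |ampB q j|) ≤
      66 * Real.pi ^ 2 * (∫ k : X3, nrm k ^ 3 * Real.exp (-nrm k)) * N ^ (-3 : ℤ) := by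
  have hN0 : 0 < N := by linarith
  have hm : MeasurableSet {q : X3 | N ^ 2 ≤ sq q} :=
    measurableSet_le measurable_const continuous_sq.measurable
  have hpi : 0 ≤ Real.pi ^ 2 := by positivity
  have hi : Integrable fun k : X3 =>
      66 * Real.pi ^ 2 * N ^ (-3 : ℤ) * (nrm k ^ 3 * Real.exp (-nrm k)) :=
    (integrable_exp 3).const_mul _
  calc ∫ q in {q : X3 | N ^ 2 ≤ sq q}, (|ampA q j| + |ampB q j|)
      ≤ ∫ q in {q : X3 | N ^ 2 ≤ sq q},
          66 * Real.pi ^ 2 * N ^ (-3 : ℤ) * (nrm q ^ 3 * Real.exp (-nrm q)) := by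
        apply setIntegral_mono_on _ hi.integrableOn hm
        · intro q hq
          have hq' : N ≤ nrm q := by
            apply Real.le_sqrt_of_sq_le
            exact hq
          have h1 := abs_ampA_le q j
          have h2 := abs_ampB_le q j
          have h3 : 1 ≤ N ^ (-3 : ℤ) * nrm q ^ 3 := by
            rw [zpow_neg, ← div_eq_inv_mul]
            rw [le_div_iff₀ (by positivity), one_mul]
            exact_mod_cast pow_le_pow_left₀ hN0.le hq' 3
          have h4 := (Real.exp_pos (-nrm q)).le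
          have h5 : 66 * Real.pi ^ 2 * Real.exp (-nrm q) * 1 ≤
              66 * Real.pi ^ 2 * Real.exp (-nrm q) * (N ^ (-3 : ℤ) * nrm q ^ 3) :=
            mul_le_mul_of_nonneg_left h3 (by positivity)
          linarith
        · exact ((integrable_ampA j).abs.add (integrable_ampB j).abs).integrableOn
    _ ≤ ∫ q, 66 * Real.pi ^ 2 * N ^ (-3 : ℤ) * (nrm q ^ 3 * Real.exp (-nrm q)) := by
        apply setIntegral_le_integral hi
        refine Filter.Eventually.of_forall fun q => ?_
        have := nrm_nonneg q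
        simp only [Pi.zero_apply]
        positivity
    _ = _ := by
        rw [integral_const_mul]
        ring

lemma integrable_mul_cos {f : X3 → ℝ} (hf : Integrable f) (x : X3) :
    Integrable fun k => f k * Real.cos (dot k x) := by
  have := measurable_dot x
  refine hf.mul_bdd (c := 1) (Continuous.aestronglyMeasurable (by fun_prop))
    (Filter.Eventually.of_forall fun k => ?_)
  rw [Real.norm_eq_abs]
  exact Real.abs_cos_le_one _

lemma integrable_mul_sin {f : X3 → ℝ} (hf : Integrable f) (x : X3) :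
    Integrable fun k => f k * Real.sin (dot k x) := by
  have := measurable_dot x
  refine hf.mul_bdd (c := 1) (Continuous.aestronglyMeasurable (by fun_prop))
    (Filter.Eventually.of_forall fun k => ?_)
  rw [Real.norm_eq_abs]
  exact Real.abs_sin_le_one _

lemma integral_ampA (x : X3) (j : Fin 3) :
    ∫ q, ampA q j * Real.cos (dot q x) = -22 * Real.pi ^ 2 *
      ((Pi.single j 1 : X3) 2 * (8 * Real.pi / (1 + sq x) ^ 2) -
        ∫ k : X3, k j * lng k * Real.cos (dot k x)) := by
  have h1 : ∀ q : X3, ampA q j * Real.cos (dot q x) = -22 * Real.pi ^ 2 *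
      ((Pi.single j 1 : X3) 2 * (Real.exp (-nrm q) * Real.cos (dot q x)) -
        q j * lng q * Real.cos (dot q x)) := by
    intro q
    unfold ampA
    ring
  simp only [h1]
  rw [integral_const_mul, integral_sub, integral_const_mul, cos_exp]
  · have := integrable_mul_cos (f := fun k : X3 => Real.exp (-nrm k))
      (by simpa using integrable_exp 0) x
    exact this.const_mul _
  · exact integrable_mul_cos (integrable_mul_lng j) x

lemma integral_ampB (x : X3) (j : Fin 3) :
    ∫ q, ampB q j * Real.sin (dot q x) = -22 * Real.pi ^ 2 *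
      (8 * Real.pi * (![x 1, -x 0, 0] : X3) j / (1 + sq x) ^ 2) := by
  have h1 : ∀ q : X3, ampB q j * Real.sin (dot q x) = -22 * Real.pi ^ 2 *
      ((![q 1, -q 0, 0] : X3) j * yuk q * Real.sin (dot q x)) := by
    intro q
    unfold ampB
    ring
  simp only [h1]
  rw [integral_const_mul]
  congr 1
  fin_cases j
  · exact sin_yuk x 1
  · have := sin_yuk x 0
    have h2 : ∫ q : X3, -q 0 * yuk q * Real.sin (dot q x) =
        -∫ q : X3, q 0 * yuk q * Real.sin (dot q x) := by
      rw [← integral_neg]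
      congr 1
      funext q
      ring
    show ∫ q : X3, -q 0 * yuk q * Real.sin (dot q x) = 8 * Real.pi * (-x 0) / (1 + sq x) ^ 2
    rw [h2, this]
    ring
  · simp

theorem trap_eq (x : X3) (j : Fin 3) :
    trapA x j + fderiv ℝ gau x (Pi.single j 1) =
      (2 * Real.pi) ^ (-(3 : ℤ)) *
        ∫ q, (ampA q j * Real.cos (dot q x) - ampB q j * Real.sin (dot q x)) := by
  rw [integral_sub (integrable_mul_cos (integrable_ampA j) x)
    (integrable_mul_sin (integrable_ampB j) x), integral_ampA, integral_ampB, fderiv_gau]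
  generalize ∫ k : X3, k j * lng k * Real.cos (dot k x) = J
  have hsq := sq_nonneg' x
  have hne : (1 : ℝ) + sq x ≠ 0 := by positivity
  have hpi : Real.pi ≠ 0 := Real.pi_ne_zero
  have h3 : (2 * Real.pi) ^ (-(3 : ℤ)) = 1 / (8 * Real.pi ^ 3) := by
    rw [zpow_neg]
    norm_cast
    rw [mul_pow]
    norm_num
  rw [h3]
  unfold trapA
  fin_cases j <;> simp <;> field_simp <;> ring

end Pool.Agent.Helper49_Pauli.TF

namespace Pool.Agent.Helper49_Pauli

open TF in
/-- Module TRAP-FOURIER. -/
theorem trapFourier : TrapFourierStatement := by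
  set M : ℝ := ∫ k : X3, nrm k ^ 3 * Real.exp (-nrm k) with hM
  have hM0 : 0 ≤ M := integral_nonneg fun k => by
    have := nrm_nonneg k
    positivity
  have hpi : 0 ≤ Real.pi ^ 2 := by positivity
  have hexp : ∀ q : X3, Real.exp (-nrm q) ≤ 1 := fun q => by
    rw [Real.exp_le_one_iff]
    linarith [nrm_nonneg q]
  have hexp0 : ∀ q : X3, 0 ≤ Real.exp (-nrm q) := fun q => (Real.exp_pos _).le
  have hC : 66 * Real.pi ^ 2 ≤ 66 * Real.pi ^ 2 * (1 + M) := by nlinarith
  refine ⟨ampA, ampB, gau, 66 * Real.pi ^ 2 * (1 + M), contDiff_gau, ampA_neg, ampB_neg, dot_ampA,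
    dot_ampB, measurable_ampA, measurable_ampB, ?_, ?_, continuousOn_ampA, continuousOn_ampB,
    integrable_ampA, integrable_ampB, ?_, trap_eq⟩
  · intro q j
    have h1 := abs_ampA_le q j
    have h2 : 44 * Real.pi ^ 2 * Real.exp (-nrm q) ≤ 44 * Real.pi ^ 2 * 1 :=
      mul_le_mul_of_nonneg_left (hexp q) (by positivity)
    linarith
  · intro q j
    have h1 := abs_ampB_le q j
    have h2 : 22 * Real.pi ^ 2 * Real.exp (-nrm q) ≤ 22 * Real.pi ^ 2 * 1 :=
      mul_le_mul_of_nonneg_left (hexp q) (by positivity)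
    linarith
  · intro N hN j
    have h1 := tail_le N hN j
    have h2 : 0 ≤ N ^ (-3 : ℤ) := by positivity
    have h3 : 66 * Real.pi ^ 2 * M * N ^ (-3 : ℤ) ≤ 66 * Real.pi ^ 2 * (1 + M) * N ^ (-3 : ℤ) :=
      mul_le_mul_of_nonneg_right (by nlinarith) h2
    exact h1.trans h3

end Pool.Agent.Helper49_Pauli
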