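import Pool.Agent.Helper49_Pauli.Interface2
import Pool.Agent.Helper41_Pauli.TrapFourier
import Pool.Agent.Helper41_Pauli.Latt

/-!
# Module TRAPLIM
-/

open MeasureTheory Set

namespace Pool.Agent.Helper49_Pauli.TF

lemma continuous_trapA (j : Fin 3) : Continuous fun x : X3 => trapA x j := by
  unfold trapA
  have h1 := continuous_sq
  have h2 : Continuous fun x : X3 => (1 + sq x)⁻¹ := by
    refine Continuous.inv₀ (by fun_prop) fun y => ?_
    have := sq_nonneg' y
    positivity
  have h3 : Continuous fun x : X3 => (![-x 1, x 0, 0] : X3) j := by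
    fin_cases j
    · exact (continuous_apply 1).neg
    · exact continuous_apply 0
    · exact continuous_const
  fun_prop

lemma dot_smul_smul {R : ℝ} (hR : 0 < R) (q x : X3) : dot q x = dot (R • q) (R⁻¹ • x) := by
  unfold dot
  apply Finset.sum_congr rfl
  intro i _
  simp only [Pi.smul_apply, smul_eq_mul]
  field_simp

lemma sq_smul (R : ℝ) (q : X3) : sq (R • q) = R ^ 2 * sq q := by
  unfold sq
  rw [Finset.mul_sum]
  apply Finset.sum_congr rfl
  intro i _
  simp only [Pi.smul_apply, smul_eq_mul]
  ring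

/-- Scaling of a truncated integral. -/
lemma integral_scale {R cut : ℝ} (hR : 0 < R) (F : X3 → ℝ) :
    ∫ q in {q : X3 | sq q < cut ^ 2}, F (R • q) =
      (R ^ 3)⁻¹ * ∫ p in {p : X3 | sq p < (R * cut) ^ 2}, F p := by
  have hm : MeasurableSet {q : X3 | sq q < cut ^ 2} :=
    measurableSet_lt continuous_sq.measurable measurable_const
  have hm' : MeasurableSet {q : X3 | sq q < (R * cut) ^ 2} :=
    measurableSet_lt continuous_sq.measurable measurable_const
  rw [← integral_indicator hm, ← integral_indicator hm']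
  have h1 := Measure.integral_comp_smul (volume : Measure X3)
    ({p : X3 | sq p < (R * cut) ^ 2}.indicator F) R
  have h2 : ∀ q : X3, {q : X3 | sq q < cut ^ 2}.indicator (fun q => F (R • q)) q =
      {p : X3 | sq p < (R * cut) ^ 2}.indicator F (R • q) := by
    intro q
    have hiff : sq q < cut ^ 2 ↔ sq (R • q) < (R * cut) ^ 2 := by
      rw [sq_smul, mul_pow]
      constructor
      · intro h
        exact mul_lt_mul_of_pos_left h (by positivity)
      · intro h
        exact lt_of_mul_lt_mul_left h (by positivity)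
    by_cases h : sq q < cut ^ 2
    · rw [Set.indicator_of_mem (show q ∈ {q : X3 | sq q < cut ^ 2} from h),
        Set.indicator_of_mem (show R • q ∈ {p : X3 | sq p < (R * cut) ^ 2} from hiff.mp h)]
    · rw [Set.indicator_of_notMem (show q ∉ {q : X3 | sq q < cut ^ 2} from h),
        Set.indicator_of_notMem (show R • q ∉ {p : X3 | sq p < (R * cut) ^ 2} from
          fun h' => h (hiff.mpr h'))]
  simp only [h2]
  rw [h1, smul_eq_mul]
  congr 1
  simp [abs_of_pos hR]

lemma twopi_le : (2 * Real.pi) ^ (-(3 : ℤ)) ≤ 1 := by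
  rw [zpow_neg]
  apply inv_le_one_of_one_le₀
  norm_cast
  exact one_le_pow₀ (by nlinarith [Real.pi_gt_three])

end Pool.Agent.Helper49_Pauli.TF

namespace Pool.Agent.Helper49_Pauli

open TF in
/-- Module TRAPLIM. -/
theorem trapLim : TrapLimitStatement := by
  obtain ⟨A, B, g, C0, hg, hAe, hBo, hAt, hBt, hAm, hBm, hAb, hBb, hAc, hBc, hAi, hBi, htail,
    heq⟩ := trapFourier
  have hC0 : 0 ≤ C0 := (abs_nonneg _).trans (hAb 0 0)
  have hpi3 : (0 : ℝ) ≤ (2 * Real.pi) ^ (-(3 : ℤ)) := by positivity
  refine ⟨24576 * C0 ^ 2 + 1, A, B, g, by positivity, hg, hAe, hBo, hAt, hBt, ?_, ?_⟩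
  · intro R cut L hR hcut hL
    have hL0 : 0 < L := by linarith
    have hsq : ∀ v : X3, (∀ j, |v j| ≤ C0) → sq v ≤ 3 * C0 ^ 2 := by
      intro v hv
      have h1 : ∀ j, v j ^ 2 ≤ C0 ^ 2 := fun j => sq_le_sq' (by
        have := abs_le.mp (hv j)
        linarith [this.1]) (abs_le.mp (hv j)).2
      unfold sq
      rw [Fin.sum_univ_three]
      linarith [h1 0, h1 1, h1 2]
    have h1 : ∑ n ∈ momenta cut L, (sq (A (R • wave L n)) + sq (B (R • wave L n))) ≤
        (momenta cut L).card * (6 * C0 ^ 2) := by
      rw [← nsmul_eq_mul]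
      apply Finset.sum_le_card_nsmul
      intro n _
      have := hsq _ (hAb (R • wave L n))
      have := hsq _ (hBb (R • wave L n))
      linarith
    have h2 := latt_card cut L hcut hL
    have h3 : 0 ≤ 1 / L ^ 3 := by positivity
    calc 1 / L ^ 3 * ∑ n ∈ momenta cut L, (sq (A (R • wave L n)) + sq (B (R • wave L n)))
        ≤ 1 / L ^ 3 * ((momenta cut L).card * (6 * C0 ^ 2)) := mul_le_mul_of_nonneg_left h1 h3
      _ = (momenta cut L).card / L ^ 3 * (6 * C0 ^ 2) := by ring
      _ ≤ 4096 * cut ^ 3 * (6 * C0 ^ 2) := mul_le_mul_of_nonneg_right h2 (by positivity)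
      _ = 24576 * C0 ^ 2 * cut ^ 3 := by ring
      _ ≤ _ := by
        have : 0 ≤ cut ^ 3 := by positivity
        nlinarith
  · intro R cut hR hcut hRc rho hrc hrs hr0
    set T : Fin 3 → X3 → ℝ := fun j x =>
      R⁻¹ * trapA (R⁻¹ • x) j + R⁻¹ * fderiv ℝ g (R⁻¹ • x) (Pi.single j 1) with hT
    set Φ : ℝ → Fin 3 → X3 → ℝ := fun L j x => 1 / L ^ 3 * (∑ n ∈ momenta cut L, R ^ 2 *
          (A (R • wave L n) j * Real.cos (dot (wave L n) x) -
            B (R • wave L n) j * Real.sin (dot (wave L n) x))) with hΦ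
    set Ψ : Fin 3 → X3 → ℝ := fun j x => (2 * Real.pi) ^ (-(3 : ℤ)) *
      ∫ q in {q : X3 | sq q < cut ^ 2}, R ^ 2 * (A (R • q) j * Real.cos (dot q x) -
        B (R • q) j * Real.sin (dot q x)) with hΨ
    -- the integrand
    set F : Fin 3 → X3 → X3 → ℝ := fun j x p =>
      A p j * Real.cos (dot p (R⁻¹ • x)) - B p j * Real.sin (dot p (R⁻¹ • x)) with hF
    have hFi : ∀ j x, Integrable (F j x) := fun j x =>
      (integrable_mul_cos (hAi j) (R⁻¹ • x)).sub (integrable_mul_sin (hBi j) (R⁻¹ • x))
    have hFb : ∀ j x p, |F j x p| ≤ |A p j| + |B p j| := by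
      intro j x p
      simp only [hF]
      refine (abs_sub _ _).trans (add_le_add ?_ ?_)
      · rw [abs_mul]
        exact mul_le_of_le_one_right (abs_nonneg _) (Real.abs_cos_le_one _)
      · rw [abs_mul]
        exact mul_le_of_le_one_right (abs_nonneg _) (Real.abs_sin_le_one _)
    have hABi : ∀ j, Integrable fun p => |A p j| + |B p j| := fun j => (hAi j).abs.add (hBi j).abs
    have hT' : ∀ j x, T j x = R⁻¹ * ((2 * Real.pi) ^ (-(3 : ℤ)) * ∫ p, F j x p) := by
      intro j x
      simp only [hT, hF]
      rw [← heq (R⁻¹ • x) j]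
      ring
    have hΨ' : ∀ j x, Ψ j x = R⁻¹ * ((2 * Real.pi) ^ (-(3 : ℤ)) *
        ∫ p in {p : X3 | sq p < (R * cut) ^ 2}, F j x p) := by
      intro j x
      simp only [hΨ]
      have h1 : ∀ q : X3, R ^ 2 * (A (R • q) j * Real.cos (dot q x) -
          B (R • q) j * Real.sin (dot q x)) = R ^ 2 * F j x (R • q) := by
        intro q
        simp only [hF]
        rw [dot_smul_smul hR q x]
      simp only [h1]
      rw [integral_const_mul, integral_scale hR (F j x)]
      field_simp
    have hm : MeasurableSet {q : X3 | sq q < (R * cut) ^ 2} :=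
      measurableSet_lt continuous_sq.measurable measurable_const
    have hdiff : ∀ j x, |Ψ j x - T j x| ≤ C0 * (R⁻¹ * (R * cut) ^ (-3 : ℤ)) := by
      intro j x
      rw [hT', hΨ', ← mul_sub, ← mul_sub]
      have h1 : (∫ p in {p : X3 | sq p < (R * cut) ^ 2}, F j x p) - ∫ p, F j x p =
          -∫ p in {p : X3 | (R * cut) ^ 2 ≤ sq p}, F j x p := by
        rw [← integral_add_compl hm (hFi j x)]
        have : {p : X3 | sq p < (R * cut) ^ 2}ᶜ = {p : X3 | (R * cut) ^ 2 ≤ sq p} := by
          ext p
          simp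
        rw [this]
        ring
      rw [h1, mul_neg, mul_neg, abs_neg, abs_mul, abs_mul, abs_of_pos (inv_pos.mpr hR),
        abs_of_nonneg hpi3]
      have h2 : |∫ p in {p : X3 | (R * cut) ^ 2 ≤ sq p}, F j x p| ≤ C0 * (R * cut) ^ (-3 : ℤ) := by
        refine le_trans ?_ (htail (R * cut) hRc j)
        rw [← Real.norm_eq_abs]
        exact norm_integral_le_of_norm_le (hABi j).integrableOn
          (Filter.Eventually.of_forall fun p => hFb j x p)
      have h3 : 0 ≤ C0 * (R * cut) ^ (-3 : ℤ) := (abs_nonneg _).trans h2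
      calc R⁻¹ * ((2 * Real.pi) ^ (-(3 : ℤ)) * |∫ p in {p : X3 | (R * cut) ^ 2 ≤ sq p}, F j x p|)
          ≤ R⁻¹ * (1 * (C0 * (R * cut) ^ (-3 : ℤ))) := by
            apply mul_le_mul_of_nonneg_left _ (by positivity)
            exact mul_le_mul twopi_le h2 (abs_nonneg _) (by norm_num)
        _ = _ := by ring
    -- pointwise convergence
    have hlim : ∀ j x, Filter.Tendsto (fun L => Φ L j x) Filter.atTop (nhds (Ψ j x)) := by
      intro j x
      refine latt_lim (fun q => R ^ 2 * (A (R • q) j * Real.cos (dot q x) -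
        B (R • q) j * Real.sin (dot q x))) (R ^ 2 * (C0 + C0)) cut (by linarith) ?_ ?_
      · intro q
        rw [abs_mul, abs_of_nonneg (by positivity : (0 : ℝ) ≤ R ^ 2)]
        apply mul_le_mul_of_nonneg_left _ (by positivity)
        refine (abs_sub _ _).trans (add_le_add ?_ ?_)
        · rw [abs_mul]
          exact (mul_le_of_le_one_right (abs_nonneg _) (Real.abs_cos_le_one _)).trans (hAb _ _)
        · rw [abs_mul]
          exact (mul_le_of_le_one_right (abs_nonneg _) (Real.abs_sin_le_one _)).trans (hBb _ _)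
      · have hsm : ContinuousOn (fun q : X3 => R • q) {q | q ≠ 0} :=
          (continuous_const_smul R).continuousOn
        have hmap : Set.MapsTo (fun q : X3 => R • q) {q | q ≠ 0} {q | q ≠ 0} := by
          intro q hq h
          exact hq ((smul_eq_zero.mp h).resolve_left hR.ne')
        have hcA : ContinuousOn (fun q : X3 => A (R • q) j) {q | q ≠ 0} := (hAc j).comp hsm hmap
        have hcB : ContinuousOn (fun q : X3 => B (R • q) j) {q | q ≠ 0} := (hBc j).comp hsm hmap
        have hd := measurable_dot x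
        exact continuousOn_const.mul ((hcA.mul (Real.continuous_cos.comp hd).continuousOn).sub
          (hcB.mul (Real.continuous_sin.comp hd).continuousOn))
    -- uniform bounds
    set M1 : ℝ := R ^ 2 * (C0 + C0) * (4096 * cut ^ 3) with hM1
    set M2 : ℝ := R⁻¹ * ∑ j, ∫ p, (|A p j| + |B p j|) with hM2
    have hM1' : 0 ≤ M1 := by positivity
    have hI0 : ∀ j, 0 ≤ ∫ p, (|A p j| + |B p j|) := fun j =>
      integral_nonneg fun p => by positivity
    have hM2' : 0 ≤ M2 := mul_nonneg (by positivity) (Finset.sum_nonneg fun j _ => hI0 j)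
    have hΦb : ∀ L, 1 ≤ L → ∀ j x, |Φ L j x| ≤ M1 := by
      intro L hL j x
      have hL0 : 0 < L := by linarith
      simp only [hΦ]
      have h3 : 0 ≤ 1 / L ^ 3 := by positivity
      rw [abs_mul, abs_of_nonneg h3]
      have h1 : |∑ n ∈ momenta cut L, R ^ 2 * (A (R • wave L n) j * Real.cos (dot (wave L n) x) -
            B (R • wave L n) j * Real.sin (dot (wave L n) x))| ≤
          (momenta cut L).card * (R ^ 2 * (C0 + C0)) := by
        refine (Finset.abs_sum_le_sum_abs _ _).trans ?_
        rw [← nsmul_eq_mul]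
        apply Finset.sum_le_card_nsmul
        intro n _
        rw [abs_mul, abs_of_nonneg (by positivity : (0 : ℝ) ≤ R ^ 2)]
        apply mul_le_mul_of_nonneg_left _ (by positivity)
        refine (abs_sub _ _).trans (add_le_add ?_ ?_)
        · rw [abs_mul]
          exact (mul_le_of_le_one_right (abs_nonneg _) (Real.abs_cos_le_one _)).trans (hAb _ _)
        · rw [abs_mul]
          exact (mul_le_of_le_one_right (abs_nonneg _) (Real.abs_sin_le_one _)).trans (hBb _ _)
      have h2 := latt_card cut L hcut hL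
      calc 1 / L ^ 3 * |∑ n ∈ momenta cut L, R ^ 2 *
            (A (R • wave L n) j * Real.cos (dot (wave L n) x) -
            B (R • wave L n) j * Real.sin (dot (wave L n) x))|
          ≤ 1 / L ^ 3 * ((momenta cut L).card * (R ^ 2 * (C0 + C0))) :=
            mul_le_mul_of_nonneg_left h1 h3
        _ = R ^ 2 * (C0 + C0) * ((momenta cut L).card / L ^ 3) := by ring
        _ ≤ R ^ 2 * (C0 + C0) * (4096 * cut ^ 3) := mul_le_mul_of_nonneg_left h2 (by positivity)
    have hTb : ∀ j x, |T j x| ≤ M2 := by
      intro j x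
      rw [hT', abs_mul, abs_mul, abs_of_pos (inv_pos.mpr hR), abs_of_nonneg hpi3]
      have h2 : |∫ p, F j x p| ≤ ∫ p, (|A p j| + |B p j|) := by
        rw [← Real.norm_eq_abs]
        exact norm_integral_le_of_norm_le (hABi j) (Filter.Eventually.of_forall fun p => hFb j x p)
      have h3 : ∫ p, (|A p j| + |B p j|) ≤ ∑ j, ∫ p, (|A p j| + |B p j|) :=
        Finset.single_le_sum (f := fun j => ∫ p, (|A p j| + |B p j|)) (fun j _ => hI0 j)
          (Finset.mem_univ j)
      calc R⁻¹ * ((2 * Real.pi) ^ (-(3 : ℤ)) * |∫ p, F j x p|)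
          ≤ R⁻¹ * (1 * ∑ j, ∫ p, (|A p j| + |B p j|)) := by
            apply mul_le_mul_of_nonneg_left _ (by positivity)
            exact mul_le_mul twopi_le (h2.trans h3) (abs_nonneg _) (by norm_num)
        _ = M2 := by rw [one_mul]
    have hTc : ∀ j, Continuous (T j) := by
      intro j
      have h1 := continuous_trapA j
      have h2 : Continuous fun x : X3 => fderiv ℝ g x (Pi.single j 1) :=
        (hg.continuous_fderiv (by simp)).clm_apply continuous_const
      have h3 : Continuous fun x : X3 => R⁻¹ • x := continuous_const_smul _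
      exact (continuous_const.mul (h1.comp h3)).add (continuous_const.mul (h2.comp h3))
    have hΦc : ∀ L j, Continuous (Φ L j) := by
      intro L j
      simp only [hΦ]
      refine continuous_const.mul (continuous_finsetSum _ fun n _ => ?_)
      have := continuous_dot (wave L n)
      fun_prop
    have hrho : Integrable rho := hrc.integrable_of_hasCompactSupport hrs
    -- convergence of the integrals
    have hconv : Filter.Tendsto (fun L => ∫ x, rho x * ∑ j, (Φ L j x - T j x) ^ 2) Filter.atTop
        (nhds (∫ x, rho x * ∑ j, (Ψ j x - T j x) ^ 2)) := by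
      refine tendsto_integral_filter_of_dominated_convergence
        (fun x => rho x * (3 * (M1 + M2) ^ 2)) ?_ ?_ (hrho.mul_const _) ?_
      · refine Filter.Eventually.of_forall fun L => Continuous.aestronglyMeasurable ?_
        refine hrc.mul (continuous_finsetSum _ fun j _ => ?_)
        exact ((hΦc L j).sub (hTc j)).pow 2
      · filter_upwards [Filter.eventually_ge_atTop 1] with L hL
        refine Filter.Eventually.of_forall fun x => ?_
        have h1 : ∀ j, (Φ L j x - T j x) ^ 2 ≤ (M1 + M2) ^ 2 := by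
          intro j
          apply sq_le_sq'
          · have h2 := abs_le.mp (hΦb L hL j x)
            have h3 := abs_le.mp (hTb j x)
            linarith [h2.1, h3.2]
          · have h2 := abs_le.mp (hΦb L hL j x)
            have h3 := abs_le.mp (hTb j x)
            linarith [h2.2, h3.1]
        rw [norm_mul, Real.norm_eq_abs, Real.norm_eq_abs, abs_of_nonneg (hr0 x),
          abs_of_nonneg (Finset.sum_nonneg fun j _ => sq_nonneg _)]
        apply mul_le_mul_of_nonneg_left _ (hr0 x)
        rw [Fin.sum_univ_three]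
        linarith [h1 0, h1 1, h1 2]
      · refine Filter.Eventually.of_forall fun x => ?_
        refine Filter.Tendsto.const_mul _ (tendsto_finsetSum _ fun j _ => ?_)
        exact ((hlim j x).sub_const _).pow 2
    -- bound of the limit
    have hbd : ∫ x, rho x * ∑ j, (Ψ j x - T j x) ^ 2 ≤
        (24576 * C0 ^ 2 + 1) * (R ^ (-2 : ℤ) * (R * cut) ^ (-6 : ℤ)) * (∫ x, rho x) := by
      have hRc0 : 0 < R * cut := by linarith
      set D : ℝ := R ^ (-2 : ℤ) * (R * cut) ^ (-6 : ℤ) with hD
      have hD0 : 0 ≤ D := by positivity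
      have hD2 : (R⁻¹ * (R * cut) ^ (-3 : ℤ)) ^ 2 = D := by
        rw [hD, mul_pow]
        congr 1
        · rw [inv_pow, zpow_neg]
          norm_cast
        · rw [← zpow_natCast, ← zpow_mul]
          norm_num
      have h1 : ∀ x, ∑ j, (Ψ j x - T j x) ^ 2 ≤ (24576 * C0 ^ 2 + 1) * D := by
        intro x
        have h2 : ∀ j, (Ψ j x - T j x) ^ 2 ≤ C0 ^ 2 * D := by
          intro j
          have h3 := hdiff j x
          calc (Ψ j x - T j x) ^ 2 = |Ψ j x - T j x| ^ 2 := (sq_abs _).symm
            _ ≤ (C0 * (R⁻¹ * (R * cut) ^ (-3 : ℤ))) ^ 2 := by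
              exact pow_le_pow_left₀ (abs_nonneg _) h3 2
            _ = _ := by rw [mul_pow, hD2]
        rw [Fin.sum_univ_three]
        have : 0 ≤ C0 ^ 2 * D := by positivity
        nlinarith [h2 0, h2 1, h2 2]
      rw [← integral_const_mul]
      apply integral_mono_of_nonneg
      · exact Filter.Eventually.of_forall fun x =>
          mul_nonneg (hr0 x) (Finset.sum_nonneg fun j _ => sq_nonneg _)
      · exact hrho.const_mul _
      · refine Filter.Eventually.of_forall fun x => ?_
        simp only
        rw [mul_comm ((24576 * C0 ^ 2 + 1) * D)]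
        exact mul_le_mul_of_nonneg_left (h1 x) (hr0 x)
    have hev := hconv.eventually (gt_mem_nhds (lt_add_one _))
    obtain ⟨a, ha⟩ := Filter.eventually_atTop.mp hev
    refine ⟨max a 1, le_max_right _ _, fun L hL => ?_⟩
    have h1 := ha L ((le_max_left _ _).trans hL)
    exact (h1.trans_le (add_le_add_left hbd 1)).le

end Pool.Agent.Helper49_Pauli
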